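import Pool.Agent.H537R3.Chess.Check

namespace H537R3.Chess

/-- The 55 quartic monomials in `v 0, …, v 4` with at most one factor `v 1`. -/
def monos : List (ℕ × ℕ × ℕ × ℕ) := [
  (0, 0, 0, 0), (4, 0, 0, 0), (4, 4, 0, 0), (4, 4, 4, 0), (4, 4, 4, 4), (3, 0, 0, 0), (3, 4, 0, 0), (3, 4, 4, 0),
  (3, 4, 4, 4), (3, 3, 0, 0), (3, 3, 4, 0), (3, 3, 4, 4), (3, 3, 3, 0), (3, 3, 3, 4), (3, 3, 3, 3), (2, 0, 0, 0),
  (2, 4, 0, 0), (2, 4, 4, 0), (2, 4, 4, 4), (2, 3, 0, 0), (2, 3, 4, 0), (2, 3, 4, 4), (2, 3, 3, 0), (2, 3, 3, 4),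
  (2, 3, 3, 3), (2, 2, 0, 0), (2, 2, 4, 0), (2, 2, 4, 4), (2, 2, 3, 0), (2, 2, 3, 4), (2, 2, 3, 3), (2, 2, 2, 0),
  (2, 2, 2, 4), (2, 2, 2, 3), (2, 2, 2, 2), (1, 0, 0, 0), (1, 4, 0, 0), (1, 4, 4, 0), (1, 4, 4, 4), (1, 3, 0, 0),
  (1, 3, 4, 0), (1, 3, 4, 4), (1, 3, 3, 0), (1, 3, 3, 4), (1, 3, 3, 3), (1, 2, 0, 0), (1, 2, 4, 0), (1, 2, 4, 4),
  (1, 2, 3, 0), (1, 2, 3, 4), (1, 2, 3, 3), (1, 2, 2, 0), (1, 2, 2, 4), (1, 2, 2, 3), (1, 2, 2, 2)]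

def mono {R : Type*} [Mul R] (m : ℕ × ℕ × ℕ × ℕ) (v : ℕ → R) : R :=
  v m.1 * v m.2.1 * v m.2.2.1 * v m.2.2.2

/-- Doubled homogeneous coordinates `(2 s, 2 x₁, 2 η₁, 2 x₂, 2 η₂)` of the grid point
`P_{g,h} = g · P_{h - g}`. -/
def ptv {R : Type*} [CommRing R] (s : R) (z : ℕ → R) (g h : ℕ) (i : ℕ) : R :=
  let p := 12 + 4 * (3 * ((h / 3 + 3 - g / 3) % 3) + (h % 3 + 3 - g % 3) % 3)
  let A := rot2 ((3 - g / 3) % 3)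
  let B := rot2 ((3 - g % 3) % 3)
  match i with
  | 0 => 2 * s
  | 1 => (A.1 : R) * z p + (A.2.1 : R) * z (p + 1)
  | 2 => (A.2.2.1 : R) * z p + (A.2.2.2 : R) * z (p + 1)
  | 3 => (B.1 : R) * z (p + 2) + (B.2.1 : R) * z (p + 3)
  | _ => (B.2.2.1 : R) * z (p + 2) + (B.2.2.2 : R) * z (p + 3)

def dot : List ℤ → List ℤ → ℤ
  | a :: l, b :: m => a * b + dot l m
  | _, _ => 0

def vz (j : ℕ) (i : ℕ) : ℤ := ptv (10 ^ 12 : ℤ) zf (j / 9) (j % 9) i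

def mcols : List (List ℤ) := monos.map fun m => (List.range' 0 81).map fun j => mono m (vz j)

def starErr (i : ℕ) : ℤ :=
  ((List.range 55).map fun k =>
    |dot (ystar.getD i []) (mcols.getD k []) - if i = k then 16 * 10 ^ 51 else 0|).sum

def starNorm (i : ℕ) : ℤ := ((List.range 81).map fun j => |(ystar.getD i []).getD j 0|).sum

def starCheck (i : ℕ) : Bool :=
  decide (starErr i ≤ 16 * 10 ^ 50) && decide (starNorm i ≤ 2 * 10 ^ 7)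

def ptCheck (j : ℕ) : Bool := (List.range 5).all fun i => decide (|vz j i| ≤ 2 * 10 ^ 12)

def mk (k : ℕ) : ℕ × ℕ × ℕ × ℕ := monos.getD k (0, 0, 0, 0)

end H537R3.Chess
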