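import Pool.Agent.H537R3.Chess.Quart
import Pool.Agent.H537R3.Chess.StarDefs

namespace H537R3.Chess

def nsq (x : E3) : ℝ := x 0 ^ 2 + x 1 ^ 2 + x 2 ^ 2

/-- Homogeneous coordinates on the conformal sphere. -/
noncomputable def zeta (x : E3) : ℕ → ℝ
  | 0 => 1 + nsq x
  | 1 => 2 * x 0
  | 2 => 2 * x 1 / √3
  | 3 => 2 * x 2
  | _ => (nsq x - 1) / √3

theorem sqrt3_sq : √3 ^ 2 = (3 : ℝ) := Real.sq_sqrt (by norm_num)
theorem sqrt3_ne : √3 ≠ (0 : ℝ) := by positivity

theorem zeta_rel (x : E3) : zeta x 1 ^ 2 = zeta x 0 ^ 2 - 3 * zeta x 2 ^ 2 - zeta x 3 ^ 2 - 3 * zeta x 4 ^ 2 := by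
  have h := sqrt3_sq
  have h0 := sqrt3_ne
  simp only [zeta, div_pow, h, nsq]
  ring

theorem lin_zeta (f : E3 → ℝ) (hf : f ∈ Lin) : ∃ c0 c1 c2 c3 c4 : ℝ, ∀ x, f x =
    c0 * zeta x 0 + c1 * zeta x 1 + c2 * zeta x 2 + c3 * zeta x 3 + c4 * zeta x 4 := by
  obtain ⟨a, b0, b1, b2, c, rfl⟩ := hf
  refine ⟨(a + c) / 2, b0 / 2, √3 * b1 / 2, b2 / 2, √3 * (a - c) / 2, fun x => ?_⟩
  have h := sqrt3_sq
  have h0 := sqrt3_ne
  simp only [zeta, linF, nsq]
  field_simp
  ring

def V (D : ℕ) : Submodule ℝ (E3 → ℝ) := Submodule.span ℝ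
  {f | ∃ e b c d, e ≤ 1 ∧ e + b + c + d ≤ D ∧
    f = fun x => zeta x 1 ^ e * zeta x 2 ^ b * zeta x 3 ^ c * zeta x 4 ^ d * zeta x 0 ^ (D - (e + b + c + d))}

theorem gen_mem {D e b c d : ℕ} (he : e ≤ 1) (h : e + b + c + d ≤ D) :
    (fun x => zeta x 1 ^ e * zeta x 2 ^ b * zeta x 3 ^ c * zeta x 4 ^ d * zeta x 0 ^ (D - (e + b + c + d))) ∈ V D :=
  Submodule.subset_span ⟨e, b, c, d, he, h, rfl⟩

theorem gen_mem' {D e b c d n : ℕ} (he : e ≤ 1) (h : e + b + c + d + n = D) (f : E3 → ℝ)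
    (hf : ∀ x, f x = zeta x 1 ^ e * zeta x 2 ^ b * zeta x 3 ^ c * zeta x 4 ^ d * zeta x 0 ^ n) : f ∈ V D := by
  have h1 : n = D - (e + b + c + d) := by omega
  have h2 : f = (fun x => zeta x 1 ^ e * zeta x 2 ^ b * zeta x 3 ^ c * zeta x 4 ^ d * zeta x 0 ^ (D - (e + b + c + d))) := by
    funext x; rw [hf x, ← h1]
  rw [h2]
  exact gen_mem he (by omega)

theorem mul_gen (D i : ℕ) (hi : i < 5) (f : E3 → ℝ) (hf : f ∈ V D) : (fun x => zeta x i * f x) ∈ V (D + 1) := by
  unfold V at hf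
  induction hf using Submodule.span_induction with
  | mem f hf =>
    obtain ⟨e, b, c, d, he, h, rfl⟩ := hf
    obtain ⟨n, hn⟩ : ∃ n, n = D - (e + b + c + d) := ⟨_, rfl⟩
    rw [← hn]
    interval_cases i
    · exact gen_mem' (e := e) (b := b) (c := c) (d := d) (n := n + 1) he (by omega) _ (fun x => by ring)
    · interval_cases e
      · exact gen_mem' (e := 1) (b := b) (c := c) (d := d) (n := n) le_rfl (by omega) _ (fun x => by ring)
      · have g0 := gen_mem' (D := D + 1) (e := 0) (b := b) (c := c) (d := d) (n := n + 2) (by norm_num) (by omega)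
          (fun x => zeta x 1 ^ 0 * zeta x 2 ^ b * zeta x 3 ^ c * zeta x 4 ^ d * zeta x 0 ^ (n + 2)) (fun x => rfl)
        have g2 := gen_mem' (D := D + 1) (e := 0) (b := b + 2) (c := c) (d := d) (n := n) (by norm_num) (by omega)
          (fun x => zeta x 1 ^ 0 * zeta x 2 ^ (b + 2) * zeta x 3 ^ c * zeta x 4 ^ d * zeta x 0 ^ n) (fun x => rfl)
        have g3 := gen_mem' (D := D + 1) (e := 0) (b := b) (c := c + 2) (d := d) (n := n) (by norm_num) (by omega)
          (fun x => zeta x 1 ^ 0 * zeta x 2 ^ b * zeta x 3 ^ (c + 2) * zeta x 4 ^ d * zeta x 0 ^ n) (fun x => rfl)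
        have g4 := gen_mem' (D := D + 1) (e := 0) (b := b) (c := c) (d := d + 2) (n := n) (by norm_num) (by omega)
          (fun x => zeta x 1 ^ 0 * zeta x 2 ^ b * zeta x 3 ^ c * zeta x 4 ^ (d + 2) * zeta x 0 ^ n) (fun x => rfl)
        have := Submodule.sub_mem _ (Submodule.sub_mem _ (Submodule.sub_mem _ g0 (Submodule.smul_mem _ (3 : ℝ) g2)) g3)
          (Submodule.smul_mem _ (3 : ℝ) g4)
        convert this using 1
        funext x
        simp only [Pi.sub_apply, Pi.smul_apply, smul_eq_mul]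
        have hr := zeta_rel x
        linear_combination (zeta x 2 ^ b * zeta x 3 ^ c * zeta x 4 ^ d * zeta x 0 ^ n) * hr
    · exact gen_mem' (e := e) (b := b + 1) (c := c) (d := d) (n := n) he (by omega) _ (fun x => by ring)
    · exact gen_mem' (e := e) (b := b) (c := c + 1) (d := d) (n := n) he (by omega) _ (fun x => by ring)
    · exact gen_mem' (e := e) (b := b) (c := c) (d := d + 1) (n := n) he (by omega) _ (fun x => by ring)
  | zero => simp only [Pi.zero_apply, mul_zero]; exact Submodule.zero_mem _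
  | add f g _ _ hf hg =>
    have := Submodule.add_mem _ hf hg
    convert this using 1
    funext x; simp only [Pi.add_apply]; ring
  | smul t f _ hf =>
    have := Submodule.smul_mem _ t hf
    convert this using 1
    funext x; simp only [Pi.smul_apply, smul_eq_mul]; ring

theorem lin_pow_le : ∀ n : ℕ, Lin ^ n ≤ V n
  | 0 => by
    intro f hf
    rw [pow_zero, Submodule.mem_one] at hf
    obtain ⟨r, rfl⟩ := hf
    have := Submodule.smul_mem _ r (gen_mem' (D := 0) (e := 0) (b := 0) (c := 0) (d := 0) (n := 0) (by norm_num) rfl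
      (fun _ => 1) (fun x => by simp))
    convert this using 1
    funext x
    simp
  | n + 1 => by
    rw [pow_succ, Submodule.mul_le]
    intro f hf g hg
    have hf' := lin_pow_le n hf
    obtain ⟨c0, c1, c2, c3, c4, hc⟩ := lin_zeta g hg
    have h0 := Submodule.smul_mem _ c0 (mul_gen n 0 (by norm_num) f hf')
    have h1 := Submodule.smul_mem _ c1 (mul_gen n 1 (by norm_num) f hf')
    have h2 := Submodule.smul_mem _ c2 (mul_gen n 2 (by norm_num) f hf')
    have h3 := Submodule.smul_mem _ c3 (mul_gen n 3 (by norm_num) f hf')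
    have h4 := Submodule.smul_mem _ c4 (mul_gen n 4 (by norm_num) f hf')
    have := Submodule.add_mem _ (Submodule.add_mem _ (Submodule.add_mem _ (Submodule.add_mem _ h0 h1) h2) h3) h4
    convert this using 1
    funext x
    simp only [Pi.mul_apply, Pi.add_apply, Pi.smul_apply, smul_eq_mul, hc x]
    ring


def quadOf (e b c d : ℕ) : ℕ × ℕ × ℕ × ℕ :=
  let l := List.replicate e 1 ++ List.replicate b 2 ++ List.replicate c 3 ++ List.replicate d 4
  (l.getD 0 0, l.getD 1 0, l.getD 2 0, l.getD 3 0)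

theorem quad_mem : ∀ e : Fin 2, ∀ b c d : Fin 5, (e : ℕ) + b + c + d ≤ 4 →
    ∃ k : Fin 55, mk k = quadOf e b c d := by decide +kernel

theorem mono_quad (v : ℕ → ℝ) {e b c d : ℕ} (he : e ≤ 1) (h : e + b + c + d ≤ 4) :
    mono (quadOf e b c d) v = v 1 ^ e * v 2 ^ b * v 3 ^ c * v 4 ^ d * v 0 ^ (4 - (e + b + c + d)) := by
  have hb : b ≤ 4 := by omega
  have hc : c ≤ 4 := by omega
  have hd : d ≤ 4 := by omega
  interval_cases e <;> interval_cases b <;> interval_cases c <;> interval_cases d <;>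
    first
    | (exfalso; omega)
    | (simp only [quadOf, mono, List.replicate, List.nil_append, List.cons_append, List.getD_cons_zero,
        List.getD_cons_succ, List.getD_nil]; ring)

/-- Every function in `Lin ^ 4` is a combination of the 55 monomials in `zeta`. -/
theorem lin4_coeffs (f : E3 → ℝ) (hf : f ∈ Lin ^ 4) :
    ∃ c : Fin 55 → ℝ, ∀ x, f x = ∑ k : Fin 55, c k * mono (mk k) (zeta x) := by
  have h1 := lin_pow_le 4 hf
  have h2 : V 4 ≤ Submodule.span ℝ (Set.range fun k : Fin 55 => fun x => mono (mk k) (zeta x)) := by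
    unfold V
    rw [Submodule.span_le]
    rintro g ⟨e, b, c, d, he, h, rfl⟩
    obtain ⟨k, hk2⟩ := quad_mem ⟨e, by omega⟩ ⟨b, by omega⟩ ⟨c, by omega⟩ ⟨d, by omega⟩ h
    apply Submodule.subset_span
    refine ⟨k, ?_⟩
    funext x
    simp only [hk2]
    exact mono_quad _ he h
  obtain ⟨c, hc⟩ := (Submodule.mem_span_range_iff_exists_fun ℝ).mp (h2 h1)
  refine ⟨c, fun x => ?_⟩
  rw [← hc, Finset.sum_apply]
  simp

end H537R3.Chess
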