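import Pool.Agent.H537R3.Chess.Data

namespace H537R3.Chess

/-- quadratic polynomials with integer coefficients, as lists of terms -/
structure QP where
  c : ℤ
  lin : List (ℤ × ℕ)
  quad : List (ℤ × ℕ × ℕ)

/-- value at `z/s`, scaled by `s^2` -/
def QP.ev {R : Type*} [CommRing R] (q : QP) (s : R) (z : ℕ → R) : R :=
  (q.c : R) * (s * s) + (q.lin.map fun t => (t.1 : R) * (s * z t.2)).sum
    + (q.quad.map fun t => (t.1 : R) * (z t.2.1 * z t.2.2)).sum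

/-- derivative at `z/s` in the direction `w`, scaled by `s` -/
def QP.der {R : Type*} [CommRing R] (q : QP) (s : R) (z w : ℕ → R) : R :=
  (q.lin.map fun t => (t.1 : R) * (s * w t.2)).sum
    + (q.quad.map fun t => (t.1 : R) * (z t.2.1 * w t.2.2 + z t.2.2 * w t.2.1)).sum

/-- doubled matrix of the rotation by `-120 k` degrees in the coordinates `(x, y / √3)` -/
def rot2 : ℕ → ℤ × ℤ × ℤ × ℤ
  | 0 => (2, 0, 0, 2)
  | 1 => (-1, 3, -1, -1)
  | _ => (-1, -3, 1, -1)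

/-- the five equations of the point `P_g`, `g = (g / 3, g % 3)` -/
def eqns (g : ℕ) : List QP :=
  let p := 12 + 4 * g
  let R := rot2 (g / 3)
  let S := rot2 (g % 3)
  [⟨0, [(1, p + 1), (-1, 2)], [(-1, 0, p), (-1, 1, p + 2)]⟩,
   ⟨0, [(1, p + 3), (-1, 5)], [(-1, 3, p), (-1, 4, p + 2)]⟩,
   ⟨0, [(R.2.2.1, p), (R.2.2.2, p + 1), (-2, 8)],
      [(-R.1, 6, p), (-R.2.1, 6, p + 1), (-S.1, 7, p + 2), (-S.2.1, 7, p + 3)]⟩,
   ⟨0, [(S.2.2.1, p + 2), (S.2.2.2, p + 3), (-2, 11)],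
      [(-R.1, 9, p), (-R.2.1, 9, p + 1), (-S.1, 10, p + 2), (-S.2.1, 10, p + 3)]⟩,
   ⟨-1, [], [(1, p, p), (3, p + 1, p + 1), (1, p + 2, p + 2), (3, p + 3, p + 3)]⟩]

def eqsAll : List QP := (List.range 9).flatMap eqns

def zf (k : ℕ) : ℤ := z0.getD k 0

/-- entries of the approximate right inverse -/
def Yf (k j : ℕ) : ℤ := if k < 48 then (ycols.getD j []).getD k 0 else 0

def muSum (q : QP) : ℤ := (q.quad.map fun t => |t.1|).sum

def rowErr (q : QP) (i : ℕ) : ℤ :=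
  ((List.range 45).map fun j =>
    |q.der (10 ^ 12 : ℤ) zf (fun k => Yf k j) - if i = j then 10 ^ 17 else 0|).sum

def eqn (i : ℕ) : QP := eqsAll.getD i ⟨0, [], []⟩

def nkCheck (i : ℕ) : Bool :=
  let q := eqn i
  decide (rowErr q i ≤ 10 ^ 14) && decide (muSum q ≤ 8) &&
    decide (|q.ev (10 ^ 12 : ℤ) zf| ≤ 10 ^ 13 / 2)

def nkNorm (k : ℕ) : Bool := decide (((List.range 45).map fun j => |Yf k j|).sum ≤ 50 * 10 ^ 5)

end H537R3.Chess
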