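import Pool.Agent.H537R3.Chess.TypeC2

namespace H537R3.Chess

/-- Two independent equations `a |x|² + b · x + c = 0` with two distinct solutions cut out a circle. -/
theorem circle_of_lin (a b0 b1 b2 c a' b0' b1' b2' c' : ℝ) (ha' : a' ≠ 0)
    (hn : ¬(a' * b0 - a * b0' = 0 ∧ a' * b1 - a * b1' = 0)) (x y : E3) (hxy : x ≠ y)
    (hx1 : linF a b0 b1 b2 c x = 0) (hx2 : linF a' b0' b1' b2' c' x = 0)
    (hy1 : linF a b0 b1 b2 c y = 0) (hy2 : linF a' b0' b1' b2' c' y = 0) :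
    IsCircle {z | linF a b0 b1 b2 c z = 0 ∧ linF a' b0' b1' b2' c' z = 0} := by
  obtain ⟨n0, hn0⟩ : ∃ t, t = a' * b0 - a * b0' := ⟨_, rfl⟩
  obtain ⟨n1, hn1⟩ : ∃ t, t = a' * b1 - a * b1' := ⟨_, rfl⟩
  obtain ⟨n2, hn2⟩ : ∃ t, t = a' * b2 - a * b2' := ⟨_, rfl⟩
  obtain ⟨h, hh⟩ : ∃ t, t = a' * c - a * c' := ⟨_, rfl⟩
  obtain ⟨m0, hm0⟩ : ∃ t, t = -b0' / (2 * a') := ⟨_, rfl⟩
  obtain ⟨m1, hm1⟩ : ∃ t, t = -b1' / (2 * a') := ⟨_, rfl⟩
  obtain ⟨m2, hm2⟩ : ∃ t, t = -b2' / (2 * a') := ⟨_, rfl⟩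
  obtain ⟨R, hR⟩ : ∃ t, t = m0 ^ 2 + m1 ^ 2 + m2 ^ 2 - c' / a' := ⟨_, rfl⟩
  have hnpos : 0 < n0 ^ 2 + n1 ^ 2 + n2 ^ 2 := by
    rw [← hn0, ← hn1] at hn
    by_contra hcon
    apply hn
    have h0 := sq_nonneg n0
    have h1 := sq_nonneg n1
    have h2 := sq_nonneg n2
    refine ⟨?_, ?_⟩ <;> apply pow_eq_zero_iff (two_ne_zero) |>.mp <;> linarith
  obtain ⟨t, ht⟩ : ∃ t, t = (n0 * m0 + n1 * m1 + n2 * m2 + h) / (n0 ^ 2 + n1 ^ 2 + n2 ^ 2) := ⟨_, rfl⟩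
  have ht2 : t * (n0 ^ 2 + n1 ^ 2 + n2 ^ 2) = n0 * m0 + n1 * m1 + n2 * m2 + h := by
    rw [ht]; exact div_mul_cancel₀ _ hnpos.ne'
  have e0 : b0' = -2 * a' * m0 := by rw [hm0]; field_simp
  have e1 : b1' = -2 * a' * m1 := by rw [hm1]; field_simp
  have e2 : b2' = -2 * a' * m2 := by rw [hm2]; field_simp
  have e3 : c' = a' * (m0 ^ 2 + m1 ^ 2 + m2 ^ 2 - R) := by rw [hR]; field_simp; ring
  obtain ⟨c0, hc0⟩ : ∃ c0 : E3, c0 = !₂[m0 - t * n0, m1 - t * n1, m2 - t * n2] := ⟨_, rfl⟩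
  have c00 : c0 0 = m0 - t * n0 := by rw [hc0]; rfl
  have c01 : c0 1 = m1 - t * n1 := by rw [hc0]; rfl
  have c02 : c0 2 = m2 - t * n2 := by rw [hc0]; rfl
  obtain ⟨n, hnn⟩ : ∃ n : E3, n = !₂[n0, n1, n2] := ⟨_, rfl⟩
  have nn0 : n 0 = n0 := by rw [hnn]; rfl
  have nn1 : n 1 = n1 := by rw [hnn]; rfl
  have nn2 : n 2 = n2 := by rw [hnn]; rfl
  obtain ⟨ρ, hρ⟩ : ∃ ρ, ρ = R - t ^ 2 * (n0 ^ 2 + n1 ^ 2 + n2 ^ 2) := ⟨_, rfl⟩
  have key1 : ∀ z : E3, inner ℝ n (z - c0) = n0 * z 0 + n1 * z 1 + n2 * z 2 + h := by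
    intro z
    rw [inner_coord]
    simp only [PiLp.sub_apply, nn0, nn1, nn2, c00, c01, c02]
    linear_combination ht2
  have key2 : ∀ z : E3, a' * linF a b0 b1 b2 c z - a * linF a' b0' b1' b2' c' z
      = n0 * z 0 + n1 * z 1 + n2 * z 2 + h := by
    intro z
    simp only [linF]
    rw [hn0, hn1, hn2, hh]; ring
  have key3 : ∀ z : E3, n0 * z 0 + n1 * z 1 + n2 * z 2 + h = 0 →
      a' * (dist z c0 ^ 2 - ρ) = linF a' b0' b1' b2' c' z := by
    intro z hz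
    rw [dist_sq, c00, c01, c02, hρ]
    simp only [linF]
    rw [e0, e1, e2, e3]
    linear_combination (2 * a' * t) * hz + (2 * a' * t) * ht2
  have hmem : ∀ z : E3, (linF a b0 b1 b2 c z = 0 ∧ linF a' b0' b1' b2' c' z = 0) ↔
      (dist z c0 ^ 2 = ρ ∧ inner ℝ n (z - c0) = 0) := by
    intro z
    rw [key1]
    constructor
    · rintro ⟨h1, h2⟩
      have h3 : n0 * z 0 + n1 * z 1 + n2 * z 2 + h = 0 := by rw [← key2, h1, h2]; ring
      refine ⟨?_, h3⟩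
      have h4 := key3 z h3
      rw [h2] at h4
      have := (mul_eq_zero.mp h4).resolve_left ha'
      linarith
    · rintro ⟨h1, h3⟩
      have h4 := key3 z h3
      rw [h1, sub_self, mul_zero] at h4
      have h5 := key2 z
      rw [h3, ← h4, mul_zero, sub_zero] at h5
      exact ⟨(mul_eq_zero.mp h5).resolve_left ha', h4.symm⟩
  have hx := (hmem x).mp ⟨hx1, hx2⟩
  have hy := (hmem y).mp ⟨hy1, hy2⟩
  have hρpos : 0 < ρ := by
    have h0 : 0 ≤ ρ := by rw [← hx.1]; positivity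
    rcases h0.lt_or_eq with h1 | h1
    · exact h1
    · exfalso
      apply hxy
      have hx' : dist x c0 = 0 := by
        apply pow_eq_zero_iff (two_ne_zero) |>.mp; rw [hx.1, h1]
      have hy' : dist y c0 = 0 := by
        apply pow_eq_zero_iff (two_ne_zero) |>.mp; rw [hy.1, h1]
      rw [dist_eq_zero] at hx' hy'
      rw [hx', hy']
  refine ⟨c0, n, √ρ, ?_, Real.sqrt_pos.mpr hρpos, ?_⟩
  · intro h0
    rw [h0] at nn0 nn1 nn2
    simp only [PiLp.zero_apply] at nn0 nn1 nn2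
    rw [← nn0, ← nn1, ← nn2] at hnpos
    simp at hnpos
  · ext z
    simp only [Set.mem_ofPred_eq]
    rw [hmem z]
    constructor
    · rintro ⟨h1, h2⟩
      refine ⟨?_, h2⟩
      rw [← h1, Real.sqrt_sq dist_nonneg]
    · rintro ⟨h1, h2⟩
      refine ⟨?_, h2⟩
      rw [h1, Real.sq_sqrt hρpos.le]

theorem finrank_orth (n : E3) (hn : n ≠ 0) : Module.finrank ℝ (ℝ ∙ n)ᗮ = 2 := by
  have h1 := Submodule.finrank_add_finrank_orthogonal (ℝ ∙ n)
  rw [finrank_span_singleton hn, finrank_euclideanSpace, Fintype.card_fin] at h1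
  omega

theorem circle_connected {C : Set E3} (hC : IsCircle C) : IsConnected C := by
  obtain ⟨c, n, r, hn, hr, rfl⟩ := hC
  have hrank : 1 < Module.rank ℝ (ℝ ∙ n)ᗮ := by
    rw [← Module.finrank_eq_rank, finrank_orth n hn]
    norm_num
  have h1 := isConnected_sphere hrank (0 : (ℝ ∙ n)ᗮ) hr.le
  have h2 := h1.image (fun k : (ℝ ∙ n)ᗮ => c + (k : E3)) (by fun_prop)
  convert h2 using 1
  ext x
  simp only [Set.mem_ofPred_eq, Set.mem_image, mem_sphere_iff_norm, sub_zero]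
  constructor
  · rintro ⟨hx1, hx2⟩
    refine ⟨⟨x - c, Submodule.mem_orthogonal_singleton_iff_inner_right.mpr hx2⟩, ?_, ?_⟩
    · rw [Submodule.coe_norm]; rw [← hx1, dist_eq_norm]
    · simp
  · rintro ⟨k, hk1, rfl⟩
    refine ⟨?_, ?_⟩
    · rw [dist_eq_norm, add_sub_cancel_left]; exact hk1
    · rw [add_sub_cancel_left]
      exact Submodule.mem_orthogonal_singleton_iff_inner_right.mp k.2

theorem circle_nontrivial {C : Set E3} (hC : IsCircle C) : C.Nontrivial := by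
  obtain ⟨c, n, r, hn, hr, rfl⟩ := hC
  obtain ⟨u, hu, hmu⟩ := exists_orth n
  refine ⟨c + r • u, ⟨by simp [norm_smul, hu, abs_of_pos hr], by simp [inner_smul_right, hmu]⟩,
    c - r • u, ⟨by simp [dist_eq_norm, norm_smul, hu, abs_of_pos hr], by simp [inner_smul_right, hmu]⟩, ?_⟩
  intro h
  have h1 : (2 * r) • u = 0 := by
    have : c + r • u - (c - r • u) = 0 := sub_eq_zero.mpr h
    rw [← this, two_mul, add_smul]; abel
  have h2 : ‖(2 * r) • u‖ = 2 * r := by rw [norm_smul, hu, mul_one, Real.norm_of_nonneg (by positivity)]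
  rw [h1, norm_zero] at h2
  linarith

theorem circle_arc {C : Set E3} (hC : IsCircle C) : IsArc C :=
  ⟨circle_connected hC, circle_nontrivial hC, C, hC, subset_rfl⟩

end H537R3.Chess
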