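import Mathlib

/-! Definitions for the curved chessboard problem. -/

namespace H537R3.Chess

/-- Euclidean three-space. -/
abbrev E3 := EuclideanSpace ℝ (Fin 3)

/-- A circle in `ℝ³`: the points at distance `r > 0` from `c` in the plane through `c`
orthogonal to `n ≠ 0`. -/
def IsCircle (C : Set E3) : Prop :=
  ∃ (c n : E3) (r : ℝ), n ≠ 0 ∧ 0 < r ∧ C = {x | dist x c = r ∧ inner ℝ n (x - c) = 0}

/-- A circular arc: a connected subset of a circle with more than one point. -/
def IsArc (α : Set E3) : Prop :=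
  IsConnected α ∧ α.Nontrivial ∧ ∃ C, IsCircle C ∧ α ⊆ C

/-- An `n × n` grid of arcs: two collections of `n + 1` pairwise disjoint arcs, every arc of the
first meeting every arc of the second. -/
structure IsGrid (n : ℕ) (A B : Fin (n + 1) → Set E3) : Prop where
  arcA : ∀ i, IsArc (A i)
  arcB : ∀ i, IsArc (B i)
  disjA : ∀ i j, i ≠ j → Disjoint (A i) (A j)
  disjB : ∀ i j, i ≠ j → Disjoint (B i) (B j)
  meets : ∀ i j, (A i ∩ B j).Nonempty

/-- The cross product. -/
def cr (p q : E3) : E3 :=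
  !₂[p 1 * q 2 - p 2 * q 1, p 2 * q 0 - p 0 * q 2, p 0 * q 1 - p 1 * q 0]

/-- Type (E): Euclidean translational sets `{p + q : p ∈ α, q ∈ β}`. -/
def TypeE (T : Set E3) : Prop :=
  ∃ α β : Set E3, IsCircle α ∧ IsCircle β ∧ T = {x | ∃ p ∈ α, ∃ q ∈ β, x = p + q}

/-- Type (C): Clifford translational sets `{2 (p × q) / |p + q|² : p ∈ α, q ∈ β, p + q ≠ 0}`,
with `α`, `β` circles in the unit sphere. -/
def TypeC (T : Set E3) : Prop :=
  ∃ α β : Set E3, IsCircle α ∧ IsCircle β ∧ (∀ p ∈ α, ‖p‖ = 1) ∧ (∀ q ∈ β, ‖q‖ = 1) ∧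
    T = {x | ∃ p ∈ α, ∃ q ∈ β, p + q ≠ 0 ∧ x = (2 / ‖p + q‖ ^ 2) • cr p q}

/-- Type (D): Darboux cyclides `{Q(x, y, z, x² + y² + z²) = 0}`, `Q` of degree 1 or 2 (with
`Q(x, y, z, x² + y² + z²)` not identically zero, i.e. the set is not all of `ℝ³`). -/
def TypeD (T : Set E3) : Prop :=
  ∃ Q : MvPolynomial (Fin 4) ℝ, 1 ≤ Q.totalDegree ∧ Q.totalDegree ≤ 2 ∧
    T = {x | MvPolynomial.eval ![x 0, x 1, x 2, x 0 ^ 2 + x 1 ^ 2 + x 2 ^ 2] Q = 0} ∧
    T ≠ Set.univ

/-- Apply successively the inversions in the spheres with the centres and radii in the list. -/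
noncomputable def applyInv : List (E3 × ℝ) → E3 → E3
  | [], x => x
  | (c, R) :: l, x => applyInv l (EuclideanGeometry.inversion c R x)

/-- All the successive inversions of the list are defined when applied to `x` (no centre is hit). -/
def InvDefined : List (E3 × ℝ) → E3 → Prop
  | [], _ => True
  | (c, R) :: l, x => x ≠ c ∧ InvDefined l (EuclideanGeometry.inversion c R x)

end H537R3.Chess
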