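import Pool.Agent.H537R3.Chess.Points

namespace H537R3.Chess

theorem pb {w α t ε T : ℝ} (h : |w - α| ≤ ε) (ht : |t| ≤ T) : α * t - ε * T ≤ w * t ∧ w * t ≤ α * t + ε * T := by
  have h1 : |(w - α) * t| ≤ ε * T := by
    rw [abs_mul]; exact mul_le_mul h ht (abs_nonneg _) ((abs_nonneg _).trans h)
  obtain ⟨h2, h3⟩ := abs_le.mp h1
  constructor <;> linarith

theorem excl_0_0_1 {w : ℕ → ℝ} (a0 : |w 0 - (323083/1000000)| ≤ 1/1000000) (a1 : |w 1 - (-230971/1000000)| ≤ 1/1000000) (a2 : |w 2 - (-265626/1000000)| ≤ 1/1000000)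
    (a3 : |w 3 - (-102968/1000000)| ≤ 1/1000000) (a4 : |w 4 - (207606/1000000)| ≤ 1/1000000) (a5 : |w 5 - (137905/1000000)| ≤ 1/1000000)
    {u1 u2 u3 u4 v1 v2 v3 v4 : ℝ} (hq : u1 ^ 2 + 3 * u2 ^ 2 + u3 ^ 2 + 3 * u4 ^ 2 = 1)
    (b1 : |u1| ≤ 1) (b3 : |u3| ≤ 1) (c1 : |v1| ≤ 2) (c3 : |v3| ≤ 2)
    (e1 : v1 = (2 * u1 + 0 * u2) / 2) (e2 : v2 = (0 * u1 + 2 * u2) / 2)
    (e3 : v3 = (-1 * u3 + 3 * u4) / 2) (e4 : v4 = (-1 * u3 + -1 * u4) / 2)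
    (h1 : u2 = w 0 * u1 + w 1 * u3 + w 2) (h2 : u4 = w 3 * u1 + w 4 * u3 + w 5)
    (h3 : v2 = w 0 * v1 + w 1 * v3 + w 2) (h4 : v4 = w 3 * v1 + w 4 * v3 + w 5) : False := by
  obtain ⟨p1, p2⟩ := pb a0 b1
  obtain ⟨p3, p4⟩ := pb a1 b3
  obtain ⟨p5, p6⟩ := pb a3 b1
  obtain ⟨p7, p8⟩ := pb a4 b3
  obtain ⟨q1, q2⟩ := pb a0 c1
  obtain ⟨q3, q4⟩ := pb a1 c3
  obtain ⟨q5, q6⟩ := pb a3 c1
  obtain ⟨q7, q8⟩ := pb a4 c3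
  obtain ⟨r1, r2⟩ := abs_le.mp a2
  obtain ⟨r3, r4⟩ := abs_le.mp a5
  clear a0 a1 a2 a3 a4 a5 b1 b3 c1 c3
  have s0 : u1 ≤ (13393/10000) + (1/1000) := by linarith
  have t0 : (13393/10000) - (1/1000) ≤ u1 := by linarith
  have s1 : u2 ≤ (1671/10000) + (1/1000) := by linarith
  have t1 : (1671/10000) - (1/1000) ≤ u2 := by linarith
  have s2 : u3 ≤ (0/10000) + (1/1000) := by linarith
  have t2 : (0/10000) - (1/1000) ≤ u3 := by linarith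
  have s3 : u4 ≤ (0/10000) + (1/1000) := by linarith
  have t3 : (0/10000) - (1/1000) ≤ u4 := by linarith
  clear h1 h2 h3 h4 p1 p2 p3 p4 p5 p6 p7 p8 q1 q2 q3 q4 q5 q6 q7 q8 r1 r2 r3 r4 e1 e2 e3 e4
  have k0 := sq_nonneg (u1 - (13393/10000))
  have k1 := sq_nonneg (u2 - (1671/10000))
  have k2 := sq_nonneg (u3 - (0/10000))
  have k3 := sq_nonneg (u4 - (0/10000))
  linarith

theorem excl_0_0_2 {w : ℕ → ℝ} (a0 : |w 0 - (323083/1000000)| ≤ 1/1000000) (a1 : |w 1 - (-230971/1000000)| ≤ 1/1000000) (a2 : |w 2 - (-265626/1000000)| ≤ 1/1000000)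
    (a3 : |w 3 - (-102968/1000000)| ≤ 1/1000000) (a4 : |w 4 - (207606/1000000)| ≤ 1/1000000) (a5 : |w 5 - (137905/1000000)| ≤ 1/1000000)
    {u1 u2 u3 u4 v1 v2 v3 v4 : ℝ} (hq : u1 ^ 2 + 3 * u2 ^ 2 + u3 ^ 2 + 3 * u4 ^ 2 = 1)
    (b1 : |u1| ≤ 1) (b3 : |u3| ≤ 1) (c1 : |v1| ≤ 2) (c3 : |v3| ≤ 2)
    (e1 : v1 = (2 * u1 + 0 * u2) / 2) (e2 : v2 = (0 * u1 + 2 * u2) / 2)
    (e3 : v3 = (-1 * u3 + -3 * u4) / 2) (e4 : v4 = (1 * u3 + -1 * u4) / 2)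
    (h1 : u2 = w 0 * u1 + w 1 * u3 + w 2) (h2 : u4 = w 3 * u1 + w 4 * u3 + w 5)
    (h3 : v2 = w 0 * v1 + w 1 * v3 + w 2) (h4 : v4 = w 3 * v1 + w 4 * v3 + w 5) : False := by
  obtain ⟨p1, p2⟩ := pb a0 b1
  obtain ⟨p3, p4⟩ := pb a1 b3
  obtain ⟨p5, p6⟩ := pb a3 b1
  obtain ⟨p7, p8⟩ := pb a4 b3
  obtain ⟨q1, q2⟩ := pb a0 c1
  obtain ⟨q3, q4⟩ := pb a1 c3
  obtain ⟨q5, q6⟩ := pb a3 c1
  obtain ⟨q7, q8⟩ := pb a4 c3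
  obtain ⟨r1, r2⟩ := abs_le.mp a2
  obtain ⟨r3, r4⟩ := abs_le.mp a5
  clear a0 a1 a2 a3 a4 a5 b1 b3 c1 c3
  have s0 : u1 ≤ (13393/10000) + (1/1000) := by linarith
  have t0 : (13393/10000) - (1/1000) ≤ u1 := by linarith
  have s1 : u2 ≤ (1671/10000) + (1/1000) := by linarith
  have t1 : (1671/10000) - (1/1000) ≤ u2 := by linarith
  have s2 : u3 ≤ (0/10000) + (1/1000) := by linarith
  have t2 : (0/10000) - (1/1000) ≤ u3 := by linarith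
  have s3 : u4 ≤ (0/10000) + (1/1000) := by linarith
  have t3 : (0/10000) - (1/1000) ≤ u4 := by linarith
  clear h1 h2 h3 h4 p1 p2 p3 p4 p5 p6 p7 p8 q1 q2 q3 q4 q5 q6 q7 q8 r1 r2 r3 r4 e1 e2 e3 e4
  have k0 := sq_nonneg (u1 - (13393/10000))
  have k1 := sq_nonneg (u2 - (1671/10000))
  have k2 := sq_nonneg (u3 - (0/10000))
  have k3 := sq_nonneg (u4 - (0/10000))
  linarith

theorem excl_0_1_0 {w : ℕ → ℝ} (a0 : |w 0 - (323083/1000000)| ≤ 1/1000000) (a1 : |w 1 - (-230971/1000000)| ≤ 1/1000000) (a2 : |w 2 - (-265626/1000000)| ≤ 1/1000000)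
    (a3 : |w 3 - (-102968/1000000)| ≤ 1/1000000) (a4 : |w 4 - (207606/1000000)| ≤ 1/1000000) (a5 : |w 5 - (137905/1000000)| ≤ 1/1000000)
    {u1 u2 u3 u4 v1 v2 v3 v4 : ℝ} (hq : u1 ^ 2 + 3 * u2 ^ 2 + u3 ^ 2 + 3 * u4 ^ 2 = 1)
    (b1 : |u1| ≤ 1) (b3 : |u3| ≤ 1) (c1 : |v1| ≤ 2) (c3 : |v3| ≤ 2)
    (e1 : v1 = (-1 * u1 + 3 * u2) / 2) (e2 : v2 = (-1 * u1 + -1 * u2) / 2)
    (e3 : v3 = (2 * u3 + 0 * u4) / 2) (e4 : v4 = (0 * u3 + 2 * u4) / 2)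
    (h1 : u2 = w 0 * u1 + w 1 * u3 + w 2) (h2 : u4 = w 3 * u1 + w 4 * u3 + w 5)
    (h3 : v2 = w 0 * v1 + w 1 * v3 + w 2) (h4 : v4 = w 3 * v1 + w 4 * v3 + w 5) : False := by
  obtain ⟨p1, p2⟩ := pb a0 b1
  obtain ⟨p3, p4⟩ := pb a1 b3
  obtain ⟨p5, p6⟩ := pb a3 b1
  obtain ⟨p7, p8⟩ := pb a4 b3
  obtain ⟨q1, q2⟩ := pb a0 c1
  obtain ⟨q3, q4⟩ := pb a1 c3
  obtain ⟨q5, q6⟩ := pb a3 c1
  obtain ⟨q7, q8⟩ := pb a4 c3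
  obtain ⟨r1, r2⟩ := abs_le.mp a2
  obtain ⟨r3, r4⟩ := abs_le.mp a5
  clear a0 a1 a2 a3 a4 a5 b1 b3 c1 c3
  have s0 : u1 ≤ (0/10000) + (1/1000) := by linarith
  have t0 : (0/10000) - (1/1000) ≤ u1 := by linarith
  have s1 : u2 ≤ (0/10000) + (1/1000) := by linarith
  have t1 : (0/10000) - (1/1000) ≤ u2 := by linarith
  have s2 : u3 ≤ (-11500/10000) + (1/1000) := by linarith
  have t2 : (-11500/10000) - (1/1000) ≤ u3 := by linarith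
  have s3 : u4 ≤ (-1008/10000) + (1/1000) := by linarith
  have t3 : (-1008/10000) - (1/1000) ≤ u4 := by linarith
  clear h1 h2 h3 h4 p1 p2 p3 p4 p5 p6 p7 p8 q1 q2 q3 q4 q5 q6 q7 q8 r1 r2 r3 r4 e1 e2 e3 e4
  have k0 := sq_nonneg (u1 - (0/10000))
  have k1 := sq_nonneg (u2 - (0/10000))
  have k2 := sq_nonneg (u3 - (-11500/10000))
  have k3 := sq_nonneg (u4 - (-1008/10000))
  linarith

theorem excl_0_1_1 {w : ℕ → ℝ} (a0 : |w 0 - (323083/1000000)| ≤ 1/1000000) (a1 : |w 1 - (-230971/1000000)| ≤ 1/1000000) (a2 : |w 2 - (-265626/1000000)| ≤ 1/1000000)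
    (a3 : |w 3 - (-102968/1000000)| ≤ 1/1000000) (a4 : |w 4 - (207606/1000000)| ≤ 1/1000000) (a5 : |w 5 - (137905/1000000)| ≤ 1/1000000)
    {u1 u2 u3 u4 v1 v2 v3 v4 : ℝ} (hq : u1 ^ 2 + 3 * u2 ^ 2 + u3 ^ 2 + 3 * u4 ^ 2 = 1)
    (b1 : |u1| ≤ 1) (b3 : |u3| ≤ 1) (c1 : |v1| ≤ 2) (c3 : |v3| ≤ 2)
    (e1 : v1 = (-1 * u1 + 3 * u2) / 2) (e2 : v2 = (-1 * u1 + -1 * u2) / 2)
    (e3 : v3 = (-1 * u3 + 3 * u4) / 2) (e4 : v4 = (-1 * u3 + -1 * u4) / 2)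
    (h1 : u2 = w 0 * u1 + w 1 * u3 + w 2) (h2 : u4 = w 3 * u1 + w 4 * u3 + w 5)
    (h3 : v2 = w 0 * v1 + w 1 * v3 + w 2) (h4 : v4 = w 3 * v1 + w 4 * v3 + w 5) : False := by
  obtain ⟨p1, p2⟩ := pb a0 b1
  obtain ⟨p3, p4⟩ := pb a1 b3
  obtain ⟨p5, p6⟩ := pb a3 b1
  obtain ⟨p7, p8⟩ := pb a4 b3
  obtain ⟨q1, q2⟩ := pb a0 c1
  obtain ⟨q3, q4⟩ := pb a1 c3
  obtain ⟨q5, q6⟩ := pb a3 c1
  obtain ⟨q7, q8⟩ := pb a4 c3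
  obtain ⟨r1, r2⟩ := abs_le.mp a2
  obtain ⟨r3, r4⟩ := abs_le.mp a5
  clear a0 a1 a2 a3 a4 a5 b1 b3 c1 c3
  have s0 : u1 ≤ (7283/10000) + (1/1000) := by linarith
  have t0 : (7283/10000) - (1/1000) ≤ u1 := by linarith
  have s1 : u2 ≤ (586/10000) + (1/1000) := by linarith
  have t1 : (586/10000) - (1/1000) ≤ u2 := by linarith
  have s2 : u3 ≤ (-3850/10000) + (1/1000) := by linarith
  have t2 : (-3850/10000) - (1/1000) ≤ u3 := by linarith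
  have s3 : u4 ≤ (-170/10000) + (1/1000) := by linarith
  have t3 : (-170/10000) - (1/1000) ≤ u4 := by linarith
  clear h1 h2 h3 h4 p1 p2 p3 p4 p5 p6 p7 p8 q1 q2 q3 q4 q5 q6 q7 q8 r1 r2 r3 r4 e1 e2 e3 e4
  have k0 : (u1 - (7283/10000)) ^ 2 ≤ (1/1000) ^ 2 := sq_le_sq' (by linarith) (by linarith)
  have k1 : (u2 - (586/10000)) ^ 2 ≤ (1/1000) ^ 2 := sq_le_sq' (by linarith) (by linarith)
  have k2 : (u3 - (-3850/10000)) ^ 2 ≤ (1/1000) ^ 2 := sq_le_sq' (by linarith) (by linarith)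
  have k3 : (u4 - (-170/10000)) ^ 2 ≤ (1/1000) ^ 2 := sq_le_sq' (by linarith) (by linarith)
  linarith

theorem excl_0_1_2 {w : ℕ → ℝ} (a0 : |w 0 - (323083/1000000)| ≤ 1/1000000) (a1 : |w 1 - (-230971/1000000)| ≤ 1/1000000) (a2 : |w 2 - (-265626/1000000)| ≤ 1/1000000)
    (a3 : |w 3 - (-102968/1000000)| ≤ 1/1000000) (a4 : |w 4 - (207606/1000000)| ≤ 1/1000000) (a5 : |w 5 - (137905/1000000)| ≤ 1/1000000)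
    {u1 u2 u3 u4 v1 v2 v3 v4 : ℝ} (hq : u1 ^ 2 + 3 * u2 ^ 2 + u3 ^ 2 + 3 * u4 ^ 2 = 1)
    (b1 : |u1| ≤ 1) (b3 : |u3| ≤ 1) (c1 : |v1| ≤ 2) (c3 : |v3| ≤ 2)
    (e1 : v1 = (-1 * u1 + 3 * u2) / 2) (e2 : v2 = (-1 * u1 + -1 * u2) / 2)
    (e3 : v3 = (-1 * u3 + -3 * u4) / 2) (e4 : v4 = (1 * u3 + -1 * u4) / 2)
    (h1 : u2 = w 0 * u1 + w 1 * u3 + w 2) (h2 : u4 = w 3 * u1 + w 4 * u3 + w 5)
    (h3 : v2 = w 0 * v1 + w 1 * v3 + w 2) (h4 : v4 = w 3 * v1 + w 4 * v3 + w 5) : False := by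
  obtain ⟨p1, p2⟩ := pb a0 b1
  obtain ⟨p3, p4⟩ := pb a1 b3
  obtain ⟨p5, p6⟩ := pb a3 b1
  obtain ⟨p7, p8⟩ := pb a4 b3
  obtain ⟨q1, q2⟩ := pb a0 c1
  obtain ⟨q3, q4⟩ := pb a1 c3
  obtain ⟨q5, q6⟩ := pb a3 c1
  obtain ⟨q7, q8⟩ := pb a4 c3
  obtain ⟨r1, r2⟩ := abs_le.mp a2
  obtain ⟨r3, r4⟩ := abs_le.mp a5
  clear a0 a1 a2 a3 a4 a5 b1 b3 c1 c3
  have s0 : u1 ≤ (7953/10000) + (1/1000) := by linarith
  have t0 : (7953/10000) - (1/1000) ≤ u1 := by linarith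
  have s1 : u2 ≤ (-920/10000) + (1/1000) := by linarith
  have t1 : (-920/10000) - (1/1000) ≤ u2 := by linarith
  have s2 : u3 ≤ (3606/10000) + (1/1000) := by linarith
  have t2 : (3606/10000) - (1/1000) ≤ u3 := by linarith
  have s3 : u4 ≤ (1309/10000) + (1/1000) := by linarith
  have t3 : (1309/10000) - (1/1000) ≤ u4 := by linarith
  clear h1 h2 h3 h4 p1 p2 p3 p4 p5 p6 p7 p8 q1 q2 q3 q4 q5 q6 q7 q8 r1 r2 r3 r4 e1 e2 e3 e4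
  have k0 : (u1 - (7953/10000)) ^ 2 ≤ (1/1000) ^ 2 := sq_le_sq' (by linarith) (by linarith)
  have k1 : (u2 - (-920/10000)) ^ 2 ≤ (1/1000) ^ 2 := sq_le_sq' (by linarith) (by linarith)
  have k2 : (u3 - (3606/10000)) ^ 2 ≤ (1/1000) ^ 2 := sq_le_sq' (by linarith) (by linarith)
  have k3 : (u4 - (1309/10000)) ^ 2 ≤ (1/1000) ^ 2 := sq_le_sq' (by linarith) (by linarith)
  linarith

theorem excl_0_2_0 {w : ℕ → ℝ} (a0 : |w 0 - (323083/1000000)| ≤ 1/1000000) (a1 : |w 1 - (-230971/1000000)| ≤ 1/1000000) (a2 : |w 2 - (-265626/1000000)| ≤ 1/1000000)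
    (a3 : |w 3 - (-102968/1000000)| ≤ 1/1000000) (a4 : |w 4 - (207606/1000000)| ≤ 1/1000000) (a5 : |w 5 - (137905/1000000)| ≤ 1/1000000)
    {u1 u2 u3 u4 v1 v2 v3 v4 : ℝ} (hq : u1 ^ 2 + 3 * u2 ^ 2 + u3 ^ 2 + 3 * u4 ^ 2 = 1)
    (b1 : |u1| ≤ 1) (b3 : |u3| ≤ 1) (c1 : |v1| ≤ 2) (c3 : |v3| ≤ 2)
    (e1 : v1 = (-1 * u1 + -3 * u2) / 2) (e2 : v2 = (1 * u1 + -1 * u2) / 2)
    (e3 : v3 = (2 * u3 + 0 * u4) / 2) (e4 : v4 = (0 * u3 + 2 * u4) / 2)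
    (h1 : u2 = w 0 * u1 + w 1 * u3 + w 2) (h2 : u4 = w 3 * u1 + w 4 * u3 + w 5)
    (h3 : v2 = w 0 * v1 + w 1 * v3 + w 2) (h4 : v4 = w 3 * v1 + w 4 * v3 + w 5) : False := by
  obtain ⟨p1, p2⟩ := pb a0 b1
  obtain ⟨p3, p4⟩ := pb a1 b3
  obtain ⟨p5, p6⟩ := pb a3 b1
  obtain ⟨p7, p8⟩ := pb a4 b3
  obtain ⟨q1, q2⟩ := pb a0 c1
  obtain ⟨q3, q4⟩ := pb a1 c3
  obtain ⟨q5, q6⟩ := pb a3 c1
  obtain ⟨q7, q8⟩ := pb a4 c3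
  obtain ⟨r1, r2⟩ := abs_le.mp a2
  obtain ⟨r3, r4⟩ := abs_le.mp a5
  clear a0 a1 a2 a3 a4 a5 b1 b3 c1 c3
  have s0 : u1 ≤ (0/10000) + (1/1000) := by linarith
  have t0 : (0/10000) - (1/1000) ≤ u1 := by linarith
  have s1 : u2 ≤ (0/10000) + (1/1000) := by linarith
  have t1 : (0/10000) - (1/1000) ≤ u2 := by linarith
  have s2 : u3 ≤ (-11500/10000) + (1/1000) := by linarith
  have t2 : (-11500/10000) - (1/1000) ≤ u3 := by linarith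
  have s3 : u4 ≤ (-1008/10000) + (1/1000) := by linarith
  have t3 : (-1008/10000) - (1/1000) ≤ u4 := by linarith
  clear h1 h2 h3 h4 p1 p2 p3 p4 p5 p6 p7 p8 q1 q2 q3 q4 q5 q6 q7 q8 r1 r2 r3 r4 e1 e2 e3 e4
  have k0 := sq_nonneg (u1 - (0/10000))
  have k1 := sq_nonneg (u2 - (0/10000))
  have k2 := sq_nonneg (u3 - (-11500/10000))
  have k3 := sq_nonneg (u4 - (-1008/10000))
  linarith

theorem excl_0_2_1 {w : ℕ → ℝ} (a0 : |w 0 - (323083/1000000)| ≤ 1/1000000) (a1 : |w 1 - (-230971/1000000)| ≤ 1/1000000) (a2 : |w 2 - (-265626/1000000)| ≤ 1/1000000)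
    (a3 : |w 3 - (-102968/1000000)| ≤ 1/1000000) (a4 : |w 4 - (207606/1000000)| ≤ 1/1000000) (a5 : |w 5 - (137905/1000000)| ≤ 1/1000000)
    {u1 u2 u3 u4 v1 v2 v3 v4 : ℝ} (hq : u1 ^ 2 + 3 * u2 ^ 2 + u3 ^ 2 + 3 * u4 ^ 2 = 1)
    (b1 : |u1| ≤ 1) (b3 : |u3| ≤ 1) (c1 : |v1| ≤ 2) (c3 : |v3| ≤ 2)
    (e1 : v1 = (-1 * u1 + -3 * u2) / 2) (e2 : v2 = (1 * u1 + -1 * u2) / 2)
    (e3 : v3 = (-1 * u3 + 3 * u4) / 2) (e4 : v4 = (-1 * u3 + -1 * u4) / 2)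
    (h1 : u2 = w 0 * u1 + w 1 * u3 + w 2) (h2 : u4 = w 3 * u1 + w 4 * u3 + w 5)
    (h3 : v2 = w 0 * v1 + w 1 * v3 + w 2) (h4 : v4 = w 3 * v1 + w 4 * v3 + w 5) : False := by
  obtain ⟨p1, p2⟩ := pb a0 b1
  obtain ⟨p3, p4⟩ := pb a1 b3
  obtain ⟨p5, p6⟩ := pb a3 b1
  obtain ⟨p7, p8⟩ := pb a4 b3
  obtain ⟨q1, q2⟩ := pb a0 c1
  obtain ⟨q3, q4⟩ := pb a1 c3
  obtain ⟨q5, q6⟩ := pb a3 c1
  obtain ⟨q7, q8⟩ := pb a4 c3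
  obtain ⟨r1, r2⟩ := abs_le.mp a2
  obtain ⟨r3, r4⟩ := abs_le.mp a5
  clear a0 a1 a2 a3 a4 a5 b1 b3 c1 c3
  have s0 : u1 ≤ (-5356/10000) + (1/1000) := by linarith
  have t0 : (-5356/10000) - (1/1000) ≤ u1 := by linarith
  have s1 : u2 ≤ (-3517/10000) + (1/1000) := by linarith
  have t1 : (-3517/10000) - (1/1000) ≤ u2 := by linarith
  have s2 : u3 ≤ (-3766/10000) + (1/1000) := by linarith
  have t2 : (-3766/10000) - (1/1000) ≤ u3 := by linarith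
  have s3 : u4 ≤ (1149/10000) + (1/1000) := by linarith
  have t3 : (1149/10000) - (1/1000) ≤ u4 := by linarith
  clear h1 h2 h3 h4 p1 p2 p3 p4 p5 p6 p7 p8 q1 q2 q3 q4 q5 q6 q7 q8 r1 r2 r3 r4 e1 e2 e3 e4
  have k0 : (u1 - (-5356/10000)) ^ 2 ≤ (1/1000) ^ 2 := sq_le_sq' (by linarith) (by linarith)
  have k1 : (u2 - (-3517/10000)) ^ 2 ≤ (1/1000) ^ 2 := sq_le_sq' (by linarith) (by linarith)
  have k2 : (u3 - (-3766/10000)) ^ 2 ≤ (1/1000) ^ 2 := sq_le_sq' (by linarith) (by linarith)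
  have k3 : (u4 - (1149/10000)) ^ 2 ≤ (1/1000) ^ 2 := sq_le_sq' (by linarith) (by linarith)
  linarith

theorem excl_0_2_2 {w : ℕ → ℝ} (a0 : |w 0 - (323083/1000000)| ≤ 1/1000000) (a1 : |w 1 - (-230971/1000000)| ≤ 1/1000000) (a2 : |w 2 - (-265626/1000000)| ≤ 1/1000000)
    (a3 : |w 3 - (-102968/1000000)| ≤ 1/1000000) (a4 : |w 4 - (207606/1000000)| ≤ 1/1000000) (a5 : |w 5 - (137905/1000000)| ≤ 1/1000000)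
    {u1 u2 u3 u4 v1 v2 v3 v4 : ℝ} (hq : u1 ^ 2 + 3 * u2 ^ 2 + u3 ^ 2 + 3 * u4 ^ 2 = 1)
    (b1 : |u1| ≤ 1) (b3 : |u3| ≤ 1) (c1 : |v1| ≤ 2) (c3 : |v3| ≤ 2)
    (e1 : v1 = (-1 * u1 + -3 * u2) / 2) (e2 : v2 = (1 * u1 + -1 * u2) / 2)
    (e3 : v3 = (-1 * u3 + -3 * u4) / 2) (e4 : v4 = (1 * u3 + -1 * u4) / 2)
    (h1 : u2 = w 0 * u1 + w 1 * u3 + w 2) (h2 : u4 = w 3 * u1 + w 4 * u3 + w 5)
    (h3 : v2 = w 0 * v1 + w 1 * v3 + w 2) (h4 : v4 = w 3 * v1 + w 4 * v3 + w 5) : False := by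
  obtain ⟨p1, p2⟩ := pb a0 b1
  obtain ⟨p3, p4⟩ := pb a1 b3
  obtain ⟨p5, p6⟩ := pb a3 b1
  obtain ⟨p7, p8⟩ := pb a4 b3
  obtain ⟨q1, q2⟩ := pb a0 c1
  obtain ⟨q3, q4⟩ := pb a1 c3
  obtain ⟨q5, q6⟩ := pb a3 c1
  obtain ⟨q7, q8⟩ := pb a4 c3
  obtain ⟨r1, r2⟩ := abs_le.mp a2
  obtain ⟨r3, r4⟩ := abs_le.mp a5
  clear a0 a1 a2 a3 a4 a5 b1 b3 c1 c3
  have s0 : u1 ≤ (-2762/10000) + (1/1000) := by linarith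
  have t0 : (-2762/10000) - (1/1000) ≤ u1 := by linarith
  have s1 : u2 ≤ (-3934/10000) + (1/1000) := by linarith
  have t1 : (-3934/10000) - (1/1000) ≤ u2 := by linarith
  have s2 : u3 ≤ (1670/10000) + (1/1000) := by linarith
  have t2 : (1670/10000) - (1/1000) ≤ u3 := by linarith
  have s3 : u4 ≤ (2010/10000) + (1/1000) := by linarith
  have t3 : (2010/10000) - (1/1000) ≤ u4 := by linarith
  clear h1 h2 h3 h4 p1 p2 p3 p4 p5 p6 p7 p8 q1 q2 q3 q4 q5 q6 q7 q8 r1 r2 r3 r4 e1 e2 e3 e4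
  have k0 : (u1 - (-2762/10000)) ^ 2 ≤ (1/1000) ^ 2 := sq_le_sq' (by linarith) (by linarith)
  have k1 : (u2 - (-3934/10000)) ^ 2 ≤ (1/1000) ^ 2 := sq_le_sq' (by linarith) (by linarith)
  have k2 : (u3 - (1670/10000)) ^ 2 ≤ (1/1000) ^ 2 := sq_le_sq' (by linarith) (by linarith)
  have k3 : (u4 - (2010/10000)) ^ 2 ≤ (1/1000) ^ 2 := sq_le_sq' (by linarith) (by linarith)
  linarith

theorem excl_6_0_1 {w : ℕ → ℝ} (a0 : |w 6 - (-100138/1000000)| ≤ 1/1000000) (a1 : |w 7 - (122383/1000000)| ≤ 1/1000000) (a2 : |w 8 - (81120/1000000)| ≤ 1/1000000)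
    (a3 : |w 9 - (156461/1000000)| ≤ 1/1000000) (a4 : |w 10 - (-250490/1000000)| ≤ 1/1000000) (a5 : |w 11 - (-313937/1000000)| ≤ 1/1000000)
    {u1 u2 u3 u4 v1 v2 v3 v4 : ℝ} (hq : u1 ^ 2 + 3 * u2 ^ 2 + u3 ^ 2 + 3 * u4 ^ 2 = 1)
    (b1 : |u1| ≤ 1) (b3 : |u3| ≤ 1) (c1 : |v1| ≤ 2) (c3 : |v3| ≤ 2)
    (e1 : v1 = (2 * u1 + 0 * u2) / 2) (e2 : v2 = (0 * u1 + 2 * u2) / 2)
    (e3 : v3 = (-1 * u3 + 3 * u4) / 2) (e4 : v4 = (-1 * u3 + -1 * u4) / 2)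
    (h1 : u2 = w 6 * u1 + w 7 * u3 + w 8) (h2 : u4 = w 9 * u1 + w 10 * u3 + w 11)
    (h3 : v2 = w 6 * v1 + w 7 * v3 + w 8) (h4 : v4 = w 9 * v1 + w 10 * v3 + w 11) : False := by
  obtain ⟨p1, p2⟩ := pb a0 b1
  obtain ⟨p3, p4⟩ := pb a1 b3
  obtain ⟨p5, p6⟩ := pb a3 b1
  obtain ⟨p7, p8⟩ := pb a4 b3
  obtain ⟨q1, q2⟩ := pb a0 c1
  obtain ⟨q3, q4⟩ := pb a1 c3
  obtain ⟨q5, q6⟩ := pb a3 c1
  obtain ⟨q7, q8⟩ := pb a4 c3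
  obtain ⟨r1, r2⟩ := abs_le.mp a2
  obtain ⟨r3, r4⟩ := abs_le.mp a5
  clear a0 a1 a2 a3 a4 a5 b1 b3 c1 c3
  have s0 : u1 ≤ (20065/10000) + (1/1000) := by linarith
  have t0 : (20065/10000) - (1/1000) ≤ u1 := by linarith
  have s1 : u2 ≤ (-1198/10000) + (1/1000) := by linarith
  have t1 : (-1198/10000) - (1/1000) ≤ u2 := by linarith
  have s2 : u3 ≤ (0/10000) + (1/1000) := by linarith
  have t2 : (0/10000) - (1/1000) ≤ u3 := by linarith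
  have s3 : u4 ≤ (0/10000) + (1/1000) := by linarith
  have t3 : (0/10000) - (1/1000) ≤ u4 := by linarith
  clear h1 h2 h3 h4 p1 p2 p3 p4 p5 p6 p7 p8 q1 q2 q3 q4 q5 q6 q7 q8 r1 r2 r3 r4 e1 e2 e3 e4
  have k0 := sq_nonneg (u1 - (20065/10000))
  have k1 := sq_nonneg (u2 - (-1198/10000))
  have k2 := sq_nonneg (u3 - (0/10000))
  have k3 := sq_nonneg (u4 - (0/10000))
  linarith

theorem excl_6_0_2 {w : ℕ → ℝ} (a0 : |w 6 - (-100138/1000000)| ≤ 1/1000000) (a1 : |w 7 - (122383/1000000)| ≤ 1/1000000) (a2 : |w 8 - (81120/1000000)| ≤ 1/1000000)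
    (a3 : |w 9 - (156461/1000000)| ≤ 1/1000000) (a4 : |w 10 - (-250490/1000000)| ≤ 1/1000000) (a5 : |w 11 - (-313937/1000000)| ≤ 1/1000000)
    {u1 u2 u3 u4 v1 v2 v3 v4 : ℝ} (hq : u1 ^ 2 + 3 * u2 ^ 2 + u3 ^ 2 + 3 * u4 ^ 2 = 1)
    (b1 : |u1| ≤ 1) (b3 : |u3| ≤ 1) (c1 : |v1| ≤ 2) (c3 : |v3| ≤ 2)
    (e1 : v1 = (2 * u1 + 0 * u2) / 2) (e2 : v2 = (0 * u1 + 2 * u2) / 2)
    (e3 : v3 = (-1 * u3 + -3 * u4) / 2) (e4 : v4 = (1 * u3 + -1 * u4) / 2)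
    (h1 : u2 = w 6 * u1 + w 7 * u3 + w 8) (h2 : u4 = w 9 * u1 + w 10 * u3 + w 11)
    (h3 : v2 = w 6 * v1 + w 7 * v3 + w 8) (h4 : v4 = w 9 * v1 + w 10 * v3 + w 11) : False := by
  obtain ⟨p1, p2⟩ := pb a0 b1
  obtain ⟨p3, p4⟩ := pb a1 b3
  obtain ⟨p5, p6⟩ := pb a3 b1
  obtain ⟨p7, p8⟩ := pb a4 b3
  obtain ⟨q1, q2⟩ := pb a0 c1
  obtain ⟨q3, q4⟩ := pb a1 c3
  obtain ⟨q5, q6⟩ := pb a3 c1
  obtain ⟨q7, q8⟩ := pb a4 c3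
  obtain ⟨r1, r2⟩ := abs_le.mp a2
  obtain ⟨r3, r4⟩ := abs_le.mp a5
  clear a0 a1 a2 a3 a4 a5 b1 b3 c1 c3
  have s0 : u1 ≤ (20065/10000) + (1/1000) := by linarith
  have t0 : (20065/10000) - (1/1000) ≤ u1 := by linarith
  have s1 : u2 ≤ (-1198/10000) + (1/1000) := by linarith
  have t1 : (-1198/10000) - (1/1000) ≤ u2 := by linarith
  have s2 : u3 ≤ (0/10000) + (1/1000) := by linarith
  have t2 : (0/10000) - (1/1000) ≤ u3 := by linarith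
  have s3 : u4 ≤ (0/10000) + (1/1000) := by linarith
  have t3 : (0/10000) - (1/1000) ≤ u4 := by linarith
  clear h1 h2 h3 h4 p1 p2 p3 p4 p5 p6 p7 p8 q1 q2 q3 q4 q5 q6 q7 q8 r1 r2 r3 r4 e1 e2 e3 e4
  have k0 := sq_nonneg (u1 - (20065/10000))
  have k1 := sq_nonneg (u2 - (-1198/10000))
  have k2 := sq_nonneg (u3 - (0/10000))
  have k3 := sq_nonneg (u4 - (0/10000))
  linarith

theorem excl_6_1_0 {w : ℕ → ℝ} (a0 : |w 6 - (-100138/1000000)| ≤ 1/1000000) (a1 : |w 7 - (122383/1000000)| ≤ 1/1000000) (a2 : |w 8 - (81120/1000000)| ≤ 1/1000000)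
    (a3 : |w 9 - (156461/1000000)| ≤ 1/1000000) (a4 : |w 10 - (-250490/1000000)| ≤ 1/1000000) (a5 : |w 11 - (-313937/1000000)| ≤ 1/1000000)
    {u1 u2 u3 u4 v1 v2 v3 v4 : ℝ} (hq : u1 ^ 2 + 3 * u2 ^ 2 + u3 ^ 2 + 3 * u4 ^ 2 = 1)
    (b1 : |u1| ≤ 1) (b3 : |u3| ≤ 1) (c1 : |v1| ≤ 2) (c3 : |v3| ≤ 2)
    (e1 : v1 = (-1 * u1 + 3 * u2) / 2) (e2 : v2 = (-1 * u1 + -1 * u2) / 2)
    (e3 : v3 = (2 * u3 + 0 * u4) / 2) (e4 : v4 = (0 * u3 + 2 * u4) / 2)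
    (h1 : u2 = w 6 * u1 + w 7 * u3 + w 8) (h2 : u4 = w 9 * u1 + w 10 * u3 + w 11)
    (h3 : v2 = w 6 * v1 + w 7 * v3 + w 8) (h4 : v4 = w 9 * v1 + w 10 * v3 + w 11) : False := by
  obtain ⟨p1, p2⟩ := pb a0 b1
  obtain ⟨p3, p4⟩ := pb a1 b3
  obtain ⟨p5, p6⟩ := pb a3 b1
  obtain ⟨p7, p8⟩ := pb a4 b3
  obtain ⟨q1, q2⟩ := pb a0 c1
  obtain ⟨q3, q4⟩ := pb a1 c3
  obtain ⟨q5, q6⟩ := pb a3 c1
  obtain ⟨q7, q8⟩ := pb a4 c3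
  obtain ⟨r1, r2⟩ := abs_le.mp a2
  obtain ⟨r3, r4⟩ := abs_le.mp a5
  clear a0 a1 a2 a3 a4 a5 b1 b3 c1 c3
  have s0 : u1 ≤ (0/10000) + (1/1000) := by linarith
  have t0 : (0/10000) - (1/1000) ≤ u1 := by linarith
  have s1 : u2 ≤ (0/10000) + (1/1000) := by linarith
  have t1 : (0/10000) - (1/1000) ≤ u2 := by linarith
  have s2 : u3 ≤ (-6628/10000) + (1/1000) := by linarith
  have t2 : (-6628/10000) - (1/1000) ≤ u3 := by linarith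
  have s3 : u4 ≤ (-1479/10000) + (1/1000) := by linarith
  have t3 : (-1479/10000) - (1/1000) ≤ u4 := by linarith
  clear h1 h2 h3 h4 p1 p2 p3 p4 p5 p6 p7 p8 q1 q2 q3 q4 q5 q6 q7 q8 r1 r2 r3 r4 e1 e2 e3 e4
  have k0 : (u1 - (0/10000)) ^ 2 ≤ (1/1000) ^ 2 := sq_le_sq' (by linarith) (by linarith)
  have k1 : (u2 - (0/10000)) ^ 2 ≤ (1/1000) ^ 2 := sq_le_sq' (by linarith) (by linarith)
  have k2 : (u3 - (-6628/10000)) ^ 2 ≤ (1/1000) ^ 2 := sq_le_sq' (by linarith) (by linarith)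
  have k3 : (u4 - (-1479/10000)) ^ 2 ≤ (1/1000) ^ 2 := sq_le_sq' (by linarith) (by linarith)
  linarith

theorem excl_6_1_1 {w : ℕ → ℝ} (a0 : |w 6 - (-100138/1000000)| ≤ 1/1000000) (a1 : |w 7 - (122383/1000000)| ≤ 1/1000000) (a2 : |w 8 - (81120/1000000)| ≤ 1/1000000)
    (a3 : |w 9 - (156461/1000000)| ≤ 1/1000000) (a4 : |w 10 - (-250490/1000000)| ≤ 1/1000000) (a5 : |w 11 - (-313937/1000000)| ≤ 1/1000000)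
    {u1 u2 u3 u4 v1 v2 v3 v4 : ℝ} (hq : u1 ^ 2 + 3 * u2 ^ 2 + u3 ^ 2 + 3 * u4 ^ 2 = 1)
    (b1 : |u1| ≤ 1) (b3 : |u3| ≤ 1) (c1 : |v1| ≤ 2) (c3 : |v3| ≤ 2)
    (e1 : v1 = (-1 * u1 + 3 * u2) / 2) (e2 : v2 = (-1 * u1 + -1 * u2) / 2)
    (e3 : v3 = (-1 * u3 + 3 * u4) / 2) (e4 : v4 = (-1 * u3 + -1 * u4) / 2)
    (h1 : u2 = w 6 * u1 + w 7 * u3 + w 8) (h2 : u4 = w 9 * u1 + w 10 * u3 + w 11)
    (h3 : v2 = w 6 * v1 + w 7 * v3 + w 8) (h4 : v4 = w 9 * v1 + w 10 * v3 + w 11) : False := by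
  obtain ⟨p1, p2⟩ := pb a0 b1
  obtain ⟨p3, p4⟩ := pb a1 b3
  obtain ⟨p5, p6⟩ := pb a3 b1
  obtain ⟨p7, p8⟩ := pb a4 b3
  obtain ⟨q1, q2⟩ := pb a0 c1
  obtain ⟨q3, q4⟩ := pb a1 c3
  obtain ⟨q5, q6⟩ := pb a3 c1
  obtain ⟨q7, q8⟩ := pb a4 c3
  obtain ⟨r1, r2⟩ := abs_le.mp a2
  obtain ⟨r3, r4⟩ := abs_le.mp a5
  clear a0 a1 a2 a3 a4 a5 b1 b3 c1 c3
  have s0 : u1 ≤ (-324/10000) + (1/1000) := by linarith
  have t0 : (-324/10000) - (1/1000) ≤ u1 := by linarith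
  have s1 : u2 ≤ (1495/10000) + (1/1000) := by linarith
  have t1 : (1495/10000) - (1/1000) ≤ u2 := by linarith
  have s2 : u3 ≤ (5318/10000) + (1/1000) := by linarith
  have t2 : (5318/10000) - (1/1000) ≤ u3 := by linarith
  have s3 : u4 ≤ (-4522/10000) + (1/1000) := by linarith
  have t3 : (-4522/10000) - (1/1000) ≤ u4 := by linarith
  clear h1 h2 h3 h4 p1 p2 p3 p4 p5 p6 p7 p8 q1 q2 q3 q4 q5 q6 q7 q8 r1 r2 r3 r4 e1 e2 e3 e4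
  have k0 : (u1 - (-324/10000)) ^ 2 ≤ (1/1000) ^ 2 := sq_le_sq' (by linarith) (by linarith)
  have k1 : (u2 - (1495/10000)) ^ 2 ≤ (1/1000) ^ 2 := sq_le_sq' (by linarith) (by linarith)
  have k2 : (u3 - (5318/10000)) ^ 2 ≤ (1/1000) ^ 2 := sq_le_sq' (by linarith) (by linarith)
  have k3 : (u4 - (-4522/10000)) ^ 2 ≤ (1/1000) ^ 2 := sq_le_sq' (by linarith) (by linarith)
  linarith

theorem excl_6_1_2 {w : ℕ → ℝ} (a0 : |w 6 - (-100138/1000000)| ≤ 1/1000000) (a1 : |w 7 - (122383/1000000)| ≤ 1/1000000) (a2 : |w 8 - (81120/1000000)| ≤ 1/1000000)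
    (a3 : |w 9 - (156461/1000000)| ≤ 1/1000000) (a4 : |w 10 - (-250490/1000000)| ≤ 1/1000000) (a5 : |w 11 - (-313937/1000000)| ≤ 1/1000000)
    {u1 u2 u3 u4 v1 v2 v3 v4 : ℝ} (hq : u1 ^ 2 + 3 * u2 ^ 2 + u3 ^ 2 + 3 * u4 ^ 2 = 1)
    (b1 : |u1| ≤ 1) (b3 : |u3| ≤ 1) (c1 : |v1| ≤ 2) (c3 : |v3| ≤ 2)
    (e1 : v1 = (-1 * u1 + 3 * u2) / 2) (e2 : v2 = (-1 * u1 + -1 * u2) / 2)
    (e3 : v3 = (-1 * u3 + -3 * u4) / 2) (e4 : v4 = (1 * u3 + -1 * u4) / 2)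
    (h1 : u2 = w 6 * u1 + w 7 * u3 + w 8) (h2 : u4 = w 9 * u1 + w 10 * u3 + w 11)
    (h3 : v2 = w 6 * v1 + w 7 * v3 + w 8) (h4 : v4 = w 9 * v1 + w 10 * v3 + w 11) : False := by
  obtain ⟨p1, p2⟩ := pb a0 b1
  obtain ⟨p3, p4⟩ := pb a1 b3
  obtain ⟨p5, p6⟩ := pb a3 b1
  obtain ⟨p7, p8⟩ := pb a4 b3
  obtain ⟨q1, q2⟩ := pb a0 c1
  obtain ⟨q3, q4⟩ := pb a1 c3
  obtain ⟨q5, q6⟩ := pb a3 c1
  obtain ⟨q7, q8⟩ := pb a4 c3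
  obtain ⟨r1, r2⟩ := abs_le.mp a2
  obtain ⟨r3, r4⟩ := abs_le.mp a5
  clear a0 a1 a2 a3 a4 a5 b1 b3 c1 c3
  have s0 : u1 ≤ (-2854/10000) + (1/1000) := by linarith
  have t0 : (-2854/10000) - (1/1000) ≤ u1 := by linarith
  have s1 : u2 ≤ (-158/10000) + (1/1000) := by linarith
  have t1 : (-158/10000) - (1/1000) ≤ u2 := by linarith
  have s2 : u3 ≤ (-10256/10000) + (1/1000) := by linarith
  have t2 : (-10256/10000) - (1/1000) ≤ u3 := by linarith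
  have s3 : u4 ≤ (-1017/10000) + (1/1000) := by linarith
  have t3 : (-1017/10000) - (1/1000) ≤ u4 := by linarith
  clear h1 h2 h3 h4 p1 p2 p3 p4 p5 p6 p7 p8 q1 q2 q3 q4 q5 q6 q7 q8 r1 r2 r3 r4 e1 e2 e3 e4
  have k0 := sq_nonneg (u1 - (-2854/10000))
  have k1 := sq_nonneg (u2 - (-158/10000))
  have k2 := sq_nonneg (u3 - (-10256/10000))
  have k3 := sq_nonneg (u4 - (-1017/10000))
  linarith

theorem excl_6_2_0 {w : ℕ → ℝ} (a0 : |w 6 - (-100138/1000000)| ≤ 1/1000000) (a1 : |w 7 - (122383/1000000)| ≤ 1/1000000) (a2 : |w 8 - (81120/1000000)| ≤ 1/1000000)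
    (a3 : |w 9 - (156461/1000000)| ≤ 1/1000000) (a4 : |w 10 - (-250490/1000000)| ≤ 1/1000000) (a5 : |w 11 - (-313937/1000000)| ≤ 1/1000000)
    {u1 u2 u3 u4 v1 v2 v3 v4 : ℝ} (hq : u1 ^ 2 + 3 * u2 ^ 2 + u3 ^ 2 + 3 * u4 ^ 2 = 1)
    (b1 : |u1| ≤ 1) (b3 : |u3| ≤ 1) (c1 : |v1| ≤ 2) (c3 : |v3| ≤ 2)
    (e1 : v1 = (-1 * u1 + -3 * u2) / 2) (e2 : v2 = (1 * u1 + -1 * u2) / 2)
    (e3 : v3 = (2 * u3 + 0 * u4) / 2) (e4 : v4 = (0 * u3 + 2 * u4) / 2)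
    (h1 : u2 = w 6 * u1 + w 7 * u3 + w 8) (h2 : u4 = w 9 * u1 + w 10 * u3 + w 11)
    (h3 : v2 = w 6 * v1 + w 7 * v3 + w 8) (h4 : v4 = w 9 * v1 + w 10 * v3 + w 11) : False := by
  obtain ⟨p1, p2⟩ := pb a0 b1
  obtain ⟨p3, p4⟩ := pb a1 b3
  obtain ⟨p5, p6⟩ := pb a3 b1
  obtain ⟨p7, p8⟩ := pb a4 b3
  obtain ⟨q1, q2⟩ := pb a0 c1
  obtain ⟨q3, q4⟩ := pb a1 c3
  obtain ⟨q5, q6⟩ := pb a3 c1
  obtain ⟨q7, q8⟩ := pb a4 c3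
  obtain ⟨r1, r2⟩ := abs_le.mp a2
  obtain ⟨r3, r4⟩ := abs_le.mp a5
  clear a0 a1 a2 a3 a4 a5 b1 b3 c1 c3
  have s0 : u1 ≤ (0/10000) + (1/1000) := by linarith
  have t0 : (0/10000) - (1/1000) ≤ u1 := by linarith
  have s1 : u2 ≤ (0/10000) + (1/1000) := by linarith
  have t1 : (0/10000) - (1/1000) ≤ u2 := by linarith
  have s2 : u3 ≤ (-6628/10000) + (1/1000) := by linarith
  have t2 : (-6628/10000) - (1/1000) ≤ u3 := by linarith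
  have s3 : u4 ≤ (-1479/10000) + (1/1000) := by linarith
  have t3 : (-1479/10000) - (1/1000) ≤ u4 := by linarith
  clear h1 h2 h3 h4 p1 p2 p3 p4 p5 p6 p7 p8 q1 q2 q3 q4 q5 q6 q7 q8 r1 r2 r3 r4 e1 e2 e3 e4
  have k0 : (u1 - (0/10000)) ^ 2 ≤ (1/1000) ^ 2 := sq_le_sq' (by linarith) (by linarith)
  have k1 : (u2 - (0/10000)) ^ 2 ≤ (1/1000) ^ 2 := sq_le_sq' (by linarith) (by linarith)
  have k2 : (u3 - (-6628/10000)) ^ 2 ≤ (1/1000) ^ 2 := sq_le_sq' (by linarith) (by linarith)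
  have k3 : (u4 - (-1479/10000)) ^ 2 ≤ (1/1000) ^ 2 := sq_le_sq' (by linarith) (by linarith)
  linarith

theorem excl_6_2_1 {w : ℕ → ℝ} (a0 : |w 6 - (-100138/1000000)| ≤ 1/1000000) (a1 : |w 7 - (122383/1000000)| ≤ 1/1000000) (a2 : |w 8 - (81120/1000000)| ≤ 1/1000000)
    (a3 : |w 9 - (156461/1000000)| ≤ 1/1000000) (a4 : |w 10 - (-250490/1000000)| ≤ 1/1000000) (a5 : |w 11 - (-313937/1000000)| ≤ 1/1000000)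
    {u1 u2 u3 u4 v1 v2 v3 v4 : ℝ} (hq : u1 ^ 2 + 3 * u2 ^ 2 + u3 ^ 2 + 3 * u4 ^ 2 = 1)
    (b1 : |u1| ≤ 1) (b3 : |u3| ≤ 1) (c1 : |v1| ≤ 2) (c3 : |v3| ≤ 2)
    (e1 : v1 = (-1 * u1 + -3 * u2) / 2) (e2 : v2 = (1 * u1 + -1 * u2) / 2)
    (e3 : v3 = (-1 * u3 + 3 * u4) / 2) (e4 : v4 = (-1 * u3 + -1 * u4) / 2)
    (h1 : u2 = w 6 * u1 + w 7 * u3 + w 8) (h2 : u4 = w 9 * u1 + w 10 * u3 + w 11)
    (h3 : v2 = w 6 * v1 + w 7 * v3 + w 8) (h4 : v4 = w 9 * v1 + w 10 * v3 + w 11) : False := by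
  obtain ⟨p1, p2⟩ := pb a0 b1
  obtain ⟨p3, p4⟩ := pb a1 b3
  obtain ⟨p5, p6⟩ := pb a3 b1
  obtain ⟨p7, p8⟩ := pb a4 b3
  obtain ⟨q1, q2⟩ := pb a0 c1
  obtain ⟨q3, q4⟩ := pb a1 c3
  obtain ⟨q5, q6⟩ := pb a3 c1
  obtain ⟨q7, q8⟩ := pb a4 c3
  obtain ⟨r1, r2⟩ := abs_le.mp a2
  obtain ⟨r3, r4⟩ := abs_le.mp a5
  clear a0 a1 a2 a3 a4 a5 b1 b3 c1 c3
  have s0 : u1 ≤ (1190/10000) + (1/1000) := by linarith
  have t0 : (1190/10000) - (1/1000) ≤ u1 := by linarith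
  have s1 : u2 ≤ (1506/10000) + (1/1000) := by linarith
  have t1 : (1506/10000) - (1/1000) ≤ u2 := by linarith
  have s2 : u3 ≤ (6653/10000) + (1/1000) := by linarith
  have t2 : (6653/10000) - (1/1000) ≤ u3 := by linarith
  have s3 : u4 ≤ (-4620/10000) + (1/1000) := by linarith
  have t3 : (-4620/10000) - (1/1000) ≤ u4 := by linarith
  clear h1 h2 h3 h4 p1 p2 p3 p4 p5 p6 p7 p8 q1 q2 q3 q4 q5 q6 q7 q8 r1 r2 r3 r4 e1 e2 e3 e4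
  have k0 := sq_nonneg (u1 - (1190/10000))
  have k1 := sq_nonneg (u2 - (1506/10000))
  have k2 := sq_nonneg (u3 - (6653/10000))
  have k3 := sq_nonneg (u4 - (-4620/10000))
  linarith

theorem excl_6_2_2 {w : ℕ → ℝ} (a0 : |w 6 - (-100138/1000000)| ≤ 1/1000000) (a1 : |w 7 - (122383/1000000)| ≤ 1/1000000) (a2 : |w 8 - (81120/1000000)| ≤ 1/1000000)
    (a3 : |w 9 - (156461/1000000)| ≤ 1/1000000) (a4 : |w 10 - (-250490/1000000)| ≤ 1/1000000) (a5 : |w 11 - (-313937/1000000)| ≤ 1/1000000)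
    {u1 u2 u3 u4 v1 v2 v3 v4 : ℝ} (hq : u1 ^ 2 + 3 * u2 ^ 2 + u3 ^ 2 + 3 * u4 ^ 2 = 1)
    (b1 : |u1| ≤ 1) (b3 : |u3| ≤ 1) (c1 : |v1| ≤ 2) (c3 : |v3| ≤ 2)
    (e1 : v1 = (-1 * u1 + -3 * u2) / 2) (e2 : v2 = (1 * u1 + -1 * u2) / 2)
    (e3 : v3 = (-1 * u3 + -3 * u4) / 2) (e4 : v4 = (1 * u3 + -1 * u4) / 2)
    (h1 : u2 = w 6 * u1 + w 7 * u3 + w 8) (h2 : u4 = w 9 * u1 + w 10 * u3 + w 11)
    (h3 : v2 = w 6 * v1 + w 7 * v3 + w 8) (h4 : v4 = w 9 * v1 + w 10 * v3 + w 11) : False := by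
  obtain ⟨p1, p2⟩ := pb a0 b1
  obtain ⟨p3, p4⟩ := pb a1 b3
  obtain ⟨p5, p6⟩ := pb a3 b1
  obtain ⟨p7, p8⟩ := pb a4 b3
  obtain ⟨q1, q2⟩ := pb a0 c1
  obtain ⟨q3, q4⟩ := pb a1 c3
  obtain ⟨q5, q6⟩ := pb a3 c1
  obtain ⟨q7, q8⟩ := pb a4 c3
  obtain ⟨r1, r2⟩ := abs_le.mp a2
  obtain ⟨r3, r4⟩ := abs_le.mp a5
  clear a0 a1 a2 a3 a4 a5 b1 b3 c1 c3
  have s0 : u1 ≤ (2404/10000) + (1/1000) := by linarith
  have t0 : (2404/10000) - (1/1000) ≤ u1 := by linarith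
  have s1 : u2 ≤ (-585/10000) + (1/1000) := by linarith
  have t1 : (-585/10000) - (1/1000) ≤ u2 := by linarith
  have s2 : u3 ≤ (-9443/10000) + (1/1000) := by linarith
  have t2 : (-9443/10000) - (1/1000) ≤ u3 := by linarith
  have s3 : u4 ≤ (-398/10000) + (1/1000) := by linarith
  have t3 : (-398/10000) - (1/1000) ≤ u4 := by linarith
  clear h1 h2 h3 h4 p1 p2 p3 p4 p5 p6 p7 p8 q1 q2 q3 q4 q5 q6 q7 q8 r1 r2 r3 r4 e1 e2 e3 e4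
  have k0 : (u1 - (2404/10000)) ^ 2 ≤ (1/1000) ^ 2 := sq_le_sq' (by linarith) (by linarith)
  have k1 : (u2 - (-585/10000)) ^ 2 ≤ (1/1000) ^ 2 := sq_le_sq' (by linarith) (by linarith)
  have k2 : (u3 - (-9443/10000)) ^ 2 ≤ (1/1000) ^ 2 := sq_le_sq' (by linarith) (by linarith)
  have k3 : (u4 - (-398/10000)) ^ 2 ≤ (1/1000) ^ 2 := sq_le_sq' (by linarith) (by linarith)
  linarith

end H537R3.Chess
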