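import Pool.Agent.H537R3.Chess.NK

open Finset

namespace H537R3.Chess

theorem nkCheck_all : (List.range 45).all nkCheck = true := by decide +kernel
theorem nkNorm_all : (List.range 48).all nkNorm = true := by decide +kernel

theorem sum_range_map {M : Type*} [AddCommMonoid M] (f : ℕ → M) (n : ℕ) :
    ((List.range n).map f).sum = ∑ j : Fin n, f j := by
  induction n with
  | zero => simp
  | succ n ih => rw [List.range_succ, List.map_append, List.sum_append, ih, Fin.sum_univ_castSucc]; simp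

theorem der_conv (q : QP) (z y : ℕ → ℤ) :
    ((q.der (10 ^ 12 : ℤ) z y : ℤ) : ℝ)
      = 10 ^ 17 * q.der 1 (fun k => (z k : ℝ) / 10 ^ 12) (fun k => (y k : ℝ) / 10 ^ 5) := by
  have e1 := QP.der_scale q ((10 ^ 12 : ℤ) : ℝ) (10 ^ 5) (fun k => (z k : ℝ) / 10 ^ 12)
    (fun k => (y k : ℝ) / 10 ^ 5)
  have e2 : (fun k => ((10 ^ 12 : ℤ) : ℝ) * ((z k : ℝ) / 10 ^ 12)) = fun k => (z k : ℝ) := by
    funext k; push_cast; ring
  have e3 : (fun k => (10 : ℝ) ^ 5 * ((y k : ℝ) / 10 ^ 5)) = fun k => (y k : ℝ) := by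
    funext k; field_simp
  rw [e2, e3] at e1
  rw [QP.der_cast, e1]
  push_cast
  norm_num

theorem ev_conv (q : QP) (z : ℕ → ℤ) :
    ((q.ev (10 ^ 12 : ℤ) z : ℤ) : ℝ)
      = 10 ^ 24 * q.ev 1 (fun k => (z k : ℝ) / 10 ^ 12) := by
  have e1 := QP.ev_scale q ((10 ^ 12 : ℤ) : ℝ) (fun k => (z k : ℝ) / 10 ^ 12)
  have e2 : (fun k => ((10 ^ 12 : ℤ) : ℝ) * ((z k : ℝ) / 10 ^ 12)) = fun k => (z k : ℝ) := by
    funext k; push_cast; ring
  rw [e2] at e1
  rw [QP.ev_cast, e1]
  push_cast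
  norm_num

/-- The exact configuration exists near the approximate one. -/
theorem exists_config : ∃ w : ℕ → ℝ, (∀ g < 9, ∀ q ∈ eqns g, q.ev 1 w = 0) ∧
    ∀ k, |w k - (zf k : ℝ) / 10 ^ 12| ≤ 5 / 10 ^ 10 := by
  have hc : ∀ i < 45, nkCheck i = true := by
    have := nkCheck_all
    rw [List.all_eq_true] at this
    exact fun i hi => this i (List.mem_range.mpr hi)
  have hn : ∀ k, (∑ j : Fin 45, |Yf k j| : ℤ) ≤ 50 * 10 ^ 5 := by
    intro k
    by_cases hk : k < 48
    · have := nkNorm_all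
      rw [List.all_eq_true] at this
      have h := this k (List.mem_range.mpr hk)
      simp only [nkNorm, decide_eq_true_eq] at h
      rw [sum_range_map] at h
      exact h
    · simp [Yf, hk]
  obtain ⟨w, hw, hd⟩ := nk (n := 45) (fun i => eqn i) (fun k => (zf k : ℝ) / 10 ^ 12)
    (fun k j => (Yf k j : ℝ) / 10 ^ 5) 50 (1 / 10 ^ 11) (by norm_num) (by
      intro k
      have := hn k
      have h2 : ((∑ j : Fin 45, |Yf k j| : ℤ) : ℝ) ≤ ((50 * 10 ^ 5 : ℤ) : ℝ) := by exact_mod_cast this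
      rw [Int.cast_sum] at h2
      have h3 : ∑ j : Fin 45, |(Yf k j : ℝ) / 10 ^ 5| = (∑ j : Fin 45, ((|Yf k j| : ℤ) : ℝ)) / 10 ^ 5 := by
        rw [Finset.sum_div]
        refine Finset.sum_congr rfl fun j _ => ?_
        rw [abs_div, Int.cast_abs, abs_of_pos (show (0:ℝ) < 10 ^ 5 by norm_num)]
      rw [h3, div_le_iff₀ (by norm_num)]
      exact h2.trans (by push_cast; norm_num)) (by norm_num) (by
      intro i
      have h := hc i i.2
      simp only [nkCheck, Bool.and_eq_true, decide_eq_true_eq] at h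
      obtain ⟨⟨ha, hb⟩, -⟩ := h
      rw [rowErr, sum_range_map] at ha
      have hb' : (muSum (eqn i) : ℝ) ≤ 8 := by exact_mod_cast hb
      have ha' : ((∑ j : Fin 45, |(eqn i).der (10 ^ 12 : ℤ) zf (fun k => Yf k j) -
          if (i : ℕ) = (j : ℕ) then 10 ^ 17 else 0| : ℤ) : ℝ) ≤ ((10 ^ 14 : ℤ) : ℝ) := by exact_mod_cast ha
      have h3 : ∑ j : Fin 45, |(eqn i).der 1 (fun k => (zf k : ℝ) / 10 ^ 12)
          (fun k => (Yf k j : ℝ) / 10 ^ 5) - if i = j then 1 else 0| = (∑ j : Fin 45,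
            ((|(eqn i).der (10 ^ 12 : ℤ) zf (fun k => Yf k j) -
          if (i : ℕ) = (j : ℕ) then 10 ^ 17 else 0| : ℤ) : ℝ)) / 10 ^ 17 := by
        rw [Finset.sum_div]
        refine Finset.sum_congr rfl fun j _ => ?_
        rw [Int.cast_abs, Int.cast_sub, der_conv]
        rw [eq_div_iff (by norm_num)]
        rw [show (10 : ℝ) ^ 17 = |(10 : ℝ) ^ 17| by norm_num, ← abs_mul, abs_of_pos (show (0:ℝ) < 10 ^ 17 by norm_num)]
        congr 1
        by_cases hij : i = j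
        · simp only [hij, if_true]; push_cast; ring
        · have : (i : ℕ) ≠ (j : ℕ) := fun h => hij (Fin.ext h)
          simp only [hij, this, if_false]; push_cast; ring
      rw [Int.cast_sum] at ha'
      have h4 : ∑ j : Fin 45, |(eqn i).der 1 (fun k => (zf k : ℝ) / 10 ^ 12)
          (fun k => (Yf k j : ℝ) / 10 ^ 5) - if i = j then 1 else 0| ≤ ((10 ^ 14 : ℤ) : ℝ) / 10 ^ 17 := by
        rw [h3]
        exact div_le_div_of_nonneg_right ha' (by norm_num)
      push_cast at h4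
      have h5 : (10 : ℝ) ^ 14 / 10 ^ 17 = 1 / 1000 := by norm_num
      have h6 : (2 * (50 * (1 / 10 ^ 11)) * 50 : ℝ) = 5 / 10 ^ 8 := by norm_num
      rw [h6]
      have h7 : (muSum (eqn i) : ℝ) * (5 / 10 ^ 8) ≤ 8 * (5 / 10 ^ 8) :=
        mul_le_mul_of_nonneg_right hb' (by norm_num)
      have h8 : (8 * (5 / 10 ^ 8) : ℝ) ≤ 1 / 1000 := by norm_num
      linarith) (by
      intro i
      have h := hc i i.2
      simp only [nkCheck, Bool.and_eq_true, decide_eq_true_eq] at h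
      obtain ⟨-, hb⟩ := h
      have hb' : ((|(eqn i).ev (10 ^ 12 : ℤ) zf| : ℤ) : ℝ) ≤ ((10 ^ 13 / 2 : ℤ) : ℝ) := by exact_mod_cast hb
      rw [Int.cast_abs, ev_conv, abs_mul, abs_of_pos (show (0:ℝ) < 10 ^ 24 by norm_num)] at hb'
      have h9 : ((10 ^ 13 / 2 : ℤ) : ℝ) = 10 ^ 24 * (1 / 10 ^ 11 / 2) := by norm_num
      rw [h9] at hb'
      exact le_of_mul_le_mul_left hb' (by norm_num))
  refine ⟨w, ?_, fun k => ?_⟩
  · have hlen : eqsAll.length = 45 := by decide +kernel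
    intro g hg q hq
    have hmem : q ∈ eqsAll := by
      unfold eqsAll
      rw [List.mem_flatMap]
      exact ⟨g, List.mem_range.mpr hg, hq⟩
    obtain ⟨n, hn, rfl⟩ := List.mem_iff_getElem.mp hmem
    have := hw ⟨n, hlen ▸ hn⟩
    rw [eqn, List.getD_eq_getElem _ _ hn] at this
    exact this
  · refine (hd k).trans (by norm_num)

end H537R3.Chess
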