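import Pool.Agent.H537R3.Chess.Grid

namespace H537R3.Chess

theorem circA_isCircle {w : ℕ → ℝ} (hw : Config w) {g : ℕ} (hg : g < 9) : IsCircle (circ w 0 g) := by
  have h0 := gp_mem hw hg (h := 0) (by norm_num)
  have h1 := gp_mem hw hg (h := 1) (by norm_num)
  refine circ_isCircle hw (Or.inl rfl) _ _ ?_ h0.1 h1.1
  intro he
  have hd := circ_disjoint hw (o := 6) (Or.inr rfl) (g := 0) (g' := 1) (by norm_num) (by norm_num) (by norm_num)
  rw [Set.disjoint_left] at hd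
  exact hd h0.2 (he ▸ h1.2)

theorem circB_isCircle {w : ℕ → ℝ} (hw : Config w) {h : ℕ} (hh : h < 9) : IsCircle (circ w 6 h) := by
  have h0 := gp_mem hw (g := 0) (by norm_num) hh
  have h1 := gp_mem hw (g := 1) (by norm_num) hh
  refine circ_isCircle hw (Or.inr rfl) _ _ ?_ h0.2 h1.2
  intro he
  have hd := circ_disjoint hw (o := 0) (Or.inl rfl) (g := 0) (g' := 1) (by norm_num) (by norm_num) (by norm_num)
  rw [Set.disjoint_left] at hd
  exact hd h0.1 (he ▸ h1.1)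

/-- Every set of type (C), (D) or (E) lies in the zero set of a nonzero function of `Lin ^ 4`. -/
theorem type_quart (T : Set E3) (hT : TypeC T ∨ TypeD T ∨ TypeE T) :
    ∃ f ∈ Lin ^ 4, f ≠ 0 ∧ ∀ x ∈ T, f x = 0 := by
  rcases hT with h | h | h
  · exact typeC_quart T h
  · exact typeD_quart T h
  · exact typeE_quart T h

/-- The curved chessboard conjecture fails. -/
theorem main : ∃ A B : Fin 9 → Set E3, IsGrid 8 A B ∧ (∀ i, IsCircle (A i)) ∧ (∀ j, IsCircle (B j)) ∧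
    ∀ A' B' : Fin 9 → Set E3, IsGrid 8 A' B' → (∀ i, A' i ⊆ A i) → (∀ j, B' j ⊆ B j) →
    (∀ i j, A i ∩ B j ⊆ A' i ∩ B' j) →
    ∀ l : List (E3 × ℝ), (∀ s ∈ l, 0 < s.2) → ∀ T : Set E3, (TypeC T ∨ TypeD T ∨ TypeE T) →
      ∃ x ∈ (⋃ i, A' i) ∪ ⋃ j, B' j, InvDefined l x ∧ applyInv l x ∉ T := by
  obtain ⟨w, hw⟩ := exists_Config
  refine ⟨fun i => circ w 0 i, fun j => circ w 6 j, ⟨?_, ?_, ?_, ?_, ?_⟩, fun i => circA_isCircle hw i.2,
    fun j => circB_isCircle hw j.2, ?_⟩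
  · exact fun i => circle_arc (circA_isCircle hw i.2)
  · exact fun j => circle_arc (circB_isCircle hw j.2)
  · exact fun i j hij => circ_disjoint hw (Or.inl rfl) i.2 j.2 (fun h => hij (Fin.ext h))
  · exact fun i j hij => circ_disjoint hw (Or.inr rfl) i.2 j.2 (fun h => hij (Fin.ext h))
  · exact fun i j => ⟨_, gp_mem hw i.2 j.2⟩
  · intro A' B' hgrid hA hB hsub l hl T hT
    by_contra hcon
    push Not at hcon
    obtain ⟨f, hf, hf0, hfT⟩ := type_quart T hT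
    obtain ⟨f', hf', hf0', hpull⟩ := pull_list 4 l hl f hf hf0
    apply hf0'
    refine vanish_all hw f' hf' (fun j hj => ?_)
    have hmem := gp_mem hw (g := j / 9) (h := j % 9) (by omega) (by omega)
    rw [show 9 * (j / 9) + j % 9 = j by omega] at hmem
    have hmem' := hsub ⟨j / 9, by omega⟩ ⟨j % 9, by omega⟩ hmem
    obtain ⟨hc, hn, -⟩ := hgrid.arcA ⟨j / 9, by omega⟩
    refine vanish_on_arc 4 l hl _ hc hn f' hf' (fun x hx hdef => ?_) _ hmem'.1
    exact hpull x hdef (hfT _ (hcon x (Or.inl (Set.mem_iUnion.mpr ⟨_, hx⟩)) hdef))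

/-- The negation of the curved chessboard conjecture. -/
theorem main_neg : ∃ A B : Fin 9 → Set E3, IsGrid 8 A B ∧
    ∀ l : List (E3 × ℝ), (∀ s ∈ l, 0 < s.2) → ∀ T : Set E3, (TypeC T ∨ TypeD T ∨ TypeE T) →
      ∃ x ∈ (⋃ i, A i) ∪ ⋃ j, B j, InvDefined l x ∧ applyInv l x ∉ T := by
  obtain ⟨A, B, hg, -, -, h⟩ := main
  exact ⟨A, B, hg, h A B hg (fun _ => subset_rfl) (fun _ => subset_rfl) (fun _ _ => subset_rfl)⟩

end H537R3.Chess
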