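import Pool.Agent.H537R3.Chess.Excl
import Pool.Agent.H537R3.Chess.Circle

namespace H537R3.Chess

theorem near_aux {w : ℕ → ℝ} (hw : Config w) (k : ℕ) (z : ℤ) (hz : zf k = z) (α : ℝ)
    (hα : |(z : ℝ) / 10 ^ 12 - α| ≤ 9 / 10 ^ 7) : |w k - α| ≤ 1 / 1000000 := by
  have h1 := hw.near k
  rw [hz] at h1
  have h2 : w k - α = (w k - (z : ℝ) / 10 ^ 12) + ((z : ℝ) / 10 ^ 12 - α) := by ring
  rw [h2]
  refine (abs_add_le _ _).trans ?_
  have : (5 / 10 ^ 10 + 9 / 10 ^ 7 : ℝ) ≤ 1 / 1000000 := by norm_num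
  linarith

theorem near_0 {w : ℕ → ℝ} (hw : Config w) : |w 0 - (323083/1000000)| ≤ 1/1000000 :=
  near_aux hw 0 (323083133833) (by decide +kernel) _ (by rw [abs_le]; constructor <;> norm_num)
theorem near_1 {w : ℕ → ℝ} (hw : Config w) : |w 1 - (-230971/1000000)| ≤ 1/1000000 :=
  near_aux hw 1 (-230971235474) (by decide +kernel) _ (by rw [abs_le]; constructor <;> norm_num)
theorem near_2 {w : ℕ → ℝ} (hw : Config w) : |w 2 - (-265626/1000000)| ≤ 1/1000000 :=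
  near_aux hw 2 (-265625949881) (by decide +kernel) _ (by rw [abs_le]; constructor <;> norm_num)
theorem near_3 {w : ℕ → ℝ} (hw : Config w) : |w 3 - (-102968/1000000)| ≤ 1/1000000 :=
  near_aux hw 3 (-102967586575) (by decide +kernel) _ (by rw [abs_le]; constructor <;> norm_num)
theorem near_4 {w : ℕ → ℝ} (hw : Config w) : |w 4 - (207606/1000000)| ≤ 1/1000000 :=
  near_aux hw 4 (207605598963) (by decide +kernel) _ (by rw [abs_le]; constructor <;> norm_num)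
theorem near_5 {w : ℕ → ℝ} (hw : Config w) : |w 5 - (137905/1000000)| ≤ 1/1000000 :=
  near_aux hw 5 (137904753987) (by decide +kernel) _ (by rw [abs_le]; constructor <;> norm_num)
theorem near_6 {w : ℕ → ℝ} (hw : Config w) : |w 6 - (-100138/1000000)| ≤ 1/1000000 :=
  near_aux hw 6 (-100138023836) (by decide +kernel) _ (by rw [abs_le]; constructor <;> norm_num)
theorem near_7 {w : ℕ → ℝ} (hw : Config w) : |w 7 - (122383/1000000)| ≤ 1/1000000 :=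
  near_aux hw 7 (122383053848) (by decide +kernel) _ (by rw [abs_le]; constructor <;> norm_num)
theorem near_8 {w : ℕ → ℝ} (hw : Config w) : |w 8 - (81120/1000000)| ≤ 1/1000000 :=
  near_aux hw 8 (81119829885) (by decide +kernel) _ (by rw [abs_le]; constructor <;> norm_num)
theorem near_9 {w : ℕ → ℝ} (hw : Config w) : |w 9 - (156461/1000000)| ≤ 1/1000000 :=
  near_aux hw 9 (156460526258) (by decide +kernel) _ (by rw [abs_le]; constructor <;> norm_num)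
theorem near_10 {w : ℕ → ℝ} (hw : Config w) : |w 10 - (-250490/1000000)| ≤ 1/1000000 :=
  near_aux hw 10 (-250490493663) (by decide +kernel) _ (by rw [abs_le]; constructor <;> norm_num)
theorem near_11 {w : ℕ → ℝ} (hw : Config w) : |w 11 - (-313937/1000000)| ≤ 1/1000000 :=
  near_aux hw 11 (-313936581313) (by decide +kernel) _ (by rw [abs_le]; constructor <;> norm_num)

theorem sqrt3_lo : (1.732 : ℝ) ≤ √3 := by
  apply Real.le_sqrt_of_sq_le; norm_num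
theorem sqrt3_hi : √3 ≤ (1.7321 : ℝ) := by
  rw [Real.sqrt_le_left (by norm_num)]; norm_num

/-- The combination of exclusion certificates. -/
theorem excl_all {w : ℕ → ℝ} (hw : Config w) {o k1 k2 : ℕ} (ho : o = 0 ∨ o = 6) (hk1 : k1 < 3) (hk2 : k2 < 3)
    (hk : ¬(k1 = 0 ∧ k2 = 0)) {u1 u2 u3 u4 v1 v2 v3 v4 : ℝ}
    (hq : u1 ^ 2 + 3 * u2 ^ 2 + u3 ^ 2 + 3 * u4 ^ 2 = 1)
    (b1 : |u1| ≤ 1) (b3 : |u3| ≤ 1) (c1 : |v1| ≤ 2) (c3 : |v3| ≤ 2)
    (e1 : v1 = (((rot2 k1).1 : ℝ) * u1 + ((rot2 k1).2.1 : ℝ) * u2) / 2)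
    (e2 : v2 = (((rot2 k1).2.2.1 : ℝ) * u1 + ((rot2 k1).2.2.2 : ℝ) * u2) / 2)
    (e3 : v3 = (((rot2 k2).1 : ℝ) * u3 + ((rot2 k2).2.1 : ℝ) * u4) / 2)
    (e4 : v4 = (((rot2 k2).2.2.1 : ℝ) * u3 + ((rot2 k2).2.2.2 : ℝ) * u4) / 2)
    (h1 : u2 = w o * u1 + w (o + 1) * u3 + w (o + 2)) (h2 : u4 = w (o + 3) * u1 + w (o + 4) * u3 + w (o + 5))
    (h3 : v2 = w o * v1 + w (o + 1) * v3 + w (o + 2)) (h4 : v4 = w (o + 3) * v1 + w (o + 4) * v3 + w (o + 5)) :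
    False := by
  have n0 := near_0 hw
  have n1 := near_1 hw
  have n2 := near_2 hw
  have n3 := near_3 hw
  have n4 := near_4 hw
  have n5 := near_5 hw
  have n6 := near_6 hw
  have n7 := near_7 hw
  have n8 := near_8 hw
  have n9 := near_9 hw
  have n10 := near_10 hw
  have n11 := near_11 hw
  rcases ho with rfl | rfl
  · interval_cases k1 <;> interval_cases k2
    · exact hk ⟨rfl, rfl⟩
    · exact excl_0_0_1 n0 n1 n2 n3 n4 n5 hq b1 b3 c1 c3 (by rw [e1]; simp [rot2]) (by rw [e2]; simp [rot2]) (by rw [e3]; simp [rot2]) (by rw [e4]; simp [rot2]) h1 h2 h3 h4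
    · exact excl_0_0_2 n0 n1 n2 n3 n4 n5 hq b1 b3 c1 c3 (by rw [e1]; simp [rot2]) (by rw [e2]; simp [rot2]) (by rw [e3]; simp [rot2]) (by rw [e4]; simp [rot2]) h1 h2 h3 h4
    · exact excl_0_1_0 n0 n1 n2 n3 n4 n5 hq b1 b3 c1 c3 (by rw [e1]; simp [rot2]) (by rw [e2]; simp [rot2]) (by rw [e3]; simp [rot2]) (by rw [e4]; simp [rot2]) h1 h2 h3 h4
    · exact excl_0_1_1 n0 n1 n2 n3 n4 n5 hq b1 b3 c1 c3 (by rw [e1]; simp [rot2]) (by rw [e2]; simp [rot2]) (by rw [e3]; simp [rot2]) (by rw [e4]; simp [rot2]) h1 h2 h3 h4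
    · exact excl_0_1_2 n0 n1 n2 n3 n4 n5 hq b1 b3 c1 c3 (by rw [e1]; simp [rot2]) (by rw [e2]; simp [rot2]) (by rw [e3]; simp [rot2]) (by rw [e4]; simp [rot2]) h1 h2 h3 h4
    · exact excl_0_2_0 n0 n1 n2 n3 n4 n5 hq b1 b3 c1 c3 (by rw [e1]; simp [rot2]) (by rw [e2]; simp [rot2]) (by rw [e3]; simp [rot2]) (by rw [e4]; simp [rot2]) h1 h2 h3 h4
    · exact excl_0_2_1 n0 n1 n2 n3 n4 n5 hq b1 b3 c1 c3 (by rw [e1]; simp [rot2]) (by rw [e2]; simp [rot2]) (by rw [e3]; simp [rot2]) (by rw [e4]; simp [rot2]) h1 h2 h3 h4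
    · exact excl_0_2_2 n0 n1 n2 n3 n4 n5 hq b1 b3 c1 c3 (by rw [e1]; simp [rot2]) (by rw [e2]; simp [rot2]) (by rw [e3]; simp [rot2]) (by rw [e4]; simp [rot2]) h1 h2 h3 h4
  · interval_cases k1 <;> interval_cases k2
    · exact hk ⟨rfl, rfl⟩
    · exact excl_6_0_1 n6 n7 n8 n9 n10 n11 hq b1 b3 c1 c3 (by rw [e1]; simp [rot2]) (by rw [e2]; simp [rot2]) (by rw [e3]; simp [rot2]) (by rw [e4]; simp [rot2]) h1 h2 h3 h4
    · exact excl_6_0_2 n6 n7 n8 n9 n10 n11 hq b1 b3 c1 c3 (by rw [e1]; simp [rot2]) (by rw [e2]; simp [rot2]) (by rw [e3]; simp [rot2]) (by rw [e4]; simp [rot2]) h1 h2 h3 h4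
    · exact excl_6_1_0 n6 n7 n8 n9 n10 n11 hq b1 b3 c1 c3 (by rw [e1]; simp [rot2]) (by rw [e2]; simp [rot2]) (by rw [e3]; simp [rot2]) (by rw [e4]; simp [rot2]) h1 h2 h3 h4
    · exact excl_6_1_1 n6 n7 n8 n9 n10 n11 hq b1 b3 c1 c3 (by rw [e1]; simp [rot2]) (by rw [e2]; simp [rot2]) (by rw [e3]; simp [rot2]) (by rw [e4]; simp [rot2]) h1 h2 h3 h4
    · exact excl_6_1_2 n6 n7 n8 n9 n10 n11 hq b1 b3 c1 c3 (by rw [e1]; simp [rot2]) (by rw [e2]; simp [rot2]) (by rw [e3]; simp [rot2]) (by rw [e4]; simp [rot2]) h1 h2 h3 h4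
    · exact excl_6_2_0 n6 n7 n8 n9 n10 n11 hq b1 b3 c1 c3 (by rw [e1]; simp [rot2]) (by rw [e2]; simp [rot2]) (by rw [e3]; simp [rot2]) (by rw [e4]; simp [rot2]) h1 h2 h3 h4
    · exact excl_6_2_1 n6 n7 n8 n9 n10 n11 hq b1 b3 c1 c3 (by rw [e1]; simp [rot2]) (by rw [e2]; simp [rot2]) (by rw [e3]; simp [rot2]) (by rw [e4]; simp [rot2]) h1 h2 h3 h4
    · exact excl_6_2_2 n6 n7 n8 n9 n10 n11 hq b1 b3 c1 c3 (by rw [e1]; simp [rot2]) (by rw [e2]; simp [rot2]) (by rw [e3]; simp [rot2]) (by rw [e4]; simp [rot2]) h1 h2 h3 h4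

theorem abs_le_one_of {a b c d : ℝ} (h : a ^ 2 + 3 * b ^ 2 + c ^ 2 + 3 * d ^ 2 = 1) : |a| ≤ 1 ∧ |c| ≤ 1 := by
  have h0 := sq_nonneg a
  have h1 := sq_nonneg b
  have h2 := sq_nonneg c
  have h3 := sq_nonneg d
  constructor <;> apply abs_le_one_iff_mul_self_le_one.mpr <;> nlinarith

theorem disj_core {w : ℕ → ℝ} (hw : Config w) {o g g' : ℕ} (ho : o = 0 ∨ o = 6) (hg : g < 9) (hg' : g' < 9)
    (hne : g ≠ g') (v : ℕ → ℝ) (hv0 : v 0 ≠ 0)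
    (hq : v 1 ^ 2 + 3 * v 2 ^ 2 + v 3 ^ 2 + 3 * v 4 ^ 2 = v 0 ^ 2)
    (h1 : Lf1 w o g v = 0) (h2 : Lf2 w o g v = 0) (h3 : Lf1 w o g' v = 0) (h4 : Lf2 w o g' v = 0) : False := by
  obtain ⟨k1, hk1⟩ : ∃ k, k = (g' / 3 + 3 - g / 3) % 3 := ⟨_, rfl⟩
  obtain ⟨k2, hk2⟩ : ∃ k, k = (g' % 3 + 3 - g % 3) % 3 := ⟨_, rfl⟩
  have hk : ¬(k1 = 0 ∧ k2 = 0) := by
    rintro ⟨r1, r2⟩; apply hne; omega
  obtain ⟨a1, a2⟩ := comp_apply (a := k1) (b := g / 3) (c := g' / 3) (by omega) (by omega) (by omega) (v 1) (v 2)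
  obtain ⟨a3, a4⟩ := comp_apply (a := k2) (b := g % 3) (c := g' % 3) (by omega) (by omega) (by omega) (v 3) (v 4)
  have n1 := rot2_norm (g / 3) (v 1) (v 2)
  have n2 := rot2_norm (g % 3) (v 3) (v 4)
  have n3 := rot2_norm (g' / 3) (v 1) (v 2)
  have n4 := rot2_norm (g' % 3) (v 3) (v 4)
  unfold Lf1 at h1 h3
  unfold Lf2 at h2 h4
  generalize ((rot2 (g / 3)).1 : ℝ) * v 1 + ((rot2 (g / 3)).2.1 : ℝ) * v 2 = x1 at *
  generalize ((rot2 (g / 3)).2.2.1 : ℝ) * v 1 + ((rot2 (g / 3)).2.2.2 : ℝ) * v 2 = x2 at *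
  generalize ((rot2 (g % 3)).1 : ℝ) * v 3 + ((rot2 (g % 3)).2.1 : ℝ) * v 4 = x3 at *
  generalize ((rot2 (g % 3)).2.2.1 : ℝ) * v 3 + ((rot2 (g % 3)).2.2.2 : ℝ) * v 4 = x4 at *
  generalize ((rot2 (g' / 3)).1 : ℝ) * v 1 + ((rot2 (g' / 3)).2.1 : ℝ) * v 2 = y1 at *
  generalize ((rot2 (g' / 3)).2.2.1 : ℝ) * v 1 + ((rot2 (g' / 3)).2.2.2 : ℝ) * v 2 = y2 at *
  generalize ((rot2 (g' % 3)).1 : ℝ) * v 3 + ((rot2 (g' % 3)).2.1 : ℝ) * v 4 = y3 at *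
  generalize ((rot2 (g' % 3)).2.2.1 : ℝ) * v 3 + ((rot2 (g' % 3)).2.2.2 : ℝ) * v 4 = y4 at *
  have hv2 : (2 * v 0) ≠ 0 := mul_ne_zero two_ne_zero hv0
  have hqx : (x1 / (2 * v 0)) ^ 2 + 3 * (x2 / (2 * v 0)) ^ 2 + (x3 / (2 * v 0)) ^ 2 + 3 * (x4 / (2 * v 0)) ^ 2 = 1 := by
    field_simp
    linear_combination n1 + n2 + 4 * hq
  have hqy : (y1 / (2 * v 0)) ^ 2 + 3 * (y2 / (2 * v 0)) ^ 2 + (y3 / (2 * v 0)) ^ 2 + 3 * (y4 / (2 * v 0)) ^ 2 = 1 := by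
    field_simp
    linear_combination n3 + n4 + 4 * hq
  obtain ⟨bx1, bx3⟩ := abs_le_one_of hqx
  obtain ⟨by1, by3⟩ := abs_le_one_of hqy
  refine excl_all hw ho (k1 := k1) (k2 := k2) (by omega) (by omega) hk hqx bx1 bx3
    (by1.trans (by norm_num)) (by3.trans (by norm_num)) (v2 := y2 / (2 * v 0)) (v4 := y4 / (2 * v 0)) ?_ ?_ ?_ ?_ ?_ ?_ ?_ ?_
  · field_simp; linear_combination (-1) * a1
  · field_simp; linear_combination (-1) * a2
  · field_simp; linear_combination (-1) * a3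
  · field_simp; linear_combination (-1) * a4
  · field_simp; linear_combination h1
  · field_simp; linear_combination h2
  · field_simp; linear_combination h3
  · field_simp; linear_combination h4

/-- The circle number `g` of the family `o` (`o = 0` for the first, `o = 6` for the second). -/
def circ (w : ℕ → ℝ) (o g : ℕ) : Set E3 := {x | Lf1 w o g (zeta x) = 0 ∧ Lf2 w o g (zeta x) = 0}

theorem zeta_zero_pos (x : E3) : 0 < zeta x 0 := by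
  show 0 < 1 + nsq x
  have : 0 ≤ nsq x := by unfold nsq; positivity
  linarith

theorem circ_disjoint {w : ℕ → ℝ} (hw : Config w) {o g g' : ℕ} (ho : o = 0 ∨ o = 6) (hg : g < 9) (hg' : g' < 9)
    (hne : g ≠ g') : Disjoint (circ w o g) (circ w o g') := by
  rw [Set.disjoint_left]
  rintro x ⟨h1, h2⟩ ⟨h3, h4⟩
  exact disj_core hw ho hg hg' hne (zeta x) (zeta_zero_pos x).ne'
    (by linear_combination zeta_rel x) h1 h2 h3 h4

theorem Lf1_smul (w : ℕ → ℝ) (o g : ℕ) (t : ℝ) (v : ℕ → ℝ) : Lf1 w o g (fun i => t * v i) = t * Lf1 w o g v := by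
  unfold Lf1; ring
theorem Lf2_smul (w : ℕ → ℝ) (o g : ℕ) (t : ℝ) (v : ℕ → ℝ) : Lf2 w o g (fun i => t * v i) = t * Lf2 w o g v := by
  unfold Lf2; ring

theorem gp_mem {w : ℕ → ℝ} (hw : Config w) {g h : ℕ} (hg : g < 9) (hh : h < 9) :
    gp w (9 * g + h) ∈ circ w 0 g ∧ gp w (9 * g + h) ∈ circ w 6 h := by
  obtain ⟨t, ht, hz⟩ := gp_zeta hw (j := 9 * g + h) (by omega)
  have h2 : zeta (gp w (9 * g + h)) = fun i => t * vr w (9 * g + h) i := funext hz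
  obtain ⟨i1, i2, i3, i4, -⟩ := incidence hw hg hh
  have h3 : (fun i => vr w (9 * g + h) i) = ptv 1 w g h := by
    funext i
    unfold vr
    rw [show (9 * g + h) / 9 = g by omega, show (9 * g + h) % 9 = h by omega]
  have h4 : vr w (9 * g + h) = ptv 1 w g h := h3
  rw [← h4] at i1 i2 i3 i4
  unfold circ
  simp only [Set.mem_ofPred_eq, h2, Lf1_smul, Lf2_smul, i1, i2, i3, i4, mul_zero, and_self]

theorem lin_as_linF (l0 l1 l2 l3 l4 : ℝ) (x : E3) :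
    l0 * zeta x 0 + l1 * zeta x 1 + l2 * zeta x 2 + l3 * zeta x 3 + l4 * zeta x 4
      = linF (l0 + l4 / √3) (2 * l1) (2 * l2 / √3) (2 * l3) (l0 - l4 / √3) x := by
  have h0 := sqrt3_ne
  simp only [zeta, linF, nsq]
  field_simp
  ring

theorem pole_ne {w : ℕ → ℝ} (hw : Config w) {o : ℕ} (ho : o = 0 ∨ o = 6) (g : ℕ) (hg : g < 3) :
    (-2 * w (o + 5) + (((rot2 g).2.2.2 : ℝ) - w (o + 4) * ((rot2 g).2.1 : ℝ)) / √3) ≠ 0 := by
  intro h
  have hs := sqrt3_lo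
  have hs2 := sqrt3_hi
  have hs0 := sqrt3_ne
  have h' : (((rot2 g).2.2.2 : ℝ) - w (o + 4) * ((rot2 g).2.1 : ℝ)) = 2 * (w (o + 5) * √3) := by
    field_simp at h
    linear_combination h
  have a4 := abs_le.mp (near_4 hw)
  have a5 := abs_le.mp (near_5 hw)
  have a10 := abs_le.mp (near_10 hw)
  have a11 := abs_le.mp (near_11 hw)
  have hs3 : |√3| ≤ 2 := by rw [abs_of_pos (by positivity)]; linarith
  have p5 := pb (near_5 hw) hs3
  have p11 := pb (near_11 hw) hs3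
  rcases ho with rfl | rfl
  · interval_cases g
    · simp [rot2] at h'; linarith
    · simp [rot2] at h'; linarith
    · simp [rot2] at h'; linarith
  · interval_cases g
    · simp [rot2] at h'; linarith
    · simp [rot2] at h'; linarith
    · simp [rot2] at h'; linarith

theorem rot2_det (b : ℕ) : ((rot2 b).2.2.1 : ℝ) * ((rot2 b).2.1 : ℝ) - ((rot2 b).2.2.2 : ℝ) * ((rot2 b).1 : ℝ) = -4 := by
  match b with
  | 0 => simp [rot2]; norm_num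
  | 1 => simp [rot2]; norm_num
  | n + 2 => simp [rot2]; norm_num

theorem circ_isCircle {w : ℕ → ℝ} (hw : Config w) {o g : ℕ} (ho : o = 0 ∨ o = 6) (x y : E3) (hxy : x ≠ y)
    (hx : x ∈ circ w o g) (hy : y ∈ circ w o g) : IsCircle (circ w o g) := by
  have hp := pole_ne hw ho (g % 3) (by omega)
  have f1 : ∀ z : E3, Lf1 w o g (zeta z) = linF _ _ _ _ _ z := fun z => by
    rw [← lin_as_linF (-2 * w (o + 2)) (((rot2 (g / 3)).2.2.1 : ℝ) - w o * ((rot2 (g / 3)).1 : ℝ))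
      (((rot2 (g / 3)).2.2.2 : ℝ) - w o * ((rot2 (g / 3)).2.1 : ℝ)) (-w (o + 1) * ((rot2 (g % 3)).1 : ℝ))
      (-w (o + 1) * ((rot2 (g % 3)).2.1 : ℝ)) z]
    unfold Lf1; ring
  have f2 : ∀ z : E3, Lf2 w o g (zeta z) = linF _ _ _ _ _ z := fun z => by
    rw [← lin_as_linF (-2 * w (o + 5)) (-w (o + 3) * ((rot2 (g / 3)).1 : ℝ))
      (-w (o + 3) * ((rot2 (g / 3)).2.1 : ℝ)) (((rot2 (g % 3)).2.2.1 : ℝ) - w (o + 4) * ((rot2 (g % 3)).1 : ℝ))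
      (((rot2 (g % 3)).2.2.2 : ℝ) - w (o + 4) * ((rot2 (g % 3)).2.1 : ℝ)) z]
    unfold Lf2; ring
  obtain ⟨hx1, hx2⟩ := hx
  obtain ⟨hy1, hy2⟩ := hy
  rw [f1] at hx1 hy1
  rw [f2] at hx2 hy2
  have := circle_of_lin _ _ _ _ _ _ _ _ _ _ hp ?_ x y hxy hx1 hx2 hy1 hy2
  · convert this using 1
    ext z
    simp only [circ, Set.mem_ofPred_eq, f1, f2]
  · rintro ⟨q1, q2⟩
    have hs0 := sqrt3_ne
    have hdet := rot2_det (g / 3)
    generalize (-2 * w (o + 5) + (((rot2 (g % 3)).2.2.2 : ℝ) - w (o + 4) * ((rot2 (g % 3)).2.1 : ℝ)) / √3) = α at *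
    apply hp
    have q2' : α * (2 * (((rot2 (g / 3)).2.2.2 : ℝ) - w o * ((rot2 (g / 3)).2.1 : ℝ))) -
        (-2 * w (o + 2) + -w (o + 1) * ((rot2 (g % 3)).2.1 : ℝ) / √3) * (2 * (-w (o + 3) * ((rot2 (g / 3)).2.1 : ℝ))) = 0 := by
      have := congrArg (fun t => t * √3) q2
      simp only [zero_mul] at this
      rw [← this]
      field_simp
    have q3 : α * 8 = 0 := by
      linear_combination ((rot2 (g / 3)).1 : ℝ) * q2' - ((rot2 (g / 3)).2.1 : ℝ) * q1 + 2 * α * hdet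
    linarith

end H537R3.Chess
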