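import Pool.Agent.H537R3.Chess.Check

open Finset

namespace H537R3.Chess

theorem QP.ev_cast (q : QP) (s : ℤ) (z : ℕ → ℤ) :
    ((q.ev s z : ℤ) : ℝ) = q.ev (s : ℝ) (fun k => (z k : ℝ)) := by
  unfold QP.ev
  push_cast [List.map_map]
  simp [Function.comp_def]

theorem QP.der_cast (q : QP) (s : ℤ) (z w : ℕ → ℤ) :
    ((q.der s z w : ℤ) : ℝ) = q.der (s : ℝ) (fun k => (z k : ℝ)) (fun k => (w k : ℝ)) := by
  unfold QP.der
  push_cast [List.map_map]
  simp [Function.comp_def]

theorem QP.ev_scale (q : QP) (s : ℝ) (z : ℕ → ℝ) :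
    q.ev s (fun k => s * z k) = s ^ 2 * q.ev 1 z := by
  obtain ⟨c, lin, quad⟩ := q
  unfold QP.ev
  simp only
  have h1 : (lin.map fun t => (t.1 : ℝ) * (s * (s * z t.2))).sum
      = s ^ 2 * (lin.map fun t => (t.1 : ℝ) * (1 * z t.2)).sum := by
    induction lin with
    | nil => simp
    | cons a l ih => simp only [List.map_cons, List.sum_cons, ih]; ring
  have h2 : (quad.map fun t => (t.1 : ℝ) * (s * z t.2.1 * (s * z t.2.2))).sum
      = s ^ 2 * (quad.map fun t => (t.1 : ℝ) * (z t.2.1 * z t.2.2)).sum := by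
    induction quad with
    | nil => simp
    | cons a l ih => simp only [List.map_cons, List.sum_cons, ih]; ring
  rw [h1, h2]; ring

theorem QP.der_scale (q : QP) (s t : ℝ) (z w : ℕ → ℝ) :
    q.der s (fun k => s * z k) (fun k => t * w k) = s * t * q.der 1 z w := by
  obtain ⟨c, lin, quad⟩ := q
  unfold QP.der
  simp only
  have h1 : (lin.map fun u => (u.1 : ℝ) * (s * (t * w u.2))).sum
      = s * t * (lin.map fun u => (u.1 : ℝ) * (1 * w u.2)).sum := by
    induction lin with
    | nil => simp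
    | cons a l ih => simp only [List.map_cons, List.sum_cons, ih]; ring
  have h2 : (quad.map fun u => (u.1 : ℝ) * (s * z u.2.1 * (t * w u.2.2) + s * z u.2.2 * (t * w u.2.1))).sum
      = s * t * (quad.map fun u => (u.1 : ℝ) * (z u.2.1 * w u.2.2 + z u.2.2 * w u.2.1)).sum := by
    induction quad with
    | nil => simp
    | cons a l ih => simp only [List.map_cons, List.sum_cons, ih]; ring
  rw [h1, h2]; ring

theorem QP.ev_sub (q : QP) (z u v : ℕ → ℝ) :
    q.ev 1 (fun k => z k + u k) - q.ev 1 (fun k => z k + v k)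
      = q.der 1 z (fun k => u k - v k)
        + (q.quad.map fun t => (t.1 : ℝ) * (u t.2.1 * u t.2.2 - v t.2.1 * v t.2.2)).sum := by
  obtain ⟨c, lin, quad⟩ := q
  unfold QP.ev QP.der
  simp only
  have h1 : (lin.map fun t => (t.1 : ℝ) * (1 * (z t.2 + u t.2))).sum
      - (lin.map fun t => (t.1 : ℝ) * (1 * (z t.2 + v t.2))).sum
      = (lin.map fun t => (t.1 : ℝ) * (1 * (u t.2 - v t.2))).sum := by
    induction lin with
    | nil => simp
    | cons a l ih => simp only [List.map_cons, List.sum_cons]; linarith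
  have h2 : (quad.map fun t => (t.1 : ℝ) * ((z t.2.1 + u t.2.1) * (z t.2.2 + u t.2.2))).sum
      - (quad.map fun t => (t.1 : ℝ) * ((z t.2.1 + v t.2.1) * (z t.2.2 + v t.2.2))).sum
      = (quad.map fun t => (t.1 : ℝ) * (z t.2.1 * (u t.2.2 - v t.2.2) + z t.2.2 * (u t.2.1 - v t.2.1))).sum
        + (quad.map fun t => (t.1 : ℝ) * (u t.2.1 * u t.2.2 - v t.2.1 * v t.2.2)).sum := by
    induction quad with
    | nil => simp
    | cons a l ih => simp only [List.map_cons, List.sum_cons]; linarith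
  linarith

theorem quad_bound (quad : List (ℤ × ℕ × ℕ)) (u v : ℕ → ℝ) (a b : ℝ) (hb : 0 ≤ b)
    (hu : ∀ k, |u k| ≤ a) (hv : ∀ k, |v k| ≤ a) (huv : ∀ k, |u k - v k| ≤ b) :
    |(quad.map fun t => (t.1 : ℝ) * (u t.2.1 * u t.2.2 - v t.2.1 * v t.2.2)).sum|
      ≤ (((quad.map fun t => |t.1|).sum : ℤ) : ℝ) * (2 * a * b) := by
  have ha : 0 ≤ a := (abs_nonneg _).trans (hu 0)
  induction quad with
  | nil => simp
  | cons t l ih =>
    simp only [List.map_cons, List.sum_cons]
    have h1 : |u t.2.1 * u t.2.2 - v t.2.1 * v t.2.2| ≤ 2 * a * b := by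
      have e : u t.2.1 * u t.2.2 - v t.2.1 * v t.2.2
          = u t.2.1 * (u t.2.2 - v t.2.2) + (u t.2.1 - v t.2.1) * v t.2.2 := by ring
      rw [e]
      refine (abs_add_le _ _).trans ?_
      rw [abs_mul, abs_mul]
      have := mul_le_mul (hu t.2.1) (huv t.2.2) (abs_nonneg _) ha
      have := mul_le_mul (huv t.2.1) (hv t.2.2) (abs_nonneg _) hb
      linarith
    refine (abs_add_le _ _).trans ?_
    rw [abs_mul]
    push_cast
    have h2 : |(t.1 : ℝ)| * |u t.2.1 * u t.2.2 - v t.2.1 * v t.2.2| ≤ |(t.1 : ℝ)| * (2 * a * b) :=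
      mul_le_mul_of_nonneg_left h1 (abs_nonneg _)
    push_cast at ih
    linarith

theorem QP.der_linear {n : ℕ} (q : QP) (z : ℕ → ℝ) (Y : ℕ → Fin n → ℝ) (d : Fin n → ℝ) :
    q.der 1 z (fun k => ∑ j, Y k j * d j) = ∑ j, q.der 1 z (fun k => Y k j) * d j := by
  obtain ⟨c, lin, quad⟩ := q
  unfold QP.der
  simp only [add_mul, Finset.sum_add_distrib]
  congr 1
  · induction lin with
    | nil => simp
    | cons a l ih =>
      simp only [List.map_cons, List.sum_cons]
      rw [ih]
      simp only [add_mul, Finset.sum_add_distrib]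
      congr 1
      simp only [Finset.mul_sum]
      refine Finset.sum_congr rfl fun j _ => by ring
  · induction quad with
    | nil => simp
    | cons a l ih =>
      simp only [List.map_cons, List.sum_cons]
      rw [ih]
      simp only [add_mul, Finset.sum_add_distrib]
      congr 1
      rw [Finset.mul_sum, Finset.mul_sum, ← Finset.sum_add_distrib, Finset.mul_sum]
      refine Finset.sum_congr rfl fun j _ => by ring

/-- A Newton-Kantorovich statement for quadratic systems with integer coefficients. -/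
theorem nk {n : ℕ} (qs : Fin n → QP) (z : ℕ → ℝ) (Y : ℕ → Fin n → ℝ) (N ε : ℝ) (hε : 0 < ε)
    (hN : ∀ k, ∑ j, |Y k j| ≤ N) (hN0 : 0 ≤ N)
    (h1 : ∀ i, (∑ j, |(qs i).der 1 z (fun k => Y k j) - if i = j then 1 else 0|)
      + (muSum (qs i) : ℝ) * (2 * (N * ε) * N) ≤ 1 / 2)
    (h0 : ∀ i, |(qs i).ev 1 z| ≤ ε / 2) :
    ∃ w : ℕ → ℝ, (∀ i, (qs i).ev 1 w = 0) ∧ ∀ k, |w k - z k| ≤ N * ε := by
  set U : (Fin n → ℝ) → ℕ → ℝ := fun x k => ∑ j, Y k j * x j with hU
  set f : (Fin n → ℝ) → (Fin n → ℝ) := fun x i => (qs i).ev 1 (fun k => z k + U x k) with hf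
  set T : (Fin n → ℝ) → (Fin n → ℝ) := fun x => x - f x with hT
  have hUb : ∀ x k, |U x k| ≤ N * ‖x‖ := by
    intro x k
    simp only [hU]
    calc |∑ j, Y k j * x j| ≤ ∑ j, |Y k j * x j| := Finset.abs_sum_le_sum_abs _ _
      _ ≤ ∑ j, |Y k j| * ‖x‖ := by
          refine Finset.sum_le_sum fun j _ => ?_
          rw [abs_mul]
          exact mul_le_mul_of_nonneg_left (by simpa using norm_le_pi_norm x j) (abs_nonneg _)
      _ = (∑ j, |Y k j|) * ‖x‖ := by rw [Finset.sum_mul]
      _ ≤ N * ‖x‖ := mul_le_mul_of_nonneg_right (hN k) (norm_nonneg _)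
  have hUsub : ∀ x y k, U x k - U y k = U (x - y) k := by
    intro x y k
    simp only [hU, Pi.sub_apply, mul_sub, Finset.sum_sub_distrib]
  have hlip : ∀ x y : Fin n → ℝ, ‖x‖ ≤ ε → ‖y‖ ≤ ε → ‖T x - T y‖ ≤ 1 / 2 * ‖x - y‖ := by
    intro x y hx hy
    rw [pi_norm_le_iff_of_nonneg (by positivity)]
    intro i
    simp only [hT, Pi.sub_apply, Real.norm_eq_abs]
    have e1 : f x i - f y i = ∑ j, (qs i).der 1 z (fun k => Y k j) * (x - y) j
        + ((qs i).quad.map fun t => (t.1 : ℝ) * (U x t.2.1 * U x t.2.2 - U y t.2.1 * U y t.2.2)).sum := by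
      simp only [hf]
      rw [QP.ev_sub]
      congr 1
      rw [← QP.der_linear]
      congr 1
      funext k
      exact hUsub x y k
    have e2 : (x i - f x i) - (y i - f y i) = -(∑ j, ((qs i).der 1 z (fun k => Y k j) - if i = j then 1 else 0) * (x - y) j)
        - ((qs i).quad.map fun t => (t.1 : ℝ) * (U x t.2.1 * U x t.2.2 - U y t.2.1 * U y t.2.2)).sum := by
      have : ∑ j, ((qs i).der 1 z (fun k => Y k j) - if i = j then 1 else 0) * (x - y) j
          = ∑ j, (qs i).der 1 z (fun k => Y k j) * (x - y) j - (x - y) i := by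
        simp only [sub_mul, Finset.sum_sub_distrib]
        congr 1
        simp
      rw [this]
      simp only [Pi.sub_apply] at e1 ⊢
      linarith
    rw [e2]
    have b1 : |∑ j, ((qs i).der 1 z (fun k => Y k j) - if i = j then 1 else 0) * (x - y) j|
        ≤ (∑ j, |(qs i).der 1 z (fun k => Y k j) - if i = j then 1 else 0|) * ‖x - y‖ := by
      rw [Finset.sum_mul]
      refine (Finset.abs_sum_le_sum_abs _ _).trans (Finset.sum_le_sum fun j _ => ?_)
      rw [abs_mul]
      exact mul_le_mul_of_nonneg_left (by simpa using norm_le_pi_norm (x - y) j) (abs_nonneg _)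
    have b2 := quad_bound (qs i).quad (U x) (U y) (N * ε) (N * ‖x - y‖) (by positivity)
      (fun k => (hUb x k).trans (mul_le_mul_of_nonneg_left hx hN0))
      (fun k => (hUb y k).trans (mul_le_mul_of_nonneg_left hy hN0))
      (fun k => by rw [hUsub]; exact hUb _ _)
    calc |_ - _| ≤ |-(∑ j, ((qs i).der 1 z (fun k => Y k j) - if i = j then 1 else 0) * (x - y) j)|
          + |((qs i).quad.map fun t => (t.1 : ℝ) * (U x t.2.1 * U x t.2.2 - U y t.2.1 * U y t.2.2)).sum| :=
            abs_sub _ _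
      _ ≤ (∑ j, |(qs i).der 1 z (fun k => Y k j) - if i = j then 1 else 0|) * ‖x - y‖
          + (muSum (qs i) : ℝ) * (2 * (N * ε) * (N * ‖x - y‖)) := by
            rw [abs_neg]; exact add_le_add b1 b2
      _ = ((∑ j, |(qs i).der 1 z (fun k => Y k j) - if i = j then 1 else 0|)
            + (muSum (qs i) : ℝ) * (2 * (N * ε) * N)) * ‖x - y‖ := by ring
      _ ≤ 1 / 2 * ‖x - y‖ := mul_le_mul_of_nonneg_right (h1 i) (norm_nonneg _)
  have hT0 : ‖T 0‖ ≤ ε / 2 := by
    rw [pi_norm_le_iff_of_nonneg (by positivity)]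
    intro i
    have : T 0 i = -(qs i).ev 1 z := by simp [hT, hf, hU]
    rw [this, norm_neg]
    exact h0 i
  have hmaps : Set.MapsTo T (Metric.closedBall 0 ε) (Metric.closedBall 0 ε) := by
    intro x hx
    rw [mem_closedBall_zero_iff] at hx ⊢
    have h2 := hlip x 0 hx (by simpa using hε.le)
    have h3 : ‖T x‖ ≤ ‖T x - T 0‖ + ‖T 0‖ := by
      simpa using norm_add_le (T x - T 0) (T 0)
    rw [sub_zero] at h2
    linarith
  have hcontr : ContractingWith (1 / 2 : NNReal) (hmaps.restrict T _ _) := by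
    refine ⟨by norm_num, LipschitzWith.of_dist_le_mul fun x y => ?_⟩
    have := hlip x.1 y.1 (mem_closedBall_zero_iff.mp x.2) (mem_closedBall_zero_iff.mp y.2)
    rw [Subtype.dist_eq, Subtype.dist_eq, dist_eq_norm, dist_eq_norm]
    simpa using this
  obtain ⟨y, hy, hfix, -⟩ := hcontr.exists_fixedPoint' Metric.isClosed_closedBall.isComplete hmaps
    (x := 0) (by simpa using hε.le) (edist_ne_top _ _)
  have hfy : f y = 0 := by
    have : T y = y := hfix
    simp only [hT] at this
    have h := sub_eq_self.mp this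
    exact h
  refine ⟨fun k => z k + U y k, fun i => congrFun hfy i, fun k => ?_⟩
  have hy' : ‖y‖ ≤ ε := by simpa using hy
  have : z k + U y k - z k = U y k := by ring
  rw [this]
  exact (hUb y k).trans (mul_le_mul_of_nonneg_left hy' hN0)

end H537R3.Chess
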