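import Pool.Agent.H537R3.Chess.StarDefs
import Pool.Agent.H537R3.Chess.NK

open Finset

namespace H537R3.Chess

theorem starCheck_0 : (List.range' 0 14).all starCheck = true := by decide +kernel
theorem starCheck_1 : (List.range' 14 14).all starCheck = true := by decide +kernel
theorem starCheck_2 : (List.range' 28 14).all starCheck = true := by decide +kernel
theorem starCheck_3 : (List.range' 42 13).all starCheck = true := by decide +kernel
theorem ptCheck_all : (List.range 81).all ptCheck = true := by decide +kernel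

theorem starCheck_all (i : ℕ) (hi : i < 55) : starCheck i = true := by
  have h0 := starCheck_0
  have h1 := starCheck_1
  have h2 := starCheck_2
  have h3 := starCheck_3
  rw [List.all_eq_true] at h0 h1 h2 h3
  rcases lt_or_ge i 14 with h | h
  · exact h0 i (by rw [List.mem_range'_1]; omega)
  rcases lt_or_ge i 28 with h | h
  · exact h1 i (by rw [List.mem_range'_1]; omega)
  rcases lt_or_ge i 42 with h | h
  · exact h2 i (by rw [List.mem_range'_1]; omega)
  · exact h3 i (by rw [List.mem_range'_1]; omega)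

theorem sum_range_map' {M : Type*} [AddCommMonoid M] (f : ℕ → M) (n : ℕ) :
    ((List.range n).map f).sum = ∑ j : Fin n, f j := by
  induction n with
  | zero => simp
  | succ n ih => rw [List.range_succ, List.map_append, List.sum_append, ih, Fin.sum_univ_castSucc]; simp

theorem dot_map (f : ℕ → ℤ) : ∀ (n a : ℕ) (l : List ℤ),
    dot l ((List.range' a n).map f) = ∑ j : Fin n, l.getD j 0 * f (a + j)
  | 0, a, l => by cases l <;> simp [dot]
  | n + 1, a, [] => by simp [dot]
  | n + 1, a, x :: l => by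
    rw [List.range'_succ, List.map_cons, dot, dot_map f n (a + 1) l, Fin.sum_univ_succ]
    simp only [Fin.val_zero, List.getD_cons_zero, add_zero, Fin.val_succ, List.getD_cons_succ]
    congr 1
    refine Finset.sum_congr rfl fun j _ => ?_
    rw [show a + 1 + (j : ℕ) = a + ((j : ℕ) + 1) by ring]

theorem ptv_scale (t s : ℝ) (z : ℕ → ℝ) (g h i : ℕ) :
    ptv (t * s) (fun k => t * z k) g h i = t * ptv s z g h i := by
  unfold ptv
  dsimp only
  split <;> ring

theorem ptv_cast (s : ℤ) (z : ℕ → ℤ) (g h i : ℕ) :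
    ((ptv s z g h i : ℤ) : ℝ) = ptv (s : ℝ) (fun k => (z k : ℝ)) g h i := by
  unfold ptv
  dsimp only
  split <;> push_cast <;> ring

theorem rot2_bound (n : ℕ) : |((rot2 n).1 : ℝ)| + |((rot2 n).2.1 : ℝ)| ≤ 4 ∧
    |((rot2 n).2.2.1 : ℝ)| + |((rot2 n).2.2.2 : ℝ)| ≤ 4 := by
  match n with
  | 0 => simp [rot2]; norm_num
  | 1 => simp [rot2]; norm_num
  | n + 2 => simp [rot2]; norm_num

theorem ptv_err (z w : ℕ → ℝ) (e : ℝ) (h : ∀ k, |w k - z k| ≤ e) (g h' i : ℕ) :
    |ptv 1 w g h' i - ptv 1 z g h' i| ≤ 4 * e := by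
  have he : 0 ≤ e := (abs_nonneg _).trans (h 0)
  have key : ∀ (a b : ℝ) (p q : ℕ), |a| + |b| ≤ 4 →
      |(a * w p + b * w q) - (a * z p + b * z q)| ≤ 4 * e := by
    intro a b p q hab
    have e1 : (a * w p + b * w q) - (a * z p + b * z q) = a * (w p - z p) + b * (w q - z q) := by ring
    rw [e1]
    refine (abs_add_le _ _).trans ?_
    rw [abs_mul, abs_mul]
    have h1 := mul_le_mul_of_nonneg_left (h p) (abs_nonneg a)
    have h2 := mul_le_mul_of_nonneg_left (h q) (abs_nonneg b)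
    have h3 := mul_le_mul_of_nonneg_right hab he
    linarith
  unfold ptv
  dsimp only
  split
  · simpa using he
  · exact key _ _ _ _ (rot2_bound _).1
  · exact key _ _ _ _ (rot2_bound _).2
  · exact key _ _ _ _ (rot2_bound _).1
  · exact key _ _ _ _ (rot2_bound _).2

theorem mul_err {a a' b b' A B e f : ℝ} (ha : |a| ≤ A) (hb' : |b'| ≤ B)
    (h1 : |a - a'| ≤ e) (h2 : |b - b'| ≤ f) : |a * b - a' * b'| ≤ A * f + e * B := by
  have e1 : a * b - a' * b' = a * (b - b') + (a - a') * b' := by ring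
  rw [e1]
  refine (abs_add_le _ _).trans ?_
  rw [abs_mul, abs_mul]
  have := mul_le_mul ha h2 (abs_nonneg _) ((abs_nonneg _).trans ha)
  have := mul_le_mul h1 hb' (abs_nonneg _) ((abs_nonneg _).trans h1)
  linarith

theorem mono_err (v w : ℕ → ℝ) (e : ℝ) (hv : ∀ i, |v i| ≤ 3) (hw : ∀ i, |w i| ≤ 3)
    (h : ∀ i, |v i - w i| ≤ e) (m : ℕ × ℕ × ℕ × ℕ) : |mono m v - mono m w| ≤ 108 * e := by
  unfold mono
  have h1 := mul_err (hv m.1) (hw m.2.1) (h m.1) (h m.2.1)
  have b1 : |v m.1 * v m.2.1| ≤ 9 := by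
    rw [abs_mul]
    nlinarith [hv m.1, hv m.2.1, abs_nonneg (v m.1), abs_nonneg (v m.2.1)]
  have h2 := mul_err b1 (hw m.2.2.1) h1 (h m.2.2.1)
  have b2 : |v m.1 * v m.2.1 * v m.2.2.1| ≤ 27 := by
    rw [abs_mul]
    nlinarith [hv m.2.2.1, abs_nonneg (v m.1 * v m.2.1), abs_nonneg (v m.2.2.1)]
  have h3 := mul_err b2 (hw m.2.2.2) h2 (h m.2.2.2)
  linarith

def vr (w : ℕ → ℝ) (j : ℕ) (i : ℕ) : ℝ := ptv (1 : ℝ) w (j / 9) (j % 9) i


theorem vz_cast (j i : ℕ) : ((vz j i : ℤ) : ℝ) = 10 ^ 12 * vr (fun k => (zf k : ℝ) / 10 ^ 12) j i := by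
  unfold vz vr
  rw [ptv_cast, ← ptv_scale]
  congr 1
  · push_cast; norm_num
  · funext k; field_simp

theorem mono_scale (m : ℕ × ℕ × ℕ × ℕ) (t : ℝ) (v : ℕ → ℝ) :
    mono m (fun i => t * v i) = t ^ 4 * mono m v := by
  unfold mono; ring

theorem mono_cast (m : ℕ × ℕ × ℕ × ℕ) (v : ℕ → ℤ) :
    ((mono m v : ℤ) : ℝ) = mono m (fun i => (v i : ℝ)) := by
  unfold mono; push_cast; rfl

/-- No nonzero combination of the 55 monomials vanishes at the 81 points. -/
theorem star_inj (w : ℕ → ℝ) (hw : ∀ k, |w k - (zf k : ℝ) / 10 ^ 12| ≤ 5 / 10 ^ 10)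
    (c : Fin 55 → ℝ) (h : ∀ j < 81, ∑ k : Fin 55, c k * mono (mk k) (vr w j) = 0) : c = 0 := by
  set z : ℕ → ℝ := fun k => (zf k : ℝ) / 10 ^ 12 with hz
  -- bounds
  have hb : ∀ j < 81, ∀ i, |vr z j i| ≤ 2 := by
    intro j hj i
    have h1 := ptCheck_all
    rw [List.all_eq_true] at h1
    have h2 := h1 j (List.mem_range.mpr hj)
    have hi : ∃ i' < 5, vr z j i = vr z j i' := by
      rcases lt_or_ge i 5 with hi | hi
      · exact ⟨i, hi, rfl⟩
      · refine ⟨4, by norm_num, ?_⟩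
        obtain ⟨m, rfl⟩ : ∃ m, i = m + 5 := ⟨i - 5, by omega⟩
        rfl
    obtain ⟨i', hi', he⟩ := hi
    rw [he]
    simp only [ptCheck] at h2
    rw [List.all_eq_true] at h2
    have h3 := h2 i' (List.mem_range.mpr hi')
    simp only [decide_eq_true_eq] at h3
    have h4 : ((|vz j i'| : ℤ) : ℝ) ≤ ((2 * 10 ^ 12 : ℤ) : ℝ) := by exact_mod_cast h3
    rw [Int.cast_abs, vz_cast, abs_mul, abs_of_pos (show (0:ℝ) < 10 ^ 12 by norm_num),
      show ((2 * 10 ^ 12 : ℤ) : ℝ) = 10 ^ 12 * 2 by norm_num] at h4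
    exact le_of_mul_le_mul_left h4 (by norm_num)
  have hd : ∀ j i, |vr w j i - vr z j i| ≤ 2 / 10 ^ 9 := by
    intro j i
    have := ptv_err z w (5 / 10 ^ 10) hw (j / 9) (j % 9) i
    refine this.trans (by norm_num)
  have hm : ∀ j < 81, ∀ k, |mono (mk k) (vr w j) - mono (mk k) (vr z j)| ≤ 108 * (2 / 10 ^ 9) := by
    intro j hj k
    refine mono_err _ _ _ (fun i => ?_) (fun i => (hb j hj i).trans (by norm_num)) (hd j) _
    have h1 := hb j hj i
    have h2 := hd j i
    have h3 : |vr w j i| ≤ |vr w j i - vr z j i| + |vr z j i| := by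
      simpa using abs_add_le (vr w j i - vr z j i) (vr z j i)
    have : (2 / 10 ^ 9 : ℝ) ≤ 1 := by norm_num
    linarith
  -- the maximal coefficient
  by_contra hc
  obtain ⟨i, -, hi⟩ := Finset.exists_max_image Finset.univ (fun i => |c i|) ⟨(0 : Fin 55), Finset.mem_univ _⟩
  have hpos : 0 < |c i| := by
    rcases (abs_nonneg (c i)).lt_or_eq with h1 | h1
    · exact h1
    · exfalso; apply hc; funext k
      have := hi k (Finset.mem_univ _)
      rw [← h1] at this
      simpa using this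
  set Y : Fin 81 → ℝ := fun j => (((ystar.getD i []).getD j 0 : ℤ) : ℝ) with hY
  have hcheck := starCheck_all i i.2
  simp only [starCheck, Bool.and_eq_true, decide_eq_true_eq] at hcheck
  obtain ⟨hc1, hc2⟩ := hcheck
  have hYn : ∑ j, |Y j| ≤ 2 * 10 ^ 7 := by
    rw [starNorm, sum_range_map'] at hc2
    have : ((∑ j : Fin 81, |(ystar.getD i []).getD j 0| : ℤ) : ℝ) ≤ ((2 * 10 ^ 7 : ℤ) : ℝ) := by
      exact_mod_cast hc2
    have h5 : ∑ j, |Y j| = ((∑ j : Fin 81, |(ystar.getD i []).getD j 0| : ℤ) : ℝ) := by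
      rw [Int.cast_sum]
      refine Finset.sum_congr rfl fun j _ => ?_
      rw [Int.cast_abs]
    rw [h5]
    exact this.trans (by norm_num)
  have hE : ∑ k : Fin 55, |∑ j : Fin 81, Y j * mono (mk k) (vr z j) - if i = k then 16 * 10 ^ 3 else 0|
      ≤ 16 * 10 ^ 2 := by
    rw [starErr, sum_range_map'] at hc1
    have h1 : ((∑ k : Fin 55, |dot (ystar.getD i []) (mcols.getD k []) - if (i : ℕ) = (k : ℕ) then 16 * 10 ^ 51 else 0| : ℤ) : ℝ)
        ≤ ((16 * 10 ^ 50 : ℤ) : ℝ) := by exact_mod_cast hc1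
    rw [Int.cast_sum] at h1
    have h2 : ∀ k : Fin 55, ((|dot (ystar.getD i []) (mcols.getD k []) - if (i : ℕ) = (k : ℕ) then 16 * 10 ^ 51 else 0| : ℤ) : ℝ)
        = 10 ^ 48 * |∑ j : Fin 81, Y j * mono (mk k) (vr z j) - if i = k then 16 * 10 ^ 3 else 0| := by
      intro k
      have hk : mcols.getD k [] = (List.range' 0 81).map fun j => mono (mk k) (vz j) := by
        have hlen : monos.length = 55 := by decide
        rw [mcols, List.getD_eq_getElem _ _ (by rw [List.length_map, hlen]; exact k.2), List.getElem_map]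
        congr 1
        funext j
        rw [mk, List.getD_eq_getElem _ _ (by rw [hlen]; exact k.2)]
      rw [hk, dot_map, Int.cast_abs, Int.cast_sub, Int.cast_sum]
      rw [show (10 : ℝ) ^ 48 = |(10 : ℝ) ^ 48| by norm_num, ← abs_mul, mul_sub, Finset.mul_sum]
      congr 2
      · refine Finset.sum_congr rfl fun j _ => ?_
        rw [Int.cast_mul, mono_cast, zero_add]
        have : (fun i' => ((vz j i' : ℤ) : ℝ)) = fun i' => 10 ^ 12 * vr z j i' := by
          funext i'; exact vz_cast j i'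
        rw [this, mono_scale]
        simp only [hY]
        ring
      · by_cases hik : i = k
        · simp only [hik, if_true]; push_cast; ring
        · have : (i : ℕ) ≠ (k : ℕ) := fun h => hik (Fin.ext h)
          simp only [hik, this, if_false]; simp
    rw [Finset.sum_congr rfl fun k _ => h2 k, ← Finset.mul_sum] at h1
    have h3 : ((16 * 10 ^ 50 : ℤ) : ℝ) = 10 ^ 48 * (16 * 10 ^ 2) := by norm_num
    rw [h3] at h1
    exact le_of_mul_le_mul_left h1 (by norm_num)
  -- combination of the equations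
  have hsum : ∑ k : Fin 55, c k * ∑ j : Fin 81, Y j * mono (mk k) (vr w j) = 0 := by
    have : ∑ k : Fin 55, c k * ∑ j : Fin 81, Y j * mono (mk k) (vr w j)
        = ∑ j : Fin 81, Y j * ∑ k : Fin 55, c k * mono (mk k) (vr w j) := by
      simp_rw [Finset.mul_sum]
      rw [Finset.sum_comm]
      refine Finset.sum_congr rfl fun j _ => Finset.sum_congr rfl fun k _ => by ring
    rw [this]
    refine Finset.sum_eq_zero fun j _ => ?_
    rw [h j j.2, mul_zero]
  have hci : c i * (16 * 10 ^ 3) = -(∑ k : Fin 55, c k * (∑ j : Fin 81, Y j * mono (mk k) (vr z j) - if i = k then 16 * 10 ^ 3 else 0))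
      - ∑ k : Fin 55, c k * ∑ j : Fin 81, Y j * (mono (mk k) (vr w j) - mono (mk k) (vr z j)) := by
    have e1 : ∑ k : Fin 55, c k * (∑ j : Fin 81, Y j * mono (mk k) (vr z j) - if i = k then 16 * 10 ^ 3 else 0)
        = ∑ k : Fin 55, c k * ∑ j : Fin 81, Y j * mono (mk k) (vr z j) - c i * (16 * 10 ^ 3) := by
      simp_rw [mul_sub]
      rw [Finset.sum_sub_distrib]
      congr 1
      simp
    have e2 : ∑ k : Fin 55, c k * ∑ j : Fin 81, Y j * (mono (mk k) (vr w j) - mono (mk k) (vr z j))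
        = ∑ k : Fin 55, c k * ∑ j : Fin 81, Y j * mono (mk k) (vr w j)
          - ∑ k : Fin 55, c k * ∑ j : Fin 81, Y j * mono (mk k) (vr z j) := by
      simp_rw [mul_sub, Finset.sum_sub_distrib, mul_sub, Finset.sum_sub_distrib]
    rw [e1, e2, hsum]; ring
  have hle : ∀ k, |c k| ≤ |c i| := fun k => hi k (Finset.mem_univ _)
  have hA : |∑ k : Fin 55, c k * (∑ j : Fin 81, Y j * mono (mk k) (vr z j) - if i = k then 16 * 10 ^ 3 else 0)|
      ≤ |c i| * (16 * 10 ^ 2) := by
    refine (Finset.abs_sum_le_sum_abs _ _).trans ?_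
    refine le_trans ?_ (mul_le_mul_of_nonneg_left hE (abs_nonneg (c i)))
    rw [Finset.mul_sum]
    refine Finset.sum_le_sum fun k _ => ?_
    rw [abs_mul]
    exact mul_le_mul_of_nonneg_right (hle k) (abs_nonneg _)
  have hB : |∑ k : Fin 55, c k * ∑ j : Fin 81, Y j * (mono (mk k) (vr w j) - mono (mk k) (vr z j))|
      ≤ |c i| * (55 * (2 * 10 ^ 7 * (108 * (2 / 10 ^ 9)))) := by
    refine (Finset.abs_sum_le_sum_abs _ _).trans ?_
    have : ∀ k : Fin 55, |c k * ∑ j : Fin 81, Y j * (mono (mk k) (vr w j) - mono (mk k) (vr z j))|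
        ≤ |c i| * (2 * 10 ^ 7 * (108 * (2 / 10 ^ 9))) := by
      intro k
      rw [abs_mul]
      refine mul_le_mul (hle k) ?_ (abs_nonneg _) (abs_nonneg _)
      refine (Finset.abs_sum_le_sum_abs _ _).trans ?_
      calc ∑ j : Fin 81, |Y j * (mono (mk k) (vr w j) - mono (mk k) (vr z j))|
          ≤ ∑ j : Fin 81, |Y j| * (108 * (2 / 10 ^ 9)) := by
            refine Finset.sum_le_sum fun j _ => ?_
            rw [abs_mul]
            exact mul_le_mul_of_nonneg_left (hm j j.2 k) (abs_nonneg _)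
        _ = (∑ j : Fin 81, |Y j|) * (108 * (2 / 10 ^ 9)) := by rw [Finset.sum_mul]
        _ ≤ _ := mul_le_mul_of_nonneg_right hYn (by norm_num)
    refine (Finset.sum_le_sum fun k _ => this k).trans ?_
    rw [Finset.sum_const, Finset.card_univ, Fintype.card_fin, nsmul_eq_mul]
    apply le_of_eq; push_cast; ring
  have hfin : |c i| * (16 * 10 ^ 3) ≤ |c i| * (16 * 10 ^ 2) + |c i| * (55 * (2 * 10 ^ 7 * (108 * (2 / 10 ^ 9)))) := by
    calc |c i| * (16 * 10 ^ 3) = |c i * (16 * 10 ^ 3)| := by rw [abs_mul]; norm_num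
      _ ≤ _ := by
        rw [hci]
        refine (abs_sub _ _).trans ?_
        rw [abs_neg]
        exact add_le_add hA hB
  have : (55 * (2 * 10 ^ 7 * (108 * (2 / 10 ^ 9))) : ℝ) ≤ 1000 := by norm_num
  nlinarith

end H537R3.Chess
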