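import Pool.Agent.H537R3.Chess.Basis
import Pool.Agent.H537R3.Chess.Star
import Pool.Agent.H537R3.Chess.Exist

namespace H537R3.Chess

/-- Inverse of `zeta` (stereographic projection). -/
noncomputable def toE3 (v : ℕ → ℝ) : E3 :=
  !₂[v 1 / (v 0 - √3 * v 4), √3 * v 2 / (v 0 - √3 * v 4), v 3 / (v 0 - √3 * v 4)]

theorem zeta_toE3 (v : ℕ → ℝ) (hq : v 1 ^ 2 + 3 * v 2 ^ 2 + v 3 ^ 2 + 3 * v 4 ^ 2 = v 0 ^ 2)
    (hd : v 0 - √3 * v 4 ≠ 0) (hv : ∀ n, v (n + 4) = v 4) (i : ℕ) :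
    zeta (toE3 v) i = (2 / (v 0 - √3 * v 4)) * v i := by
  have h3 := sqrt3_sq
  have h30 := sqrt3_ne
  have hn : nsq (toE3 v) = (v 0 + √3 * v 4) / (v 0 - √3 * v 4) := by
    have e0 : (toE3 v) 0 = v 1 / (v 0 - √3 * v 4) := rfl
    have e1 : (toE3 v) 1 = √3 * v 2 / (v 0 - √3 * v 4) := rfl
    have e2 : (toE3 v) 2 = v 3 / (v 0 - √3 * v 4) := rfl
    rw [nsq, e0, e1, e2]
    field_simp
    linear_combination hq + (v 2 ^ 2 + v 4 ^ 2) * h3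
  match i with
  | 0 =>
    show 1 + nsq (toE3 v) = _
    rw [hn]; field_simp; ring
  | 1 =>
    show 2 * (v 1 / (v 0 - √3 * v 4)) = _
    field_simp
  | 2 =>
    show 2 * (√3 * v 2 / (v 0 - √3 * v 4)) / √3 = _
    field_simp
  | 3 =>
    show 2 * (v 3 / (v 0 - √3 * v 4)) = _
    field_simp
  | n + 4 =>
    show (nsq (toE3 v) - 1) / √3 = _
    rw [hn, hv n]; field_simp; ring

theorem vr_succ (w : ℕ → ℝ) (j n : ℕ) : vr w j (n + 4) = vr w j 4 := rfl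

def poleCheck (j : ℕ) : Bool := decide (vz j 4 ≤ 107 * 10 ^ 10)
theorem poleCheck_all : (List.range 81).all poleCheck = true := by decide +kernel

structure Config (w : ℕ → ℝ) : Prop where
  near : ∀ k, |w k - (zf k : ℝ) / 10 ^ 12| ≤ 5 / 10 ^ 10
  eq : ∀ g < 9, ∀ q ∈ eqns g, q.ev 1 w = 0

theorem exists_Config : ∃ w, Config w := by
  obtain ⟨w, h1, h2⟩ := exists_config
  exact ⟨w, h2, h1⟩

theorem den_pos {w : ℕ → ℝ} (hw : Config w) {j : ℕ} (hj : j < 81) : 0 < vr w j 0 - √3 * vr w j 4 := by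
  have h0 : vr w j 0 = 2 := by simp [vr, ptv]
  have h1 := poleCheck_all
  rw [List.all_eq_true] at h1
  have h2 := h1 j (List.mem_range.mpr hj)
  simp only [poleCheck, decide_eq_true_eq] at h2
  have h3 : ((vz j 4 : ℤ) : ℝ) ≤ ((107 * 10 ^ 10 : ℤ) : ℝ) := by exact_mod_cast h2
  rw [vz_cast] at h3
  have h4 := ptv_err _ w (5 / 10 ^ 10) hw.near (j / 9) (j % 9) 4
  have h5 : |vr w j 4 - vr (fun k => (zf k : ℝ) / 10 ^ 12) j 4| ≤ 4 * (5 / 10 ^ 10) := h4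
  have h6 := (abs_le.mp h5).2
  have h7 : vr (fun k => (zf k : ℝ) / 10 ^ 12) j 4 ≤ 107 / 100 := by
    have : ((107 * 10 ^ 10 : ℤ) : ℝ) = 10 ^ 12 * (107 / 100) := by norm_num
    rw [this] at h3
    exact le_of_mul_le_mul_left h3 (by norm_num)
  have h8 : vr w j 4 ≤ 108 / 100 := by
    have : (4 * (5 / 10 ^ 10) : ℝ) ≤ 1 / 100 := by norm_num
    linarith
  have h9 : √3 ≤ 1.7321 := by
    rw [Real.sqrt_le_left (by norm_num)]; norm_num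
  rw [h0]
  have h10 : (0 : ℝ) < √3 := by positivity
  nlinarith

theorem config_eqs {w : ℕ → ℝ} (hw : Config w) {k : ℕ} (hk : k < 9) :
    w (12 + 4 * k + 1) = w 0 * w (12 + 4 * k) + w 1 * w (12 + 4 * k + 2) + w 2 ∧
    w (12 + 4 * k + 3) = w 3 * w (12 + 4 * k) + w 4 * w (12 + 4 * k + 2) + w 5 ∧
    ((rot2 (k / 3)).2.2.1 : ℝ) * w (12 + 4 * k) + ((rot2 (k / 3)).2.2.2 : ℝ) * w (12 + 4 * k + 1)
      = w 6 * (((rot2 (k / 3)).1 : ℝ) * w (12 + 4 * k) + ((rot2 (k / 3)).2.1 : ℝ) * w (12 + 4 * k + 1))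
        + w 7 * (((rot2 (k % 3)).1 : ℝ) * w (12 + 4 * k + 2) + ((rot2 (k % 3)).2.1 : ℝ) * w (12 + 4 * k + 3))
        + 2 * w 8 ∧
    ((rot2 (k % 3)).2.2.1 : ℝ) * w (12 + 4 * k + 2) + ((rot2 (k % 3)).2.2.2 : ℝ) * w (12 + 4 * k + 3)
      = w 9 * (((rot2 (k / 3)).1 : ℝ) * w (12 + 4 * k) + ((rot2 (k / 3)).2.1 : ℝ) * w (12 + 4 * k + 1))
        + w 10 * (((rot2 (k % 3)).1 : ℝ) * w (12 + 4 * k + 2) + ((rot2 (k % 3)).2.1 : ℝ) * w (12 + 4 * k + 3))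
        + 2 * w 11 ∧
    w (12 + 4 * k) ^ 2 + 3 * w (12 + 4 * k + 1) ^ 2 + w (12 + 4 * k + 2) ^ 2 + 3 * w (12 + 4 * k + 3) ^ 2 = 1 := by
  have h := hw.eq k hk
  simp only [eqns, List.mem_cons, List.not_mem_nil, or_false, forall_eq_or_imp, forall_eq, QP.ev,
    List.map_cons, List.map_nil, List.sum_cons, List.sum_nil] at h
  obtain ⟨h1, h2, h3, h4, h5⟩ := h
  push_cast at h1 h2 h3 h4 h5
  refine ⟨?_, ?_, ?_, ?_, ?_⟩
  · linear_combination h1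
  · linear_combination h2
  · linear_combination h3
  · linear_combination h4
  · linear_combination h5

/-- the two linear equations of the circle number `g` of the family with parameters `w o, …, w (o+5)` -/
def Lf1 (w : ℕ → ℝ) (o g : ℕ) (v : ℕ → ℝ) : ℝ :=
  (((rot2 (g / 3)).2.2.1 : ℝ) * v 1 + ((rot2 (g / 3)).2.2.2 : ℝ) * v 2)
    - w o * (((rot2 (g / 3)).1 : ℝ) * v 1 + ((rot2 (g / 3)).2.1 : ℝ) * v 2)
    - w (o + 1) * (((rot2 (g % 3)).1 : ℝ) * v 3 + ((rot2 (g % 3)).2.1 : ℝ) * v 4) - w (o + 2) * (2 * v 0)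

def Lf2 (w : ℕ → ℝ) (o g : ℕ) (v : ℕ → ℝ) : ℝ :=
  (((rot2 (g % 3)).2.2.1 : ℝ) * v 3 + ((rot2 (g % 3)).2.2.2 : ℝ) * v 4)
    - w (o + 3) * (((rot2 (g / 3)).1 : ℝ) * v 1 + ((rot2 (g / 3)).2.1 : ℝ) * v 2)
    - w (o + 4) * (((rot2 (g % 3)).1 : ℝ) * v 3 + ((rot2 (g % 3)).2.1 : ℝ) * v 4) - w (o + 5) * (2 * v 0)

theorem rot2_comp : ∀ a b : Fin 3,
    (rot2 a).1 * (rot2 b).1 + (rot2 a).2.1 * (rot2 b).2.2.1 = 2 * (rot2 ((a + b : ℕ) % 3)).1 ∧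
    (rot2 a).1 * (rot2 b).2.1 + (rot2 a).2.1 * (rot2 b).2.2.2 = 2 * (rot2 ((a + b : ℕ) % 3)).2.1 ∧
    (rot2 a).2.2.1 * (rot2 b).1 + (rot2 a).2.2.2 * (rot2 b).2.2.1 = 2 * (rot2 ((a + b : ℕ) % 3)).2.2.1 ∧
    (rot2 a).2.2.1 * (rot2 b).2.1 + (rot2 a).2.2.2 * (rot2 b).2.2.2 = 2 * (rot2 ((a + b : ℕ) % 3)).2.2.2 := by
  decide

theorem rot2_norm (b : ℕ) (x y : ℝ) : (((rot2 b).1 : ℝ) * x + ((rot2 b).2.1 : ℝ) * y) ^ 2
    + 3 * (((rot2 b).2.2.1 : ℝ) * x + ((rot2 b).2.2.2 : ℝ) * y) ^ 2 = 4 * (x ^ 2 + 3 * y ^ 2) := by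
  match b with
  | 0 => simp [rot2]; ring
  | 1 => simp [rot2]; ring
  | n + 2 => simp [rot2]; ring

theorem comp_apply {a b c : ℕ} (ha : a < 3) (hb : b < 3) (hc : (a + b) % 3 = c) (x y : ℝ) :
    ((rot2 a).1 : ℝ) * (((rot2 b).1 : ℝ) * x + ((rot2 b).2.1 : ℝ) * y)
      + ((rot2 a).2.1 : ℝ) * (((rot2 b).2.2.1 : ℝ) * x + ((rot2 b).2.2.2 : ℝ) * y)
      = 2 * (((rot2 c).1 : ℝ) * x + ((rot2 c).2.1 : ℝ) * y) ∧
    ((rot2 a).2.2.1 : ℝ) * (((rot2 b).1 : ℝ) * x + ((rot2 b).2.1 : ℝ) * y)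
      + ((rot2 a).2.2.2 : ℝ) * (((rot2 b).2.2.1 : ℝ) * x + ((rot2 b).2.2.2 : ℝ) * y)
      = 2 * (((rot2 c).2.2.1 : ℝ) * x + ((rot2 c).2.2.2 : ℝ) * y) := by
  subst hc
  obtain ⟨h1, h2, h3, h4⟩ := rot2_comp ⟨a, ha⟩ ⟨b, hb⟩
  have h1' : ((rot2 a).1 : ℝ) * (rot2 b).1 + (rot2 a).2.1 * (rot2 b).2.2.1 = 2 * (rot2 ((a + b) % 3)).1 := by exact_mod_cast h1
  have h2' : ((rot2 a).1 : ℝ) * (rot2 b).2.1 + (rot2 a).2.1 * (rot2 b).2.2.2 = 2 * (rot2 ((a + b) % 3)).2.1 := by exact_mod_cast h2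
  have h3' : ((rot2 a).2.2.1 : ℝ) * (rot2 b).1 + (rot2 a).2.2.2 * (rot2 b).2.2.1 = 2 * (rot2 ((a + b) % 3)).2.2.1 := by exact_mod_cast h3
  have h4' : ((rot2 a).2.2.1 : ℝ) * (rot2 b).2.1 + (rot2 a).2.2.2 * (rot2 b).2.2.2 = 2 * (rot2 ((a + b) % 3)).2.2.2 := by exact_mod_cast h4
  constructor
  · linear_combination x * h1' + y * h2'
  · linear_combination x * h3' + y * h4'

theorem incidence {w : ℕ → ℝ} (hw : Config w) {g h : ℕ} (hg : g < 9) (hh : h < 9) :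
    Lf1 w 0 g (ptv 1 w g h) = 0 ∧ Lf2 w 0 g (ptv 1 w g h) = 0 ∧
    Lf1 w 6 h (ptv 1 w g h) = 0 ∧ Lf2 w 6 h (ptv 1 w g h) = 0 ∧
    (ptv 1 w g h 1) ^ 2 + 3 * (ptv 1 w g h 2) ^ 2 + (ptv 1 w g h 3) ^ 2 + 3 * (ptv 1 w g h 4) ^ 2
      = (ptv 1 w g h 0) ^ 2 := by
  obtain ⟨k, hk⟩ : ∃ k, k = 3 * ((h / 3 + 3 - g / 3) % 3) + (h % 3 + 3 - g % 3) % 3 := ⟨_, rfl⟩
  have hk9 : k < 9 := by omega
  obtain ⟨E1, E2, E3, E4, E5⟩ := config_eqs hw hk9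
  have v0 : ptv 1 w g h 0 = 2 := by simp [ptv]
  have v1 : ptv 1 w g h 1 = ((rot2 ((3 - g / 3) % 3)).1 : ℝ) * w (12 + 4 * k) + ((rot2 ((3 - g / 3) % 3)).2.1 : ℝ) * w (12 + 4 * k + 1) := by
    rw [hk]; rfl
  have v2 : ptv 1 w g h 2 = ((rot2 ((3 - g / 3) % 3)).2.2.1 : ℝ) * w (12 + 4 * k) + ((rot2 ((3 - g / 3) % 3)).2.2.2 : ℝ) * w (12 + 4 * k + 1) := by
    rw [hk]; rfl
  have v3 : ptv 1 w g h 3 = ((rot2 ((3 - g % 3) % 3)).1 : ℝ) * w (12 + 4 * k + 2) + ((rot2 ((3 - g % 3) % 3)).2.1 : ℝ) * w (12 + 4 * k + 3) := by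
    rw [hk]; rfl
  have v4 : ptv 1 w g h 4 = ((rot2 ((3 - g % 3) % 3)).2.2.1 : ℝ) * w (12 + 4 * k + 2) + ((rot2 ((3 - g % 3) % 3)).2.2.2 : ℝ) * w (12 + 4 * k + 3) := by
    rw [hk]; rfl
  obtain ⟨a1, a2⟩ := comp_apply (a := g / 3) (b := (3 - g / 3) % 3) (c := 0) (by omega) (by omega) (by omega)
    (w (12 + 4 * k)) (w (12 + 4 * k + 1))
  obtain ⟨a3, a4⟩ := comp_apply (a := g % 3) (b := (3 - g % 3) % 3) (c := 0) (by omega) (by omega) (by omega)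
    (w (12 + 4 * k + 2)) (w (12 + 4 * k + 3))
  obtain ⟨b1, b2⟩ := comp_apply (a := h / 3) (b := (3 - g / 3) % 3) (c := k / 3) (by omega) (by omega) (by omega)
    (w (12 + 4 * k)) (w (12 + 4 * k + 1))
  obtain ⟨b3, b4⟩ := comp_apply (a := h % 3) (b := (3 - g % 3) % 3) (c := k % 3) (by omega) (by omega) (by omega)
    (w (12 + 4 * k + 2)) (w (12 + 4 * k + 3))
  rw [← v1, ← v2] at a1 a2 b1 b2
  rw [← v3, ← v4] at a3 a4 b3 b4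
  have n1 := rot2_norm ((3 - g / 3) % 3) (w (12 + 4 * k)) (w (12 + 4 * k + 1))
  have n2 := rot2_norm ((3 - g % 3) % 3) (w (12 + 4 * k + 2)) (w (12 + 4 * k + 3))
  rw [← v1, ← v2] at n1
  rw [← v3, ← v4] at n2
  have r0 : rot2 0 = (2, 0, 0, 2) := rfl
  simp only [r0, Int.cast_ofNat, Int.cast_zero, zero_mul, add_zero, zero_add] at a1 a2 a3 a4
  refine ⟨?_, ?_, ?_, ?_, ?_⟩
  · unfold Lf1
    rw [a1, a2, a3, v0]
    linear_combination 4 * E1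
  · unfold Lf2
    rw [a1, a3, a4, v0]
    linear_combination 4 * E2
  · unfold Lf1
    rw [b1, b2, b3, v0]
    linear_combination 2 * E3
  · unfold Lf2
    rw [b1, b3, b4, v0]
    linear_combination 2 * E4
  · rw [v0]
    linear_combination n1 + n2 + 4 * E5

/-- The grid point number `j = 9 g + h` in `ℝ³`. -/
noncomputable def gp (w : ℕ → ℝ) (j : ℕ) : E3 := toE3 (vr w j)

theorem gp_zeta {w : ℕ → ℝ} (hw : Config w) {j : ℕ} (hj : j < 81) :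
    ∃ t : ℝ, t ≠ 0 ∧ ∀ i, zeta (gp w j) i = t * vr w j i := by
  have hd := den_pos hw hj
  refine ⟨2 / (vr w j 0 - √3 * vr w j 4), by positivity, fun i => ?_⟩
  apply zeta_toE3 _ _ hd.ne' (vr_succ w j)
  exact (incidence hw (g := j / 9) (h := j % 9) (by omega) (by omega)).2.2.2.2

/-- A function in `Lin ^ 4` vanishing at the 81 grid points is zero. -/
theorem vanish_all {w : ℕ → ℝ} (hw : Config w) (f : E3 → ℝ) (hf : f ∈ Lin ^ 4)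
    (h : ∀ j < 81, f (gp w j) = 0) : f = 0 := by
  obtain ⟨c, hc⟩ := lin4_coeffs f hf
  have hc0 : c = 0 := by
    apply star_inj w hw.near
    intro j hj
    obtain ⟨t, ht, hz⟩ := gp_zeta hw hj
    have h1 := h j hj
    rw [hc] at h1
    have h2 : (fun i => zeta (gp w j) i) = fun i => t * vr w j i := funext hz
    have h3 : zeta (gp w j) = fun i => t * vr w j i := h2
    rw [h3] at h1
    simp only [mono_scale] at h1
    have h4 : t ^ 4 * ∑ k : Fin 55, c k * mono (mk k) (vr w j) = 0 := by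
      rw [Finset.mul_sum, ← h1]
      refine Finset.sum_congr rfl fun k _ => by ring
    exact (mul_eq_zero.mp h4).resolve_left (pow_ne_zero 4 ht)
  funext x
  rw [hc x, hc0]
  simp

end H537R3.Chess
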