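import Pool.Agent.H537R3.Chess.Defs

namespace H537R3.Chess

open EuclideanGeometry

/-- `a |x|² + b · x + c`, in coordinates. -/
def linF (a b0 b1 b2 c : ℝ) : E3 → ℝ := fun x =>
  a * (x 0 ^ 2 + x 1 ^ 2 + x 2 ^ 2) + (b0 * x 0 + b1 * x 1 + b2 * x 2) + c

/-- The five dimensional space of functions `a |x|² + b · x + c`. -/
def Lin : Submodule ℝ (E3 → ℝ) where
  carrier := {f | ∃ a b0 b1 b2 c, f = linF a b0 b1 b2 c}
  add_mem' := by
    rintro _ _ ⟨a, b0, b1, b2, c, rfl⟩ ⟨a', b0', b1', b2', c', rfl⟩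
    refine ⟨a + a', b0 + b0', b1 + b1', b2 + b2', c + c', ?_⟩
    funext x; simp only [linF, Pi.add_apply]; ring
  zero_mem' := ⟨0, 0, 0, 0, 0, by funext x; simp [linF]⟩
  smul_mem' := by
    rintro t _ ⟨a, b0, b1, b2, c, rfl⟩
    refine ⟨t * a, t * b0, t * b1, t * b2, t * c, ?_⟩
    funext x; simp only [linF, Pi.smul_apply, smul_eq_mul]; ring

theorem mem_Lin (f : E3 → ℝ) (a b0 b1 b2 c : ℝ) (h : ∀ x, f x = linF a b0 b1 b2 c x) : f ∈ Lin :=
  ⟨a, b0, b1, b2, c, funext h⟩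

theorem one_mem_Lin : (1 : E3 → ℝ) ∈ Lin := mem_Lin _ 0 0 0 0 1 (fun x => by simp [linF])

theorem const_mem_Lin (t : ℝ) : (fun _ : E3 => t) ∈ Lin := mem_Lin _ 0 0 0 0 t (fun x => by simp [linF])

theorem coord_mem_Lin (i : Fin 3) : (fun x : E3 => x i) ∈ Lin := by
  fin_cases i
  · exact mem_Lin _ 0 1 0 0 0 (fun x => by simp [linF])
  · exact mem_Lin _ 0 0 1 0 0 (fun x => by simp [linF])
  · exact mem_Lin _ 0 0 0 1 0 (fun x => by simp [linF])

theorem nsq_mem_Lin : (fun x : E3 => x 0 ^ 2 + x 1 ^ 2 + x 2 ^ 2) ∈ Lin :=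
  mem_Lin _ 1 0 0 0 0 (fun x => by simp [linF])

theorem pow_mono' {m n : ℕ} (h : m ≤ n) : Lin ^ m ≤ Lin ^ n := by
  induction h with
  | refl => exact le_rfl
  | step _ ih =>
    refine ih.trans ?_
    rw [pow_succ]
    intro f hf
    have := Submodule.mul_mem_mul hf one_mem_Lin
    rwa [mul_one] at this

theorem mul_mem' {m n k : ℕ} {f g : E3 → ℝ} (hf : f ∈ Lin ^ m) (hg : g ∈ Lin ^ n) (h : m + n ≤ k) :
    (fun x => f x * g x) ∈ Lin ^ k := by
  apply pow_mono' h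
  rw [pow_add]
  exact Submodule.mul_mem_mul hf hg

theorem lin_mem' {f : E3 → ℝ} (hf : f ∈ Lin) : f ∈ Lin ^ 1 := by rwa [pow_one]

theorem cont_of_mem : ∀ (n : ℕ) (f : E3 → ℝ), f ∈ Lin ^ n → Continuous f
  | 0, f, hf => by
    rw [pow_zero, Submodule.mem_one] at hf
    obtain ⟨r, rfl⟩ := hf
    exact continuous_const
  | n + 1, f, hf => by
    rw [pow_succ] at hf
    refine Submodule.mul_induction_on hf ?_ ?_
    · rintro g hg _ ⟨a, b0, b1, b2, c, rfl⟩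
      refine (cont_of_mem n g hg).mul ?_
      unfold linF
      fun_prop
    · intro f g hf hg
      exact hf.add hg

theorem inversion_apply (c : E3) (R : ℝ) (x : E3) (i : Fin 3) :
    inversion c R x i = (R / dist x c) ^ 2 * (x i - c i) + c i := by
  simp [inversion]

theorem dist_sq (x c : E3) : dist x c ^ 2 = (x 0 - c 0) ^ 2 + (x 1 - c 1) ^ 2 + (x 2 - c 2) ^ 2 := by
  rw [EuclideanSpace.dist_eq, Real.sq_sqrt (by positivity), Fin.sum_univ_three]
  simp [Real.dist_eq, sq_abs]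

theorem pull_lin (c : E3) (R : ℝ) (f : E3 → ℝ) (hf : f ∈ Lin) :
    ∃ f' ∈ Lin, ∀ x, x ≠ c → f (inversion c R x) * dist x c ^ 2 = f' x := by
  obtain ⟨a, b0, b1, b2, e, rfl⟩ := hf
  set N := c 0 ^ 2 + c 1 ^ 2 + c 2 ^ 2 with hN
  set B := b0 * c 0 + b1 * c 1 + b2 * c 2 with hB
  refine ⟨linF (a * N + B + e) (2 * a * R ^ 2 * c 0 + R ^ 2 * b0 - 2 * c 0 * (a * N + B + e))
    (2 * a * R ^ 2 * c 1 + R ^ 2 * b1 - 2 * c 1 * (a * N + B + e))
    (2 * a * R ^ 2 * c 2 + R ^ 2 * b2 - 2 * c 2 * (a * N + B + e))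
    (a * R ^ 4 - 2 * a * R ^ 2 * N - R ^ 2 * B + N * (a * N + B + e)), ⟨_, _, _, _, _, rfl⟩, ?_⟩
  intro x hx
  have hd : dist x c ≠ 0 := dist_ne_zero.mpr hx
  have hd2 := dist_sq x c
  simp only [linF, inversion_apply, div_pow]
  have hD0 : dist x c ^ 2 ≠ 0 := pow_ne_zero 2 hd
  generalize dist x c ^ 2 = D at hD0 hd2 ⊢
  have hRD : R ^ 2 / D * D = R ^ 2 := div_mul_cancel₀ _ hD0
  generalize R ^ 2 / D = t at hRD ⊢
  have e1 : ((t * (x 0 - c 0) + c 0) ^ 2 + (t * (x 1 - c 1) + c 1) ^ 2 + (t * (x 2 - c 2) + c 2) ^ 2) * D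
      = R ^ 2 * (t * D) + 2 * R ^ 2 * (c 0 * (x 0 - c 0) + c 1 * (x 1 - c 1) + c 2 * (x 2 - c 2)) + N * D := by
    rw [hN, ← hRD]
    linear_combination (-t ^ 2 * D) * hd2
  have e2 : (b0 * (t * (x 0 - c 0) + c 0) + b1 * (t * (x 1 - c 1) + c 1) + b2 * (t * (x 2 - c 2) + c 2)) * D
      = R ^ 2 * (b0 * (x 0 - c 0) + b1 * (x 1 - c 1) + b2 * (x 2 - c 2)) + B * D := by
    rw [hB, ← hRD]; ring
  have e3 : (a * ((t * (x 0 - c 0) + c 0) ^ 2 + (t * (x 1 - c 1) + c 1) ^ 2 + (t * (x 2 - c 2) + c 2) ^ 2) +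
      (b0 * (t * (x 0 - c 0) + c 0) + b1 * (t * (x 1 - c 1) + c 1) + b2 * (t * (x 2 - c 2) + c 2)) + e) * D
      = a * (R ^ 2 * (t * D) + 2 * R ^ 2 * (c 0 * (x 0 - c 0) + c 1 * (x 1 - c 1) + c 2 * (x 2 - c 2)) + N * D)
        + (R ^ 2 * (b0 * (x 0 - c 0) + b1 * (x 1 - c 1) + b2 * (x 2 - c 2)) + B * D) + e * D := by
    rw [← e1, ← e2]; ring
  rw [e3, hRD, hd2, hN, hB]
  ring

theorem pull_pow (c : E3) (R : ℝ) : ∀ (n : ℕ) (f : E3 → ℝ), f ∈ Lin ^ n →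
    ∃ f' ∈ Lin ^ n, ∀ x, x ≠ c → f (inversion c R x) * (dist x c ^ 2) ^ n = f' x
  | 0, f, hf => by
    rw [pow_zero, Submodule.mem_one] at hf
    obtain ⟨r, rfl⟩ := hf
    refine ⟨algebraMap ℝ (E3 → ℝ) r, by rw [pow_zero, Submodule.mem_one]; exact ⟨r, rfl⟩, fun x _ => ?_⟩
    simp
  | n + 1, f, hf => by
    rw [pow_succ] at hf
    refine Submodule.mul_induction_on hf ?_ ?_
    · intro g hg l hl
      obtain ⟨g', hg', h1⟩ := pull_pow c R n g hg
      obtain ⟨l', hl', h2⟩ := pull_lin c R l hl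
      refine ⟨g' * l', by rw [pow_succ]; exact Submodule.mul_mem_mul hg' hl', fun x hx => ?_⟩
      rw [Pi.mul_apply, Pi.mul_apply, ← h1 x hx, ← h2 x hx]
      ring
    · rintro f g ⟨f', hf', h1⟩ ⟨g', hg', h2⟩
      refine ⟨f' + g', Submodule.add_mem _ hf' hg', fun x hx => ?_⟩
      rw [Pi.add_apply, Pi.add_apply, ← h1 x hx, ← h2 x hx]
      ring

theorem exists_ne_of_ne_zero {f : E3 → ℝ} (hf : Continuous f) (h0 : f ≠ 0) (c : E3) :
    ∃ y, y ≠ c ∧ f y ≠ 0 := by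
  have hopen : IsOpen {y | f y ≠ 0} := isOpen_ne_fun hf continuous_const
  have hne : {y | f y ≠ 0}.Nonempty := by
    by_contra h
    apply h0
    funext y
    by_contra hy
    exact h ⟨y, hy⟩
  have hd : Dense ({c}ᶜ : Set E3) := dense_compl_singleton c
  obtain ⟨y, hy1, hy2⟩ := hd.exists_mem_open hopen hne
  exact ⟨y, hy1, hy2⟩

theorem pull_inv (c : E3) (R : ℝ) (hR : 0 < R) (n : ℕ) (f : E3 → ℝ) (hf : f ∈ Lin ^ n) (h0 : f ≠ 0) :
    ∃ f' ∈ Lin ^ n, f' ≠ 0 ∧ ∀ x, x ≠ c → f (inversion c R x) = 0 → f' x = 0 := by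
  obtain ⟨f', hf', h⟩ := pull_pow c R n f hf
  refine ⟨f', hf', ?_, fun x hx hfx => by rw [← h x hx, hfx, zero_mul]⟩
  obtain ⟨y, hy, hfy⟩ := exists_ne_of_ne_zero (cont_of_mem n f hf) h0 c
  intro hz
  have hy' : inversion c R y ≠ c := by
    intro h1
    have := inversion_inversion c hR.ne' y
    rw [h1, inversion_self] at this
    exact hy this.symm
  have h2 := h _ hy'
  rw [inversion_inversion c hR.ne' y, hz] at h2
  have h3 : (dist (inversion c R y) c ^ 2) ^ n ≠ 0 := pow_ne_zero _ (pow_ne_zero _ (dist_ne_zero.mpr hy'))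
  exact (mul_ne_zero hfy h3) h2

/-- Pulling back a nonzero function in `Lin ^ n` by a composition of inversions. -/
theorem pull_list (n : ℕ) : ∀ (l : List (E3 × ℝ)), (∀ s ∈ l, 0 < s.2) → ∀ f ∈ Lin ^ n, f ≠ 0 →
    ∃ f' ∈ Lin ^ n, f' ≠ 0 ∧ ∀ x, InvDefined l x → f (applyInv l x) = 0 → f' x = 0
  | [], _, f, hf, h0 => ⟨f, hf, h0, fun _ _ h => h⟩
  | (c, R) :: l, hl, f, hf, h0 => by
    obtain ⟨g, hg, hg0, h1⟩ := pull_list n l (fun s hs => hl s (List.mem_cons_of_mem _ hs)) f hf h0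
    obtain ⟨f', hf', hf0, h2⟩ := pull_inv c R (hl (c, R) List.mem_cons_self) n g hg hg0
    refine ⟨f', hf', hf0, fun x hx hfx => ?_⟩
    obtain ⟨hx1, hx2⟩ := hx
    exact h2 x hx1 (h1 _ hx2 hfx)

theorem finite_undefined : ∀ (l : List (E3 × ℝ)), (∀ s ∈ l, 0 < s.2) → {x | ¬ InvDefined l x}.Finite
  | [], _ => by simp [InvDefined]
  | (c, R) :: l, hl => by
    have h1 := finite_undefined l (fun s hs => hl s (List.mem_cons_of_mem _ hs))
    have hR : 0 < R := hl (c, R) List.mem_cons_self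
    have h2 : ((inversion c R) ⁻¹' {x | ¬ InvDefined l x}).Finite :=
      h1.preimage ((inversion_injective c hR.ne').injOn)
    refine ((Set.finite_singleton c).union h2).subset ?_
    intro x hx
    simp only [Set.mem_ofPred_eq, InvDefined, not_and_or, not_not] at hx
    rcases hx with h | h
    · left; exact h
    · right; exact h

/-- A nonzero-function argument: if all defined points of an arc are mapped to the zero set, the
pull-back vanishes on the whole arc. -/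
theorem vanish_on_arc (n : ℕ) (l : List (E3 × ℝ)) (hl : ∀ s ∈ l, 0 < s.2) (α : Set E3) (hα : IsConnected α)
    (hα2 : α.Nontrivial) (f' : E3 → ℝ) (hf' : f' ∈ Lin ^ n) (h : ∀ x ∈ α, InvDefined l x → f' x = 0) :
    ∀ x ∈ α, f' x = 0 := by
  intro x hx
  have hc := cont_of_mem n f' hf'
  have hclosed : IsClosed {y | f' y = 0} := isClosed_eq hc continuous_const
  have hp := hα.isPreconnected.preperfect_of_nontrivial hα2
  have hacc := hp x hx
  by_contra hne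
  have hopen : IsOpen {y | f' y ≠ 0} := isOpen_ne_fun hc continuous_const
  have hfin := finite_undefined l hl
  -- neighbourhood avoiding the finite exceptional set (minus x)
  have hU : {y | f' y ≠ 0} ∩ ({y | ¬ InvDefined l y} \ {x})ᶜ ∈ nhds x := by
    refine Filter.inter_mem (hopen.mem_nhds hne) ?_
    exact (hfin.subset Set.sdiff_subset).isClosed.isOpen_compl.mem_nhds (by simp)
  rw [accPt_iff_nhds] at hacc
  obtain ⟨y, ⟨hy1, hy2⟩, hyx⟩ := hacc _ hU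
  have hy3 : InvDefined l y := by
    by_contra h3
    exact hy1.2 ⟨h3, hyx⟩
  exact hy1.1 (h y hy2 hy3)

end H537R3.Chess
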