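import Pool.Agent.H537R3.Chess.Types

namespace H537R3.Chess

/-- `V × U` with `V = 2x`, `U = (1 - |x|²) n + n × V`, first coordinate up to cyclic shift. -/
def cZ (n0 n1 n2 x0 x1 x2 : ℝ) : ℝ :=
  (2 * x1) * ((1 - (x0 ^ 2 + x1 ^ 2 + x2 ^ 2)) * n2 + (n0 * (2 * x1) - n1 * (2 * x0)))
    - (2 * x2) * ((1 - (x0 ^ 2 + x1 ^ 2 + x2 ^ 2)) * n1 + (n2 * (2 * x0) - n0 * (2 * x2)))


def cW (_m0 m1 m2 n0 n1 n2 c1 c2 x0 x1 x2 : ℝ) : ℝ :=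
  c1 * cZ n0 n1 n2 x0 x1 x2 + c2 * ((1 + (x0 ^ 2 + x1 ^ 2 + x2 ^ 2)) * (m1 * (2 * x2) - m2 * (2 * x1)))

def cD (m0 m1 m2 n0 n1 n2 x0 x1 x2 : ℝ) : ℝ :=
  m0 * cZ n0 n1 n2 x0 x1 x2 + m1 * cZ n1 n2 n0 x1 x2 x0 + m2 * cZ n2 n0 n1 x2 x0 x1

def cG (m0 m1 m2 n0 n1 n2 c1 c2 x0 x1 x2 : ℝ) : ℝ :=
  cW m0 m1 m2 n0 n1 n2 c1 c2 x0 x1 x2 ^ 2 + cW m1 m2 m0 n1 n2 n0 c1 c2 x1 x2 x0 ^ 2
    + cW m2 m0 m1 n2 n0 n1 c1 c2 x2 x0 x1 ^ 2 - cD m0 m1 m2 n0 n1 n2 x0 x1 x2 ^ 2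

theorem cW_scale (m0 m1 m2 n0 n1 n2 c1 c2 e0 e1 e2 t : ℝ) :
    cW m0 m1 m2 n0 n1 n2 c1 c2 (t * e0) (t * e1) (t * e2)
      = t * (2 * (c1 * (e1 * n2 - e2 * n1) + c2 * (m1 * e2 - m2 * e1))
        + (4 * c1 * ((e0 ^ 2 + e1 ^ 2 + e2 ^ 2) * n0 - (e0 * n0 + e1 * n1 + e2 * n2) * e0)) * t
        + (2 * (e0 ^ 2 + e1 ^ 2 + e2 ^ 2) * (-(c1 * (e1 * n2 - e2 * n1)) + c2 * (m1 * e2 - m2 * e1))) * t ^ 2) := by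
  unfold cW cZ; ring

theorem cD_scale (m0 m1 m2 n0 n1 n2 e0 e1 e2 t : ℝ) :
    cD m0 m1 m2 n0 n1 n2 (t * e0) (t * e1) (t * e2)
      = t * (2 * (m0 * (e1 * n2 - e2 * n1) + m1 * (e2 * n0 - e0 * n2) + m2 * (e0 * n1 - e1 * n0))
        + (4 * ((e0 ^ 2 + e1 ^ 2 + e2 ^ 2) * (m0 * n0 + m1 * n1 + m2 * n2)
            - (e0 * n0 + e1 * n1 + e2 * n2) * (e0 * m0 + e1 * m1 + e2 * m2))) * t
        + (-2 * (e0 ^ 2 + e1 ^ 2 + e2 ^ 2) *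
          (m0 * (e1 * n2 - e2 * n1) + m1 * (e2 * n0 - e0 * n2) + m2 * (e0 * n1 - e1 * n0))) * t ^ 2) := by
  unfold cD cZ; ring

/-- lowest order coefficient -/
theorem quad_extract (a0 a1 a2 b0 b1 b2 c0 c1 c2 d0 d1 d2 : ℝ)
    (h : ∀ t : ℝ, (t * (a0 + a1 * t + a2 * t ^ 2)) ^ 2 + (t * (b0 + b1 * t + b2 * t ^ 2)) ^ 2
      + (t * (c0 + c1 * t + c2 * t ^ 2)) ^ 2 - (t * (d0 + d1 * t + d2 * t ^ 2)) ^ 2 = 0) :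
    a0 ^ 2 + b0 ^ 2 + c0 ^ 2 - d0 ^ 2 = 0 := by
  have h1 := h 1
  have h2 := h (-1)
  have h3 := h 2
  have h4 := h (-2)
  have h5 := h 3
  have h6 := h (-3)
  linear_combination (3 / 4) * h1 + (3 / 4) * h2 - (3 / 40) * h3 - (3 / 40) * h4
    + (1 / 180) * h5 + (1 / 180) * h6

theorem sq3_zero {a b c : ℝ} (h : a ^ 2 + b ^ 2 + c ^ 2 = 0) : a = 0 ∧ b = 0 ∧ c = 0 := by
  have h0 := sq_nonneg a
  have h1 := sq_nonneg b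
  have h2 := sq_nonneg c
  refine ⟨?_, ?_, ?_⟩ <;> apply pow_eq_zero_iff (two_ne_zero) |>.mp <;> linarith

theorem cW_par (m0 m1 m2 k c1 e0 e1 e2 t : ℝ) (horth : e0 * m0 + e1 * m1 + e2 * m2 = 0) :
    cW m0 m1 m2 (k * m0) (k * m1) (k * m2) c1 (k * c1) (t * e0) (t * e1) (t * e2)
      = 4 * c1 * k * (e0 ^ 2 + e1 ^ 2 + e2 ^ 2) * t ^ 2 * (m0 + t * (m1 * e2 - m2 * e1)) := by
  rw [cW_scale]
  linear_combination (-4 * c1 * k * e0 * t ^ 2) * horth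

theorem cD_par (m0 m1 m2 k e0 e1 e2 t : ℝ) (horth : e0 * m0 + e1 * m1 + e2 * m2 = 0) :
    cD m0 m1 m2 (k * m0) (k * m1) (k * m2) (t * e0) (t * e1) (t * e2)
      = 4 * k * (e0 ^ 2 + e1 ^ 2 + e2 ^ 2) * t ^ 2 * (m0 ^ 2 + m1 ^ 2 + m2 ^ 2) := by
  rw [cD_scale]
  linear_combination (-4 * k * (e0 * m0 + e1 * m1 + e2 * m2) * t ^ 2) * horth

theorem cG_par (m0 m1 m2 k c1 e0 e1 e2 t : ℝ) (horth : e0 * m0 + e1 * m1 + e2 * m2 = 0) :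
    cG m0 m1 m2 (k * m0) (k * m1) (k * m2) c1 (k * c1) (t * e0) (t * e1) (t * e2)
      = 16 * k ^ 2 * t ^ 4 * (e0 ^ 2 + e1 ^ 2 + e2 ^ 2) ^ 2 * (m0 ^ 2 + m1 ^ 2 + m2 ^ 2)
        * (c1 ^ 2 * (1 + t ^ 2 * (e0 ^ 2 + e1 ^ 2 + e2 ^ 2)) - (m0 ^ 2 + m1 ^ 2 + m2 ^ 2)) := by
  unfold cG
  rw [cW_par _ _ _ _ _ _ _ _ _ horth, cW_par _ _ _ _ _ _ _ _ _ (by linear_combination horth),
    cW_par _ _ _ _ _ _ _ _ _ (by linear_combination horth), cD_par _ _ _ _ _ _ _ _ horth]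
  linear_combination (-(16 * k ^ 2 * t ^ 6 * (e0 ^ 2 + e1 ^ 2 + e2 ^ 2) ^ 2 * c1 ^ 2) * (e0 * m0 + e1 * m1 + e2 * m2)) * horth

theorem cG_star (m0 m1 m2 n0 n1 n2 c1 c2 : ℝ)
    (hcon : ∀ x0 x1 x2 : ℝ, cG m0 m1 m2 n0 n1 n2 c1 c2 x0 x1 x2 = 0) (e0 e1 e2 : ℝ) :
    (2 * (c1 * (e1 * n2 - e2 * n1) + c2 * (m1 * e2 - m2 * e1))) ^ 2
      + (2 * (c1 * (e2 * n0 - e0 * n2) + c2 * (m2 * e0 - m0 * e2))) ^ 2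
      + (2 * (c1 * (e0 * n1 - e1 * n0) + c2 * (m0 * e1 - m1 * e0))) ^ 2
      - (2 * (m0 * (e1 * n2 - e2 * n1) + m1 * (e2 * n0 - e0 * n2) + m2 * (e0 * n1 - e1 * n0))) ^ 2 = 0 := by
  have h := fun t : ℝ => hcon (t * e0) (t * e1) (t * e2)
  unfold cG at h
  simp only [cW_scale, cD_scale] at h
  exact quad_extract _ _ _ _ _ _ _ _ _ _ _ _ h

theorem cross_zero {m0 m1 m2 n0 n1 n2 c1 c2 : ℝ}
    (star' : ∀ e0 e1 e2 : ℝ, (e1 * (c1 * n2 - c2 * m2) - e2 * (c1 * n1 - c2 * m1)) ^ 2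
      + (e2 * (c1 * n0 - c2 * m0) - e0 * (c1 * n2 - c2 * m2)) ^ 2
      + (e0 * (c1 * n1 - c2 * m1) - e1 * (c1 * n0 - c2 * m0)) ^ 2
      = (e0 * (n1 * m2 - n2 * m1) + e1 * (n2 * m0 - n0 * m2) + e2 * (n0 * m1 - n1 * m0)) ^ 2) :
    (n1 * m2 - n2 * m1 = 0 ∧ n2 * m0 - n0 * m2 = 0 ∧ n0 * m1 - n1 * m0 = 0) ∧
    (c1 * n0 - c2 * m0 = 0 ∧ c1 * n1 - c2 * m1 = 0 ∧ c1 * n2 - c2 * m2 = 0) := by
  generalize c1 * n0 - c2 * m0 = w0 at *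
  generalize c1 * n1 - c2 * m1 = w1 at *
  generalize c1 * n2 - c2 * m2 = w2 at *
  generalize n1 * m2 - n2 * m1 = v0 at *
  generalize n2 * m0 - n0 * m2 = v1 at *
  generalize n0 * m1 - n1 * m0 = v2 at *
  have s0 := star' 1 0 0
  have s1 := star' 0 1 0
  have s2 := star' 0 0 1
  have s3 := star' v0 v1 v2
  have hvv : (v0 ^ 2 + v1 ^ 2 + v2 ^ 2) ^ 2 + 2 * (v0 * w0 + v1 * w1 + v2 * w2) ^ 2 = 0 := by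
    linear_combination (-2) * s3 + (v0 ^ 2 + v1 ^ 2 + v2 ^ 2) * (s0 + s1 + s2)
  have hv : v0 ^ 2 + v1 ^ 2 + v2 ^ 2 = 0 := by
    have h1 := sq_nonneg (v0 ^ 2 + v1 ^ 2 + v2 ^ 2)
    have h2 := sq_nonneg (v0 * w0 + v1 * w1 + v2 * w2)
    have h3 : (v0 ^ 2 + v1 ^ 2 + v2 ^ 2) ^ 2 = 0 := by linarith
    exact pow_eq_zero_iff two_ne_zero |>.mp h3
  have hw : w0 ^ 2 + w1 ^ 2 + w2 ^ 2 = 0 := by linear_combination (1 / 2) * (s0 + s1 + s2) + (1 / 2) * hv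
  exact ⟨sq3_zero hv, sq3_zero hw⟩

theorem cG_nonzero (m0 m1 m2 n0 n1 n2 c1 c2 : ℝ) (hm : c1 ^ 2 < m0 ^ 2 + m1 ^ 2 + m2 ^ 2)
    (hn : c2 ^ 2 < n0 ^ 2 + n1 ^ 2 + n2 ^ 2) :
    ∃ x0 x1 x2 : ℝ, cG m0 m1 m2 n0 n1 n2 c1 c2 x0 x1 x2 ≠ 0 := by
  by_contra hcon
  push Not at hcon
  have star := cG_star m0 m1 m2 n0 n1 n2 c1 c2 hcon
  obtain ⟨⟨zv0, zv1, zv2⟩, zw0, zw1, zw2⟩ := cross_zero (m0 := m0) (m1 := m1) (m2 := m2) (n0 := n0)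
    (n1 := n1) (n2 := n2) (c1 := c1) (c2 := c2) (fun e0 e1 e2 => by
      linear_combination (1 / 4) * star e0 e1 e2)
  have hmu : 0 < m0 ^ 2 + m1 ^ 2 + m2 ^ 2 := lt_of_le_of_lt (sq_nonneg c1) hm
  have hnu : 0 < n0 ^ 2 + n1 ^ 2 + n2 ^ 2 := lt_of_le_of_lt (sq_nonneg c2) hn
  obtain ⟨k, hk⟩ : ∃ k, k = (n0 * m0 + n1 * m1 + n2 * m2) / (m0 ^ 2 + m1 ^ 2 + m2 ^ 2) := ⟨_, rfl⟩
  have hkm : k * (m0 ^ 2 + m1 ^ 2 + m2 ^ 2) = n0 * m0 + n1 * m1 + n2 * m2 := by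
    rw [hk]; exact div_mul_cancel₀ _ hmu.ne'
  have en0 : n0 = k * m0 := by
    apply mul_left_cancel₀ hmu.ne'
    linear_combination m1 * zv2 - m2 * zv1 - m0 * hkm
  have en1 : n1 = k * m1 := by
    apply mul_left_cancel₀ hmu.ne'
    linear_combination m2 * zv0 - m0 * zv2 - m1 * hkm
  have en2 : n2 = k * m2 := by
    apply mul_left_cancel₀ hmu.ne'
    linear_combination m0 * zv1 - m1 * zv0 - m2 * hkm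
  have ec2 : c2 = k * c1 := by
    apply mul_left_cancel₀ hmu.ne'
    linear_combination (-m0) * zw0 - m1 * zw1 - m2 * zw2 - c1 * hkm
  have hk0 : k ≠ 0 := by
    intro h
    rw [h] at en0 en1 en2
    rw [en0, en1, en2] at hnu
    simp at hnu
  subst en0 en1 en2 ec2
  have hd : ∀ f0 f1 f2 : ℝ, (m1 * f2 - m2 * f1) ^ 2 + (m2 * f0 - m0 * f2) ^ 2 + (m0 * f1 - m1 * f0) ^ 2 = 0 := by
    intro f0 f1 f2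
    by_contra hne
    have k1 := hcon (1 * (m1 * f2 - m2 * f1)) (1 * (m2 * f0 - m0 * f2)) (1 * (m0 * f1 - m1 * f0))
    have k2 := hcon (2 * (m1 * f2 - m2 * f1)) (2 * (m2 * f0 - m0 * f2)) (2 * (m0 * f1 - m1 * f0))
    rw [cG_par _ _ _ _ _ _ _ _ _ (by ring)] at k1 k2
    generalize (m1 * f2 - m2 * f1) ^ 2 + (m2 * f0 - m0 * f2) ^ 2 + (m0 * f1 - m1 * f0) ^ 2 = ε at *
    have hp : (16 * k ^ 2 * ε ^ 2 * (m0 ^ 2 + m1 ^ 2 + m2 ^ 2)) ≠ 0 := by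
      have := hmu.ne'
      positivity
    have q1 : c1 ^ 2 * (1 + ε) - (m0 ^ 2 + m1 ^ 2 + m2 ^ 2) = 0 := by
      apply (mul_eq_zero.mp _).resolve_left hp
      linear_combination k1
    have q2 : c1 ^ 2 * (1 + 4 * ε) - (m0 ^ 2 + m1 ^ 2 + m2 ^ 2) = 0 := by
      apply (mul_eq_zero.mp _).resolve_left hp
      linear_combination (1 / 16) * k2
    have q3 : c1 ^ 2 * ε = 0 := by linear_combination (1 / 3) * (q2 - q1)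
    have q4 : c1 ^ 2 = 0 := (mul_eq_zero.mp q3).resolve_right hne
    rw [q4] at q1
    linarith
  have t0 := hd 1 0 0
  have t1 := hd 0 1 0
  have t2 := hd 0 0 1
  have : m0 ^ 2 + m1 ^ 2 + m2 ^ 2 = 0 := by linear_combination (1 / 2) * (t0 + t1 + t2)
  exact hmu.ne' this

theorem mulc_mem' {k : ℕ} {f : E3 → ℝ} (c : ℝ) (hf : f ∈ Lin ^ k) :
    (fun x => f x * c) ∈ Lin ^ k := by
  have := smul_mem' c hf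
  simpa [mul_comm] using this

theorem cZ_mem (n0 n1 n2 : ℝ) {f0 f1 f2 : E3 → ℝ} (h0 : f0 ∈ Lin ^ 1) (h1 : f1 ∈ Lin ^ 1) (h2 : f2 ∈ Lin ^ 1)
    (hs : (fun x => f0 x ^ 2 + f1 x ^ 2 + f2 x ^ 2) ∈ Lin ^ 1) :
    (fun x => cZ n0 n1 n2 (f0 x) (f1 x) (f2 x)) ∈ Lin ^ 2 := by
  unfold cZ
  have h1' : (fun x => 1 - (f0 x ^ 2 + f1 x ^ 2 + f2 x ^ 2)) ∈ Lin ^ 1 :=
    sub_mem' (lin_mem' (const_mem_Lin 1)) hs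
  refine sub_mem' (mul_mem' (m := 1) (n := 1) (smul_mem' _ h1) ?_ le_rfl)
    (mul_mem' (m := 1) (n := 1) (smul_mem' _ h2) ?_ le_rfl)
  · exact add_mem' (mulc_mem' _ h1') (sub_mem' (smul_mem' _ (smul_mem' _ h1)) (smul_mem' _ (smul_mem' _ h0)))
  · exact add_mem' (mulc_mem' _ h1') (sub_mem' (smul_mem' _ (smul_mem' _ h0)) (smul_mem' _ (smul_mem' _ h2)))

theorem cW_mem (m0 m1 m2 n0 n1 n2 c1 c2 : ℝ) {f0 f1 f2 : E3 → ℝ} (h0 : f0 ∈ Lin ^ 1) (h1 : f1 ∈ Lin ^ 1)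
    (h2 : f2 ∈ Lin ^ 1) (hs : (fun x => f0 x ^ 2 + f1 x ^ 2 + f2 x ^ 2) ∈ Lin ^ 1) :
    (fun x => cW m0 m1 m2 n0 n1 n2 c1 c2 (f0 x) (f1 x) (f2 x)) ∈ Lin ^ 2 := by
  unfold cW
  refine add_mem' (smul_mem' _ (cZ_mem n0 n1 n2 h0 h1 h2 hs)) (smul_mem' _
    (mul_mem' (m := 1) (n := 1) (add_mem' (lin_mem' (const_mem_Lin 1)) hs) ?_ le_rfl))
  exact sub_mem' (smul_mem' _ (smul_mem' _ h2)) (smul_mem' _ (smul_mem' _ h1))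

theorem typeC_vanish {m0 m1 m2 n0 n1 n2 c1 c2 x0 x1 x2 p0 p1 p2 q0 q1 q2 : ℝ}
    (hp : p0 ^ 2 + p1 ^ 2 + p2 ^ 2 = 1) (hq : q0 ^ 2 + q1 ^ 2 + q2 ^ 2 = 1)
    (hpm : m0 * p0 + m1 * p1 + m2 * p2 = c1) (hqn : n0 * q0 + n1 * q1 + n2 * q2 = c2)
    (hh : 1 + (p0 * q0 + p1 * q1 + p2 * q2) ≠ 0)
    (e0 : (1 + (p0 * q0 + p1 * q1 + p2 * q2)) * x0 = p1 * q2 - p2 * q1)
    (e1 : (1 + (p0 * q0 + p1 * q1 + p2 * q2)) * x1 = p2 * q0 - p0 * q2)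
    (e2 : (1 + (p0 * q0 + p1 * q1 + p2 * q2)) * x2 = p0 * q1 - p1 * q0) :
    cG m0 m1 m2 n0 n1 n2 c1 c2 x0 x1 x2 = 0 := by
  obtain ⟨s, hs⟩ : ∃ s, s = p0 * q0 + p1 * q1 + p2 * q2 := ⟨_, rfl⟩
  obtain ⟨N, hN⟩ : ∃ N, N = x0 ^ 2 + x1 ^ 2 + x2 ^ 2 := ⟨_, rfl⟩
  rw [← hs] at hh e0 e1 e2
  have hN2 : (1 + s) * N = 1 - s := by
    apply mul_left_cancel₀ hh
    rw [hN]
    linear_combination ((1 + s) * x0 + (p1 * q2 - p2 * q1)) * e0 + ((1 + s) * x1 + (p2 * q0 - p0 * q2)) * e1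
      + ((1 + s) * x2 + (p0 * q1 - p1 * q0)) * e2 + (q0 ^ 2 + q1 ^ 2 + q2 ^ 2) * hp + hq
      + (s + (p0 * q0 + p1 * q1 + p2 * q2)) * hs
  have hpV : p0 * x0 + p1 * x1 + p2 * x2 = 0 := by
    apply mul_left_cancel₀ hh
    linear_combination p0 * e0 + p1 * e1 + p2 * e2
  have hpU : p0 * ((1 - N) * n0 + (n1 * (2 * x2) - n2 * (2 * x1)))
      + p1 * ((1 - N) * n1 + (n2 * (2 * x0) - n0 * (2 * x2)))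
      + p2 * ((1 - N) * n2 + (n0 * (2 * x1) - n1 * (2 * x0))) = c2 * (1 + N) := by
    apply mul_left_cancel₀ hh
    rw [← hqn]
    linear_combination (-(p0 * n0 + p1 * n1 + p2 * n2) - (n0 * q0 + n1 * q1 + n2 * q2)) * hN2
      + 2 * (p1 * n2 - p2 * n1) * e0 + 2 * (p2 * n0 - p0 * n2) * e1 + 2 * (p0 * n1 - p1 * n0) * e2
      + 2 * (n0 * q0 + n1 * q1 + n2 * q2) * hp + 2 * (p0 * n0 + p1 * n1 + p2 * n2) * hs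
  have w0 : cW m0 m1 m2 n0 n1 n2 c1 c2 x0 x1 x2 = cD m0 m1 m2 n0 n1 n2 x0 x1 x2 * p0 := by
    rw [← hpm]
    unfold cW cD cZ
    rw [← hN, show x1 ^ 2 + x2 ^ 2 + x0 ^ 2 = N by rw [hN]; ring, show x2 ^ 2 + x0 ^ 2 + x1 ^ 2 = N by rw [hN]; ring]
    linear_combination (-(m1 * (2 * x2) - m2 * (2 * x1))) * hpU
      + (-2 * (((1 - N) * n1 + (n2 * (2 * x0) - n0 * (2 * x2))) * m2 - ((1 - N) * n2 + (n0 * (2 * x1) - n1 * (2 * x0))) * m1)) * hpV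
  have w1 : cW m1 m2 m0 n1 n2 n0 c1 c2 x1 x2 x0 = cD m0 m1 m2 n0 n1 n2 x0 x1 x2 * p1 := by
    rw [← hpm]
    unfold cW cD cZ
    rw [← hN, show x1 ^ 2 + x2 ^ 2 + x0 ^ 2 = N by rw [hN]; ring, show x2 ^ 2 + x0 ^ 2 + x1 ^ 2 = N by rw [hN]; ring]
    linear_combination (-(m2 * (2 * x0) - m0 * (2 * x2))) * hpU
      + (-2 * (((1 - N) * n2 + (n0 * (2 * x1) - n1 * (2 * x0))) * m0 - ((1 - N) * n0 + (n1 * (2 * x2) - n2 * (2 * x1))) * m2)) * hpV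
  have w2 : cW m2 m0 m1 n2 n0 n1 c1 c2 x2 x0 x1 = cD m0 m1 m2 n0 n1 n2 x0 x1 x2 * p2 := by
    rw [← hpm]
    unfold cW cD cZ
    rw [← hN, show x1 ^ 2 + x2 ^ 2 + x0 ^ 2 = N by rw [hN]; ring, show x2 ^ 2 + x0 ^ 2 + x1 ^ 2 = N by rw [hN]; ring]
    linear_combination (-(m0 * (2 * x1) - m1 * (2 * x0))) * hpU
      + (-2 * (((1 - N) * n0 + (n1 * (2 * x2) - n2 * (2 * x1))) * m1 - ((1 - N) * n1 + (n2 * (2 * x0) - n0 * (2 * x2))) * m0)) * hpV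
  unfold cG
  rw [w0, w1, w2]
  linear_combination (cD m0 m1 m2 n0 n1 n2 x0 x1 x2) ^ 2 * hp

end H537R3.Chess
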