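import Pool.Agent.H537R3.Chess.TypeC

namespace H537R3.Chess

theorem exists_orth (m : E3) : ∃ u : E3, ‖u‖ = 1 ∧ inner ℝ m u = 0 := by
  obtain ⟨e, he, hme⟩ : ∃ e : E3, e ≠ 0 ∧ inner ℝ m e = 0 := by
    by_cases h : m 0 = 0 ∧ m 1 = 0
    · refine ⟨!₂[1, 0, 0], ?_, ?_⟩
      · intro h0
        have := congrArg (fun v : E3 => v 0) h0
        simp at this
      · rw [inner_coord]; simp [h.1]
    · refine ⟨!₂[m 1, -m 0, 0], ?_, ?_⟩
      · intro h0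
        apply h
        have h1 := congrArg (fun v : E3 => v 0) h0
        have h2 := congrArg (fun v : E3 => v 1) h0
        simp at h1 h2
        exact ⟨h2, h1⟩
      · rw [inner_coord]; simp; ring
  refine ⟨‖e‖⁻¹ • e, ?_, ?_⟩
  · rw [norm_smul, norm_inv, norm_norm]
    exact inv_mul_cancel₀ (norm_ne_zero_iff.mpr he)
  · rw [inner_smul_right, hme, mul_zero]

/-- A circle contained in the unit sphere: its plane is at distance `< 1` from the origin. -/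
theorem sphere_circle {a m : E3} {r : ℝ} (hm : m ≠ 0) (hr : 0 < r)
    (h : ∀ p ∈ {x : E3 | dist x a = r ∧ inner ℝ m (x - a) = 0}, ‖p‖ = 1) :
    (m 0 * a 0 + m 1 * a 1 + m 2 * a 2) ^ 2 < m 0 ^ 2 + m 1 ^ 2 + m 2 ^ 2 := by
  obtain ⟨u, hu, hmu⟩ := exists_orth m
  have h1 : ‖a + r • u‖ = 1 := h _ ⟨by simp [dist_eq_norm, norm_smul, hu, abs_of_pos hr],
    by simp [inner_smul_right, hmu]⟩
  have h2 : ‖a - r • u‖ = 1 := h _ ⟨by simp [dist_eq_norm, norm_smul, hu, abs_of_pos hr],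
    by simp [inner_smul_right, hmu]⟩
  have h3 := norm_coord (a + r • u)
  have h4 := norm_coord (a - r • u)
  have h5 := norm_coord u
  rw [h1] at h3
  rw [h2] at h4
  rw [hu] at h5
  simp only [PiLp.add_apply, PiLp.sub_apply, PiLp.smul_apply, smul_eq_mul] at h3 h4
  have h6 : a 0 ^ 2 + a 1 ^ 2 + a 2 ^ 2 = 1 - r ^ 2 := by
    linear_combination (-1 / 2) * h3 - (1 / 2) * h4 + r ^ 2 * h5
  have hm2 := ne_zero_coord hm
  have h7 : (m 0 * a 0 + m 1 * a 1 + m 2 * a 2) ^ 2 + ((m 0 * a 1 - m 1 * a 0) ^ 2 + (m 1 * a 2 - m 2 * a 1) ^ 2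
      + (m 2 * a 0 - m 0 * a 2) ^ 2) = (m 0 ^ 2 + m 1 ^ 2 + m 2 ^ 2) * (1 - r ^ 2) := by
    rw [← h6]; ring
  have h8 : 0 < (m 0 ^ 2 + m 1 ^ 2 + m 2 ^ 2) * r ^ 2 := by positivity
  have h9 := sq_nonneg (m 0 * a 1 - m 1 * a 0)
  have h10 := sq_nonneg (m 1 * a 2 - m 2 * a 1)
  have h11 := sq_nonneg (m 2 * a 0 - m 0 * a 2)
  linarith

theorem typeC_quart (T : Set E3) (hT : TypeC T) : ∃ f ∈ Lin ^ 4, f ≠ 0 ∧ ∀ x ∈ T, f x = 0 := by
  obtain ⟨α, β, ⟨a, m, r, hm, hr, rfl⟩, ⟨b, n, s, hn, hs, rfl⟩, hα, hβ, rfl⟩ := hT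
  have hc1 := sphere_circle hm hr hα
  have hc2 := sphere_circle hn hs hβ
  set c1 := m 0 * a 0 + m 1 * a 1 + m 2 * a 2 with hc1d
  set c2 := n 0 * b 0 + n 1 * b 1 + n 2 * b 2 with hc2d
  refine ⟨fun x => cG (m 0) (m 1) (m 2) (n 0) (n 1) (n 2) c1 c2 (x 0) (x 1) (x 2), ?_, ?_, ?_⟩
  · have k0 : (fun x : E3 => x 0) ∈ Lin ^ 1 := lin_mem' (coord_mem_Lin 0)
    have k1 : (fun x : E3 => x 1) ∈ Lin ^ 1 := lin_mem' (coord_mem_Lin 1)
    have k2 : (fun x : E3 => x 2) ∈ Lin ^ 1 := lin_mem' (coord_mem_Lin 2)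
    have s0 : (fun x : E3 => x 0 ^ 2 + x 1 ^ 2 + x 2 ^ 2) ∈ Lin ^ 1 := lin_mem' nsq_mem_Lin
    have s1 : (fun x : E3 => x 1 ^ 2 + x 2 ^ 2 + x 0 ^ 2) ∈ Lin ^ 1 := by
      convert s0 using 2; ring
    have s2 : (fun x : E3 => x 2 ^ 2 + x 0 ^ 2 + x 1 ^ 2) ∈ Lin ^ 1 := by
      convert s0 using 2; ring
    have W0 := cW_mem (m 0) (m 1) (m 2) (n 0) (n 1) (n 2) c1 c2 k0 k1 k2 s0
    have W1 := cW_mem (m 1) (m 2) (m 0) (n 1) (n 2) (n 0) c1 c2 k1 k2 k0 s1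
    have W2 := cW_mem (m 2) (m 0) (m 1) (n 2) (n 0) (n 1) c1 c2 k2 k0 k1 s2
    have Z0 := cZ_mem (n 0) (n 1) (n 2) k0 k1 k2 s0
    have Z1 := cZ_mem (n 1) (n 2) (n 0) k1 k2 k0 s1
    have Z2 := cZ_mem (n 2) (n 0) (n 1) k2 k0 k1 s2
    have D0 : (fun x : E3 => cD (m 0) (m 1) (m 2) (n 0) (n 1) (n 2) (x 0) (x 1) (x 2)) ∈ Lin ^ 2 := by
      unfold cD
      exact add_mem' (add_mem' (smul_mem' _ Z0) (smul_mem' _ Z1)) (smul_mem' _ Z2)
    unfold cG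
    simp only [sq]
    exact sub_mem' (add_mem' (add_mem' (mul_mem' W0 W0 (by norm_num)) (mul_mem' W1 W1 (by norm_num)))
      (mul_mem' W2 W2 (by norm_num))) (mul_mem' D0 D0 (by norm_num))
  · intro h
    obtain ⟨x0, x1, x2, hx⟩ := cG_nonzero (m 0) (m 1) (m 2) (n 0) (n 1) (n 2) c1 c2 hc1 hc2
    apply hx
    have := congrFun h !₂[x0, x1, x2]
    simpa using this
  · rintro x ⟨p, hp, q, hq, hpq, rfl⟩
    have hp1 := hα p hp
    have hq1 := hβ q hq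
    obtain ⟨-, hp2⟩ := hp
    obtain ⟨-, hq2⟩ := hq
    rw [inner_coord] at hp2 hq2
    simp only [PiLp.sub_apply] at hp2 hq2
    have np := norm_coord p
    have nq := norm_coord q
    rw [hp1] at np
    rw [hq1] at nq
    have npq := norm_coord (p + q)
    simp only [PiLp.add_apply] at npq
    have hpos : ‖p + q‖ ^ 2 ≠ 0 := pow_ne_zero 2 (norm_ne_zero_iff.mpr hpq)
    have h2 : ‖p + q‖ ^ 2 = 2 * (1 + (p 0 * q 0 + p 1 * q 1 + p 2 * q 2)) := by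
      rw [npq]; linear_combination (-1) * np - nq
    have hh : 1 + (p 0 * q 0 + p 1 * q 1 + p 2 * q 2) ≠ 0 := by
      intro h0; rw [h0, mul_zero] at h2; exact hpos h2
    refine typeC_vanish (p0 := p 0) (p1 := p 1) (p2 := p 2) (q0 := q 0) (q1 := q 1) (q2 := q 2)
      (by linear_combination (-1) * np) (by linear_combination (-1) * nq) ?_ ?_ hh ?_ ?_ ?_
    · rw [hc1d]; linear_combination hp2
    · rw [hc2d]; linear_combination hq2
    · rw [h2]; simp only [cr, PiLp.smul_apply, smul_eq_mul]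
      simp
      field_simp
    · rw [h2]; simp only [cr, PiLp.smul_apply, smul_eq_mul]
      simp
      field_simp
    · rw [h2]; simp only [cr, PiLp.smul_apply, smul_eq_mul]
      simp
      field_simp

end H537R3.Chess
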