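import Pool.Agent.H537R3.Chess.Quart

namespace H537R3.Chess

theorem inner_coord (n v : E3) : inner ℝ n v = n 0 * v 0 + n 1 * v 1 + n 2 * v 2 := by
  rw [PiLp.inner_apply, Fin.sum_univ_three]
  simp [mul_comm]

theorem norm_coord (v : E3) : ‖v‖ ^ 2 = v 0 ^ 2 + v 1 ^ 2 + v 2 ^ 2 := by
  rw [EuclideanSpace.norm_sq_eq, Fin.sum_univ_three]
  simp [sq_abs]

theorem add_mem' {k : ℕ} {f g : E3 → ℝ} (hf : f ∈ Lin ^ k) (hg : g ∈ Lin ^ k) :
    (fun x => f x + g x) ∈ Lin ^ k := Submodule.add_mem _ hf hg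

theorem sub_mem' {k : ℕ} {f g : E3 → ℝ} (hf : f ∈ Lin ^ k) (hg : g ∈ Lin ^ k) :
    (fun x => f x - g x) ∈ Lin ^ k := Submodule.sub_mem _ hf hg

theorem smul_mem' {k : ℕ} {f : E3 → ℝ} (c : ℝ) (hf : f ∈ Lin ^ k) :
    (fun x => c * f x) ∈ Lin ^ k := Submodule.smul_mem _ c hf

theorem ne_zero_coord {n : E3} (hn : n ≠ 0) : 0 < n 0 ^ 2 + n 1 ^ 2 + n 2 ^ 2 := by
  rw [← norm_coord]
  positivity

theorem typeD_quart (T : Set E3) (hT : TypeD T) : ∃ f ∈ Lin ^ 4, f ≠ 0 ∧ ∀ x ∈ T, f x = 0 := by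
  obtain ⟨Q, -, hQ, rfl, hne⟩ := hT
  refine ⟨fun x => MvPolynomial.eval ![x 0, x 1, x 2, x 0 ^ 2 + x 1 ^ 2 + x 2 ^ 2] Q, ?_, ?_, fun x hx => hx⟩
  · have h1 : (fun x : E3 => MvPolynomial.eval ![x 0, x 1, x 2, x 0 ^ 2 + x 1 ^ 2 + x 2 ^ 2] Q)
        = ∑ d ∈ Q.support, fun x : E3 => Q.coeff d * ((x 0) ^ d 0 * (x 1) ^ d 1 * (x 2) ^ d 2
            * (x 0 ^ 2 + x 1 ^ 2 + x 2 ^ 2) ^ d 3) := by
      funext x
      rw [MvPolynomial.eval_eq', Finset.sum_apply]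
      refine Finset.sum_congr rfl fun d _ => ?_
      rw [Fin.prod_univ_four]
      simp
    rw [h1]
    refine Submodule.sum_mem _ fun d hd => ?_
    have hdeg : d 0 + d 1 + d 2 + d 3 ≤ 2 := by
      have := (MvPolynomial.le_totalDegree hd).trans hQ
      rwa [Finsupp.sum_fintype _ _ (by simp), Fin.sum_univ_four] at this
    refine smul_mem' _ ?_
    have p0 := Submodule.pow_mem_pow Lin (coord_mem_Lin 0) (d 0)
    have p1 := Submodule.pow_mem_pow Lin (coord_mem_Lin 1) (d 1)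
    have p2 := Submodule.pow_mem_pow Lin (coord_mem_Lin 2) (d 2)
    have p3 := Submodule.pow_mem_pow Lin nsq_mem_Lin (d 3)
    exact mul_mem' (mul_mem' (mul_mem' p0 p1 le_rfl) p2 le_rfl) p3 (by omega)
  · intro h
    apply hne
    rw [Set.eq_univ_iff_forall]
    intro x
    exact congrFun h x

theorem typeE_quart (T : Set E3) (hT : TypeE T) : ∃ f ∈ Lin ^ 4, f ≠ 0 ∧ ∀ x ∈ T, f x = 0 := by
  obtain ⟨α, β, ⟨a, n, r, hn, hr, rfl⟩, ⟨b, m, s, hm, hs, rfl⟩, rfl⟩ := hT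
  have hn2 := ne_zero_coord hn
  have hm2 := ne_zero_coord hm
  -- equations of the two circles
  have hmem : ∀ x : E3, (∃ p ∈ {x : E3 | dist x a = r ∧ inner ℝ n (x - a) = 0},
      ∃ q ∈ {x : E3 | dist x b = s ∧ inner ℝ m (x - b) = 0}, x = p + q) →
      ∃ u0 u1 u2 v0 v1 v2 : ℝ, u0 ^ 2 + u1 ^ 2 + u2 ^ 2 = r ^ 2 ∧ n 0 * u0 + n 1 * u1 + n 2 * u2 = 0 ∧
        v0 ^ 2 + v1 ^ 2 + v2 ^ 2 = s ^ 2 ∧ m 0 * v0 + m 1 * v1 + m 2 * v2 = 0 ∧
        x 0 - (a 0 + b 0) = u0 + v0 ∧ x 1 - (a 1 + b 1) = u1 + v1 ∧ x 2 - (a 2 + b 2) = u2 + v2 := by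
    rintro x ⟨p, ⟨hp1, hp2⟩, q, ⟨hq1, hq2⟩, rfl⟩
    refine ⟨p 0 - a 0, p 1 - a 1, p 2 - a 2, q 0 - b 0, q 1 - b 1, q 2 - b 2, ?_, ?_, ?_, ?_, ?_, ?_, ?_⟩
    · rw [← dist_sq, hp1]
    · rw [inner_coord] at hp2; simpa using hp2
    · rw [← dist_sq, hq1]
    · rw [inner_coord] at hq2; simpa using hq2
    · simp; ring
    · simp; ring
    · simp; ring
  by_cases hpar : n 1 * m 2 - n 2 * m 1 = 0 ∧ n 2 * m 0 - n 0 * m 2 = 0 ∧ n 0 * m 1 - n 1 * m 0 = 0
  · -- parallel normals: the set lies in a plane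
    obtain ⟨c0, c1, c2⟩ := hpar
    refine ⟨linF 0 (n 0) (n 1) (n 2) (-(n 0 * (a 0 + b 0) + n 1 * (a 1 + b 1) + n 2 * (a 2 + b 2))),
      pow_mono' (by norm_num : 1 ≤ 4) (lin_mem' ⟨_, _, _, _, _, rfl⟩), ?_, ?_⟩
    · intro h
      have := congrFun h (a + b + n)
      simp only [linF, Pi.zero_apply, PiLp.add_apply] at this
      have h7 : n 0 ^ 2 + n 1 ^ 2 + n 2 ^ 2 = 0 := by linear_combination this
      exact hn2.ne' h7
    · intro x hx
      obtain ⟨u0, u1, u2, v0, v1, v2, h1, h2, h3, h4, e0, e1, e2⟩ := hmem x hx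
      have h5 : (m 0 ^ 2 + m 1 ^ 2 + m 2 ^ 2) * (n 0 * v0 + n 1 * v1 + n 2 * v2) = 0 := by
        linear_combination (n 0 * m 0 + n 1 * m 1 + n 2 * m 2) * h4 +
          (v1 * m 2 - v2 * m 1) * c0 + (v2 * m 0 - v0 * m 2) * c1 + (v0 * m 1 - v1 * m 0) * c2
      have h6 : n 0 * v0 + n 1 * v1 + n 2 * v2 = 0 := by
        rcases mul_eq_zero.mp h5 with h | h
        · exact absurd h hm2.ne'
        · exact h
      simp only [linF]
      linear_combination n 0 * e0 + n 1 * e1 + n 2 * e2 + h2 + h6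
  · -- the main case
    set y0 : E3 → ℝ := fun x => x 0 - (a 0 + b 0) with hy0
    set y1 : E3 → ℝ := fun x => x 1 - (a 1 + b 1) with hy1
    set y2 : E3 → ℝ := fun x => x 2 - (a 2 + b 2) with hy2
    have my0 : y0 ∈ Lin := mem_Lin _ 0 1 0 0 (-(a 0 + b 0)) (fun x => by simp [linF, hy0]; ring)
    have my1 : y1 ∈ Lin := mem_Lin _ 0 0 1 0 (-(a 1 + b 1)) (fun x => by simp [linF, hy1]; ring)
    have my2 : y2 ∈ Lin := mem_Lin _ 0 0 0 1 (-(a 2 + b 2)) (fun x => by simp [linF, hy2]; ring)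
    set ym : E3 → ℝ := fun x => m 0 * y0 x + m 1 * y1 x + m 2 * y2 x with hym
    set k : E3 → ℝ := fun x => (y0 x ^ 2 + y1 x ^ 2 + y2 x ^ 2 + r ^ 2 - s ^ 2) / 2 with hk
    have mym : ym ∈ Lin ^ 1 := add_mem' (add_mem' (smul_mem' _ (lin_mem' my0)) (smul_mem' _ (lin_mem' my1)))
      (smul_mem' _ (lin_mem' my2))
    have mk' : k ∈ Lin ^ 1 := by
      apply lin_mem'
      refine mem_Lin _ (1 / 2) (-(a 0 + b 0)) (-(a 1 + b 1)) (-(a 2 + b 2))
        (((a 0 + b 0) ^ 2 + (a 1 + b 1) ^ 2 + (a 2 + b 2) ^ 2 + r ^ 2 - s ^ 2) / 2) (fun x => ?_)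
      simp only [linF, hk, hy0, hy1, hy2]; ring
    set A0 : ℝ := n 1 * m 2 - n 2 * m 1 with hA0
    set A1 : ℝ := n 2 * m 0 - n 0 * m 2 with hA1
    set A2 : ℝ := n 0 * m 1 - n 1 * m 0 with hA2
    set w0 : E3 → ℝ := fun x => ym x * (n 2 * y1 x - n 1 * y2 x) + A0 * k x with hw0
    set w1 : E3 → ℝ := fun x => ym x * (n 0 * y2 x - n 2 * y0 x) + A1 * k x with hw1
    set w2 : E3 → ℝ := fun x => ym x * (n 1 * y0 x - n 0 * y1 x) + A2 * k x with hw2
    set de : E3 → ℝ := fun x => A0 * y0 x + A1 * y1 x + A2 * y2 x with hde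
    have m12 : (1 : ℕ) ≤ 2 := by norm_num
    have mw0 : w0 ∈ Lin ^ 2 := add_mem' (mul_mem' mym (sub_mem' (smul_mem' _ (lin_mem' my1))
      (smul_mem' _ (lin_mem' my2))) (by norm_num)) (smul_mem' _ (pow_mono' m12 mk'))
    have mw1 : w1 ∈ Lin ^ 2 := add_mem' (mul_mem' mym (sub_mem' (smul_mem' _ (lin_mem' my2))
      (smul_mem' _ (lin_mem' my0))) (by norm_num)) (smul_mem' _ (pow_mono' m12 mk'))
    have mw2 : w2 ∈ Lin ^ 2 := add_mem' (mul_mem' mym (sub_mem' (smul_mem' _ (lin_mem' my0))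
      (smul_mem' _ (lin_mem' my1))) (by norm_num)) (smul_mem' _ (pow_mono' m12 mk'))
    have mde : de ∈ Lin ^ 1 := add_mem' (add_mem' (smul_mem' _ (lin_mem' my0)) (smul_mem' _ (lin_mem' my1)))
      (smul_mem' _ (lin_mem' my2))
    refine ⟨fun x => (w0 x * w0 x + w1 x * w1 x + w2 x * w2 x) - r ^ 2 * (de x * de x), ?_, ?_, ?_⟩
    · refine sub_mem' (add_mem' (add_mem' ?_ ?_) ?_) (smul_mem' _ ?_)
      · exact mul_mem' mw0 mw0 (by norm_num)
      · exact mul_mem' mw1 mw1 (by norm_num)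
      · exact mul_mem' mw2 mw2 (by norm_num)
      · exact mul_mem' mde mde (by norm_num)
    · intro hz
      have hM : 0 < A0 ^ 2 + A1 ^ 2 + A2 ^ 2 := by
        by_contra hM
        apply hpar
        have h0 := sq_nonneg A0
        have h1 := sq_nonneg A1
        have h2 := sq_nonneg A2
        refine ⟨?_, ?_, ?_⟩ <;> apply pow_eq_zero_iff (two_ne_zero) |>.mp <;> linarith
      have hval : ∀ t : ℝ, (((t ^ 2 * (A0 ^ 2 + A1 ^ 2 + A2 ^ 2) + r ^ 2 - s ^ 2) / 2) ^ 2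
          - r ^ 2 * (t ^ 2 * (A0 ^ 2 + A1 ^ 2 + A2 ^ 2))) * (A0 ^ 2 + A1 ^ 2 + A2 ^ 2) = 0 := by
        intro t
        have := congrFun hz (!₂[a 0 + b 0 + t * A0, a 1 + b 1 + t * A1, a 2 + b 2 + t * A2] : E3)
        simp only [hw0, hw1, hw2, hde, hym, hk, hy0, hy1, hy2, Pi.zero_apply] at this
        simp only [Matrix.cons_val_zero, Matrix.cons_val_one, Matrix.cons_val] at this
        have o1 : m 0 * A0 + m 1 * A1 + m 2 * A2 = 0 := by rw [hA0, hA1, hA2]; ring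
        have s0 : a 0 + b 0 + t * A0 - (a 0 + b 0) = t * A0 := by ring
        have s1 : a 1 + b 1 + t * A1 - (a 1 + b 1) = t * A1 := by ring
        have s2 : a 2 + b 2 + t * A2 - (a 2 + b 2) = t * A2 := by ring
        rw [s0, s1, s2] at this
        have o2 : m 0 * (t * A0) + m 1 * (t * A1) + m 2 * (t * A2) = 0 := by
          linear_combination t * o1
        rw [o2] at this
        linear_combination this
      have g1 := hval 1
      have g2 := hval 2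
      have g3 := hval 3
      have k1 := (mul_eq_zero.mp g1).resolve_right hM.ne'
      have k2 := (mul_eq_zero.mp g2).resolve_right hM.ne'
      have k3 := (mul_eq_zero.mp g3).resolve_right hM.ne'
      set M := A0 ^ 2 + A1 ^ 2 + A2 ^ 2 with hMdef
      have h8 : M * M = 0 := by linear_combination (1 / 10) * k3 - (4 / 15) * k2 + (1 / 6) * k1
      exact (mul_pos hM hM).ne' h8
    · intro x hx
      obtain ⟨u0, u1, u2, v0, v1, v2, h1, h2, h3, h4, e0, e1, e2⟩ := hmem x hx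
      have f0 : y0 x = u0 + v0 := e0
      have f1 : y1 x = u1 + v1 := e1
      have f2 : y2 x = u2 + v2 := e2
      have fm : ym x = m 0 * u0 + m 1 * u1 + m 2 * u2 := by
        simp only [hym]; rw [f0, f1, f2]; linear_combination h4
      have fk : k x = u0 * (u0 + v0) + u1 * (u1 + v1) + u2 * (u2 + v2) := by
        simp only [hk]; rw [f0, f1, f2]; linear_combination (-1 / 2) * h1 + (1 / 2) * h3
      have g0 : w0 x = de x * u0 := by
        simp only [hw0, hde]; rw [fm, fk, f0, f1, f2, hA0, hA1, hA2]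
        linear_combination ((u1 + v1) * m 2 - (u2 + v2) * m 1) * h2
      have g1 : w1 x = de x * u1 := by
        simp only [hw1, hde]; rw [fm, fk, f0, f1, f2, hA0, hA1, hA2]
        linear_combination ((u2 + v2) * m 0 - (u0 + v0) * m 2) * h2
      have g2 : w2 x = de x * u2 := by
        simp only [hw2, hde]; rw [fm, fk, f0, f1, f2, hA0, hA1, hA2]
        linear_combination ((u0 + v0) * m 1 - (u1 + v1) * m 0) * h2
      simp only [g0, g1, g2]
      linear_combination (de x) ^ 2 * h1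

end H537R3.Chess
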